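import Mathlib
import Pool.Agent.Work.MP_c971ef_nt.LS.A

set_option autoImplicit false

/-!
Module PaA (size S, a port). `PoolLS.partA` for an arbitrary index set: copy the proof of `partA` (LS/A.lean); the first line
`obtain ⟨κ, R, δ, c₁, hδ, hc₁, N₁, hidx⟩ := index_set L` is replaced by the hypotheses. (Everything else used there is a public theorem
of the LS files; private lemmas, if any, may be copied.)
-/

namespace PoolLS

open Finset

open Classical in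
theorem partA_of (L κ R : ℕ) (δ c₁ : ℝ) (hδ : 0 < δ) (hc₁ : 0 < c₁) (N₁ : ℕ)
    (hidx : ∀ X : ℕ, N₁ ≤ X → ∃ M : Finset ℕ, M ⊆ Icc 1 X ∧ (∀ m ∈ M, Ind L R ((X : ℝ) ^ δ) m) ∧
      c₁ * (X / (Real.log X) ^ κ) ≤ (#M : ℝ)) :
    ∃ (C : ℕ) (c : ℝ) (N₀ : ℕ), 0 < c ∧ ∀ N K J : ℕ, N₀ ≤ N → K ≤ N → J ≤ N →
    (Real.log N) ^ C ≤ (K : ℝ) * J / N →
    (#((Ioc N (8 * N)).filter (fun n => ¬ ∃ k j : ℕ, (K : ℝ) / (Real.log N) ^ C ≤ k ∧ k ≤ K ∧ j ≤ J ∧
      (∀ q : ℕ, q.Prime → q ∣ 2 * k + 1 → ((K : ℝ) * J / N) ^ c ≤ q) ∧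
      Ind L R ((N : ℝ) ^ c) (k * n + j))) : ℝ) ≤ N * ((K : ℝ) * J / N) ^ (-c) := by
  obtain ⟨B, c₂, C₂, hc₂, hC₂, hw⟩ := weights
  set θ : ℝ := 1 / (16 * (B + 1)) with hθ
  have hθ0 : 0 < θ := by positivity
  have hθ1 : θ ≤ 1 / 16 := by
    rw [hθ]
    apply div_le_div_of_nonneg_left (by norm_num) (by norm_num)
    have : (0 : ℝ) ≤ B := Nat.cast_nonneg B
    linarith
  set A : ℝ := max 4 (max ((4 : ℝ) ^ (8 * (B + 1))) (max (2 ^ (κ + 27) * (1 / (c₁ * c₂ ^ 2)))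
    (64 / c₁ * 2 ^ κ))) with hA
  obtain ⟨N₂, hN₂⟩ := Filter.eventually_atTop.1
    ((Real.tendsto_log_atTop.comp tendsto_natCast_atTop_atTop).eventually_ge_atTop A)
  refine ⟨4 * (κ + 4), min δ θ, max N₁ (max N₂ 2), lt_min hδ hθ0, ?_⟩
  intro N K J hN hKN hJN hT
  simp only [max_le_iff] at hN
  obtain ⟨hN1, hN2, hN3⟩ := hN
  have hℓA : A ≤ Real.log N := hN₂ N hN2
  set ℓ := Real.log N with hℓ
  have hℓ4 : 4 ≤ ℓ := le_trans (le_max_left _ _) hℓA
  have hℓB : (4 : ℝ) ^ (8 * (B + 1)) ≤ ℓ :=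
    le_trans ((le_max_left _ _).trans (le_max_right _ _)) hℓA
  have hℓc : 2 ^ (κ + 27) * (1 / (c₁ * c₂ ^ 2)) ≤ ℓ :=
    le_trans ((le_max_left _ _).trans ((le_max_right _ _).trans (le_max_right _ _))) hℓA
  have hℓd : 64 / c₁ * 2 ^ κ ≤ ℓ :=
    le_trans ((le_max_right _ _).trans ((le_max_right _ _).trans (le_max_right _ _))) hℓA
  have hℓ1 : 1 ≤ ℓ := by linarith
  have hℓ0 : 0 < ℓ := by linarith
  have hNr : (2 : ℝ) ≤ N := by exact_mod_cast hN3
  have hNr0 : (0 : ℝ) < N := by linarith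
  have hKNr : (K : ℝ) ≤ N := by exact_mod_cast hKN
  have hJNr : (J : ℝ) ≤ N := by exact_mod_cast hJN
  set T : ℝ := (K : ℝ) * J / N with hTdef
  have hTpos : 0 < T := lt_of_lt_of_le (by positivity) hT
  have hTℓ : ℓ ^ (κ + 1) ≤ T := le_trans (pow_le_pow_right₀ hℓ1 (by omega)) hT
  have hTℓ1 : ℓ ≤ T := by
    refine le_trans ?_ hTℓ
    exact le_self_pow₀ hℓ1 (by omega)
  have hK0 : (0 : ℝ) < K := by
    by_contra h
    have h0 : (K : ℝ) = 0 := le_antisymm (not_lt.1 h) (Nat.cast_nonneg K)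
    rw [hTdef, h0, zero_mul, zero_div] at hTpos
    exact lt_irrefl _ hTpos
  have hJ0 : (0 : ℝ) < J := by
    by_contra h
    have h0 : (J : ℝ) = 0 := le_antisymm (not_lt.1 h) (Nat.cast_nonneg J)
    rw [hTdef, h0, mul_zero, zero_div] at hTpos
    exact lt_irrefl _ hTpos
  have hK1 : 1 ≤ K := by exact_mod_cast hK0
  have hTK : T ≤ K := by
    rw [hTdef, div_le_iff₀ hNr0]
    exact mul_le_mul_of_nonneg_left hJNr hK0.le
  have hTN : T ≤ N := hTK.trans hKNr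
  obtain ⟨z, hz3, hzT, hTz, hDF, hzBT⟩ := choice B T (hℓB.trans hTℓ1)
  have hzr : (3 : ℝ) ≤ z := by exact_mod_cast hz3
  obtain ⟨fp, fm, hF, hsupp, -, hneg, -, hmean⟩ := hw z hz3
  have hKN0 : N₁ ≤ K * N := hN1.trans (Nat.le_mul_of_pos_left _ hK1)
  obtain ⟨M, hM, hMind, hMcard⟩ := hidx (K * N) hKN0
  obtain ⟨U, hU⟩ : ∃ U : ℕ, U = ⌊c₁ / 4 * ((K : ℝ) * N / (2 * ℓ) ^ κ)⌋₊ := ⟨_, rfl⟩
  have hℓκ : 64 / c₁ * 2 ^ κ * ℓ ^ κ ≤ ℓ ^ (κ + 1) := by
    calc 64 / c₁ * 2 ^ κ * ℓ ^ κ ≤ ℓ * ℓ ^ κ := mul_le_mul_of_nonneg_right hℓd (by positivity)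
      _ = ℓ ^ (κ + 1) := by ring
  have hcard := index_set2 κ c₁ hc₁ N K J ℓ hℓ hℓ4 hKN hJN hK1 hN3 (by
    rw [mul_pow, ← mul_assoc]
    calc 4 / c₁ * 2 ^ κ * ℓ ^ κ ≤ 64 / c₁ * 2 ^ κ * ℓ ^ κ := by
          apply mul_le_mul_of_nonneg_right _ (by positivity)
          apply mul_le_mul_of_nonneg_right _ (by positivity)
          exact div_le_div_of_nonneg_right (by norm_num) hc₁.le
      _ ≤ ℓ ^ (κ + 1) := hℓκ
      _ ≤ K := hTℓ.trans hTK) M hM hMcard U hU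
  set M' := M.filter (fun m => U + J < m) with hM'
  set G := (Ioc N (8 * N)).filter (fun n => ¬ ∃ k j : ℕ, (K : ℝ) / ℓ ^ (4 * (κ + 4)) ≤ k ∧ k ≤ K ∧
      j ≤ J ∧ (∀ q : ℕ, q.Prime → q ∣ 2 * k + 1 → T ^ (min δ θ) ≤ q) ∧
      Ind L R ((N : ℝ) ^ (min δ θ)) (k * n + j)) with hG
  have hGs : G ⊆ Ioc N (8 * N) := filter_subset _ _
  have hwls := wls N J 1 (K * N) z (z ^ B) ((z : ℝ) + 1) G M' hGs
    (fun m hm => by
      have := mem_Icc.1 (hM (mem_filter.1 hm).1)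
      rw [mem_Ico]
      omega)
    (fun m hm => by have := (mem_filter.1 hm).2; omega) fm (fun d => (hF d).2) (fun d hd => hsupp d (Or.inr hd))
    (by omega) (Nat.one_le_pow _ _ (by omega))
  -- the weighted sum is nonpositive
  have hneg2 : ∑ m ∈ M', ∑ n ∈ G, (∑ j ∈ (range (J + 1)).filter (fun j => n ∣ m - j),
        ww z fm ((m - j) / n)) / ((J : ℝ) + 1) ≤ 0 := by
    apply sum_nonpos
    intro m hm
    apply sum_nonpos
    intro n hn
    apply div_nonpos_of_nonpos_of_nonneg _ (by positivity)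
    apply sum_nonpos
    intro j hj
    rw [mem_filter, mem_range] at hj
    rw [hG, mem_filter, mem_Ioc] at hn
    have hm1 := mem_Icc.1 (hM (mem_filter.1 hm).1)
    have hm2 := (mem_filter.1 hm).2
    apply hneg
    intro hemp
    apply hn.2
    obtain ⟨k, hk⟩ := hj.2
    have hn0 : 0 < n := by omega
    have hkq : (m - j) / n = k := by rw [hk]; exact Nat.mul_div_cancel_left k hn0
    rw [hkq] at hemp
    have hmk : k * n + j = m := by
      have : n * k = k * n := mul_comm _ _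
      omega
    refine ⟨k, j, ?_, ?_, by omega, ?_, ?_⟩
    · have h1 : U + 1 ≤ k * n := by omega
      have h2 : k * n ≤ k * (8 * N) := Nat.mul_le_mul_left _ hn.1.2
      have h3 : ((U + 1 : ℕ) : ℝ) ≤ ((k * (8 * N) : ℕ) : ℝ) := by exact_mod_cast h1.trans h2
      push_cast at h3
      have h4 : c₁ / 4 * ((K : ℝ) * N / (2 * ℓ) ^ κ) < (U : ℝ) + 1 := by
        rw [hU]
        exact Nat.lt_floor_add_one _
      have h5 : c₁ / (32 * (2 * ℓ) ^ κ) * K ≤ k := by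
        have h6 : c₁ / (32 * (2 * ℓ) ^ κ) * K * (8 * N) ≤ k * (8 * N) := by
          have h7 : c₁ / (32 * (2 * ℓ) ^ κ) * K * (8 * N) = c₁ / 4 * ((K : ℝ) * N / (2 * ℓ) ^ κ) := by
            field_simp
            ring
          linarith
        exact le_of_mul_le_mul_right h6 (by positivity)
      refine le_trans ?_ h5
      rw [div_mul_eq_mul_div, div_le_div_iff₀ (by positivity) (by positivity)]
      have h8 : 32 * (2 * ℓ) ^ κ ≤ c₁ * ℓ ^ (4 * (κ + 4)) := by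
        have h9 : 64 * (2 : ℝ) ^ κ * ℓ ^ κ ≤ c₁ * ℓ ^ (κ + 1) := by
          have := mul_le_mul_of_nonneg_left hℓκ hc₁.le
          have h10 : c₁ * (64 / c₁ * 2 ^ κ * ℓ ^ κ) = 64 * 2 ^ κ * ℓ ^ κ := by
            field_simp
          linarith
        have h11 : ℓ ^ (κ + 1) ≤ ℓ ^ (4 * (κ + 4)) := pow_le_pow_right₀ hℓ1 (by omega)
        have h12 := mul_le_mul_of_nonneg_left h11 hc₁.le
        have h13 : 0 ≤ (2 : ℝ) ^ κ * ℓ ^ κ := by positivity
        rw [mul_pow]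
        linarith
      calc (K : ℝ) * (32 * (2 * ℓ) ^ κ) ≤ K * (c₁ * ℓ ^ (4 * (κ + 4))) :=
            mul_le_mul_of_nonneg_left h8 hK0.le
        _ = c₁ * K * ℓ ^ (4 * (κ + 4)) := by ring
    · by_contra hcon
      push Not at hcon
      have h1 : K * N < k * n := Nat.mul_lt_mul'' hcon hn.1.1
      omega
    · intro q hq hqd
      have hq2 : q ≠ 2 := by
        rintro rfl
        omega
      have hqz : z ≤ q := by
        by_contra hcon
        push Not at hcon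
        have : q ∈ BB z k := by
          unfold BB PP
          rw [mem_filter, mem_filter, mem_range]
          exact ⟨⟨hcon, hq, hq2⟩, hqd⟩
        rw [hemp] at this
        exact absurd this (notMem_empty q)
      have h1 : T ^ (min δ θ) ≤ T ^ θ :=
        Real.rpow_le_rpow_of_exponent_le (by linarith) (min_le_right _ _)
      have h2 : (z : ℝ) ≤ q := by exact_mod_cast hqz
      linarith
    · rw [hmk]
      have h1 := hMind m (mem_filter.1 hm).1
      intro i hi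
      refine ⟨(h1 i hi).1, fun r hr hrd => le_trans ?_ ((h1 i hi).2 r hr hrd)⟩
      calc (N : ℝ) ^ (min δ θ) ≤ (N : ℝ) ^ δ :=
            Real.rpow_le_rpow_of_exponent_le (by linarith) (min_le_left _ _)
        _ ≤ ((K * N : ℕ) : ℝ) ^ δ := by
            apply Real.rpow_le_rpow hNr0.le _ hδ.le
            push_cast
            have : (1 : ℝ) ≤ K := by exact_mod_cast hK1
            nlinarith
  have hsum : (#G : ℝ) / (8 * N) ≤ ∑ n ∈ G, 1 / (n : ℝ) := by
    have h1 : ∑ n ∈ G, 1 / (8 * (N : ℝ)) ≤ ∑ n ∈ G, 1 / (n : ℝ) := by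
      apply sum_le_sum
      intro n hn
      have h2 := mem_Ioc.1 (hGs hn)
      have h3 : (n : ℝ) ≤ 8 * N := by exact_mod_cast h2.2
      have h4 : (0 : ℝ) < n := by exact_mod_cast (by omega : 0 < n)
      exact one_div_le_one_div_of_le h4 h3
    rw [sum_const, nsmul_eq_mul] at h1
    calc (#G : ℝ) / (8 * N) = #G * (1 / (8 * (N : ℝ))) := by ring
      _ ≤ _ := h1
  have hlz : 0 < Real.log z := Real.log_pos (by linarith)
  have hkey : (#M' * (c₂ / Real.log z * (#G / (8 * N)))) ^ 2 ≤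
      8 * ((K : ℝ) * N + (8 * N * ((z : ℝ) ^ B)) ^ 2) * #M' / ((J : ℝ) + 1) *
        (64 * ((z : ℝ) + 1) ^ 2 * ((z : ℝ) ^ B) ^ 2 * (3 * ℓ)) := by
    have h1 : (0 : ℝ) ≤ #M' * (c₂ / Real.log z * (#G / (8 * N))) := by positivity
    have h2 : #M' * (c₂ / Real.log z * (#G / (8 * N))) ≤
        #M' * (mw z fm * ∑ n ∈ G, 1 / (n : ℝ)) := by
      apply mul_le_mul_of_nonneg_left _ (Nat.cast_nonneg _)
      apply mul_le_mul hmean hsum (by positivity)
      exact le_trans (by positivity) hmean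
    have h3 : (#M' * (c₂ / Real.log z * (#G / (8 * N)))) ^ 2 ≤
        (∑ m ∈ M', ∑ n ∈ G, (∑ j ∈ (range (J + 1)).filter (fun j => n ∣ m - j),
        ww z fm ((m - j) / n)) / ((J : ℝ) + 1) - #M' * (mw z fm * ∑ n ∈ G, 1 / (n : ℝ))) ^ 2 := by
      rw [← neg_sq (∑ m ∈ M', ∑ n ∈ G, (∑ j ∈ (range (J + 1)).filter (fun j => n ∣ m - j),
        ww z fm ((m - j) / n)) / ((J : ℝ) + 1) - #M' * (mw z fm * ∑ n ∈ G, 1 / (n : ℝ)))]
      apply pow_le_pow_left₀ h1
      linarith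
    refine h3.trans (hwls.trans ?_)
    push_cast
    apply mul_le_mul_of_nonneg_left _ (by positivity)
    apply mul_le_mul_of_nonneg_left _ (by positivity)
    -- the logarithm
    have h4 : 8 * (N : ℝ) * (z : ℝ) ^ B ≤ 8 * (N * N) := by
      have : (z : ℝ) ^ B ≤ N := hzBT.trans hTN
      nlinarith
    have h5 : Real.log (8 * (N : ℝ) * (z : ℝ) ^ B) ≤ Real.log 8 + 2 * ℓ := by
      refine (Real.log_le_log (by positivity) h4).trans ?_
      rw [Real.log_mul (by norm_num) (by positivity), Real.log_mul (by positivity) (by positivity), ← hℓ]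
      linarith
    have h6 : Real.log 8 ≤ 3 := by
      have : Real.log 8 = 3 * Real.log 2 := by
        rw [show (8 : ℝ) = 2 ^ 3 by norm_num, Real.log_pow]
        norm_num
      have h2 := Real.log_two_lt_d9
      linarith
    linarith
  have hfin := numA c₁ c₂ ℓ N K J T ((z : ℝ) ^ B) ((z : ℝ) + 1) (Real.log z) (#G) (#M') κ hc₁ hc₂ hℓ4
    hℓc hNr0 hK0 hJ0 hKNr hTdef hT (Nat.cast_nonneg _) hcard (one_le_pow₀ (by linarith)) hDF hlz
    (by
      rw [hℓ]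
      exact Real.log_le_log (by linarith) (hzT.trans hTN)) hkey
  refine hfin.trans ?_
  apply mul_le_mul_of_nonneg_left _ hNr0.le
  apply Real.rpow_le_rpow_of_exponent_le (by linarith)
  have := min_le_right δ θ
  linarith

end PoolLS
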