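import Mathlib
import Pool.Agent.Work.MP_c971ef_nt.LS.B

set_option autoImplicit false

/-!
Module PaB (size S, a port). `PoolLS.partB` for an arbitrary index set: copy the proof of `partB` (LS/B.lean); the first line
`obtain ⟨κ, R, δ, c₀, hδ, hc₀, N₁, hidx⟩ := index_set L` is replaced by the hypotheses.
-/

namespace PoolLS

open Finset

open Classical in
theorem partB_of (L κ R : ℕ) (δ c₀ : ℝ) (hδ : 0 < δ) (hc₀ : 0 < c₀) (N₁ : ℕ)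
    (hidx : ∀ X : ℕ, N₁ ≤ X → ∃ M : Finset ℕ, M ⊆ Icc 1 X ∧ (∀ m ∈ M, Ind L R ((X : ℝ) ^ δ) m) ∧
      c₀ * (X / (Real.log X) ^ κ) ≤ (#M : ℝ)) :
    ∃ (C : ℕ) (c : ℝ) (N₀ : ℕ), 0 < c ∧ ∀ N K J : ℕ, N₀ ≤ N → K ≤ N → J ≤ N →
    (Real.log N) ^ C ≤ (K : ℝ) * J / N →
    c * (N * (Real.log ((K : ℝ) * J / N) / Real.log N)) ≤
    (#((Ioc N (8 * N)).filter (fun n => ∃ k j : ℕ, (K : ℝ) / (Real.log N) ^ C ≤ k ∧ k ≤ K ∧ j ≤ J ∧
      (2 * k + 1).Prime ∧ Ind L R ((N : ℝ) ^ c) (k * n + j))) : ℝ) := by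
  obtain ⟨B, c₂, C₂, hc₂, hC₂, hw⟩ := weights
  obtain ⟨c₃, Y₀, hc₃, hklow⟩ := klow
  obtain ⟨c₁, hc₁, hc₁1, hc₁0⟩ : ∃ c₁ : ℝ, 0 < c₁ ∧ c₁ ≤ 1 ∧ c₁ ≤ c₀ :=
    ⟨min c₀ 1, lt_min hc₀ one_pos, min_le_right _ _, min_le_left _ _⟩
  obtain ⟨θ, hθ⟩ : ∃ θ : ℝ, θ = 1 / (16 * (B + 1)) := ⟨_, rfl⟩
  have hθ0 : 0 < θ := by rw [hθ]; positivity
  obtain ⟨a₁, ha₁⟩ : ∃ a : ℝ, a = (4 : ℝ) ^ (8 * (B + 1)) := ⟨_, rfl⟩
  obtain ⟨a₂, ha₂⟩ : ∃ a : ℝ, a = 800 * 2 ^ κ / c₁ := ⟨_, rfl⟩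
  obtain ⟨a₃, ha₃⟩ : ∃ a : ℝ, a = 2 ^ (κ + 13) * (1 / (c₁ * c₃ ^ 2)) := ⟨_, rfl⟩
  obtain ⟨a₄, ha₄⟩ : ∃ a : ℝ, a = 2 ^ (2 * κ + 29) * (1 / (c₁ ^ 2 * c₃ ^ 2)) := ⟨_, rfl⟩
  have hp1 : 0 < a₁ := by rw [ha₁]; positivity
  have hp2 : 0 < a₂ := by rw [ha₂]; positivity
  have hp3 : 0 < a₃ := by rw [ha₃]; positivity
  have hp4 : 0 < a₄ := by rw [ha₄]; positivity
  have hp5 : (0 : ℝ) ≤ Y₀ := Nat.cast_nonneg _
  obtain ⟨N₂, hN₂⟩ := Filter.eventually_atTop.1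
    ((Real.tendsto_log_atTop.comp tendsto_natCast_atTop_atTop).eventually_ge_atTop
      (a₁ + a₂ + a₃ + a₄ + Y₀ + 4))
  obtain ⟨c, hcpos, hcδ, hcf⟩ : ∃ c : ℝ, 0 < c ∧ c ≤ δ ∧ c ≤ c₃ * θ / (4 * C₂) :=
    ⟨min δ (c₃ * θ / (4 * C₂)), lt_min hδ (by positivity), min_le_left _ _, min_le_right _ _⟩
  refine ⟨4 * κ + 12, c, max N₁ (max N₂ 2), hcpos, ?_⟩
  intro N K J hN hKN hJN hT
  simp only [max_le_iff] at hN
  obtain ⟨hN1, hN2, hN3⟩ := hN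
  have hℓA : a₁ + a₂ + a₃ + a₄ + Y₀ + 4 ≤ Real.log N := hN₂ N hN2
  obtain ⟨ℓ, hℓ⟩ : ∃ ℓ : ℝ, ℓ = Real.log N := ⟨_, rfl⟩
  rw [← hℓ] at hℓA hT ⊢
  have hℓ4 : 4 ≤ ℓ := by linarith
  have hℓ1 : 1 ≤ ℓ := by linarith
  have hℓ0 : 0 < ℓ := by linarith
  have hNr : (2 : ℝ) ≤ N := by exact_mod_cast hN3
  have hNr0 : (0 : ℝ) < N := by linarith
  have hKNr : (K : ℝ) ≤ N := by exact_mod_cast hKN
  have hJNr : (J : ℝ) ≤ N := by exact_mod_cast hJN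
  obtain ⟨T, hTdef⟩ : ∃ T : ℝ, T = (K : ℝ) * J / N := ⟨_, rfl⟩
  rw [← hTdef] at hT ⊢
  have hTpos : 0 < T := lt_of_lt_of_le (by positivity) hT
  have hpow : ∀ e : ℕ, e ≤ 4 * κ + 12 → ℓ ^ e ≤ T := fun e he =>
    le_trans (pow_le_pow_right₀ hℓ1 he) hT
  have hTℓ1 : ℓ ≤ T := by simpa using hpow 1 (by omega)
  have hK0 : (0 : ℝ) < K := by
    by_contra h
    have h0 : (K : ℝ) = 0 := le_antisymm (not_lt.1 h) (Nat.cast_nonneg K)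
    rw [hTdef, h0, zero_mul, zero_div] at hTpos
    exact lt_irrefl _ hTpos
  have hJ0 : (0 : ℝ) < J := by
    by_contra h
    have h0 : (J : ℝ) = 0 := le_antisymm (not_lt.1 h) (Nat.cast_nonneg J)
    rw [hTdef, h0, mul_zero, zero_div] at hTpos
    exact lt_irrefl _ hTpos
  have hK1 : 1 ≤ K := by exact_mod_cast hK0
  have hTK : T ≤ K := by
    rw [hTdef, div_le_iff₀ hNr0]
    exact mul_le_mul_of_nonneg_left hJNr hK0.le
  have hTJ : T ≤ J := by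
    rw [hTdef, div_le_iff₀ hNr0]
    calc (K : ℝ) * J ≤ N * J := mul_le_mul_of_nonneg_right hKNr hJ0.le
      _ = J * N := mul_comm _ _
  have hTN : T ≤ N := hTK.trans hKNr
  obtain ⟨s, hs0, hss, hTs, hTh, hηs, hs800, hη0, hη1⟩ := numS κ c₁ ℓ K T hc₁ hc₁1 hℓ4
    (by rw [← ha₂]; linarith) hT hTK
  obtain ⟨z, hz3, hzT, hTz, hDF, hzBT⟩ := choice B T (by rw [← ha₁]; linarith)
  rw [← hθ] at hTz
  have hzr : (3 : ℝ) ≤ z := by exact_mod_cast hz3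
  have hzs : (z : ℝ) ≤ 4 * s := by
    have h1 : (z : ℝ) ≤ ((z : ℝ) ^ B) ^ 4 * ((z : ℝ) + 1) ^ 2 := by
      have h2 : (1 : ℝ) ≤ ((z : ℝ) ^ B) ^ 4 := one_le_pow₀ (one_le_pow₀ (by linarith))
      have h3 : (z : ℝ) ≤ ((z : ℝ) + 1) ^ 2 := by nlinarith
      calc (z : ℝ) = 1 * z := (one_mul _).symm
        _ ≤ ((z : ℝ) ^ B) ^ 4 * ((z : ℝ) + 1) ^ 2 := mul_le_mul h2 h3 (by linarith) (by linarith)
    linarith
  obtain ⟨fp, fm, hF, hsupp, hfp, -, hmean, -⟩ := hw z hz3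
  have hcN : (N : ℝ) ^ c ≤ ((K * N : ℕ) : ℝ) ^ δ := pow_cmp N K c δ (by omega) hK1 hcδ hδ
  have hKN0 : N₁ ≤ K * N := hN1.trans (Nat.le_mul_of_pos_left _ hK1)
  obtain ⟨M, hM, hMind, hMcard⟩ := hidx (K * N) hKN0
  have hcardM := card_low κ N K c₀ c₁ ℓ hc₀ hc₁0 hℓ hN3 hK1 hKN M hMcard
  have hηKN : 800 * s * N ≤ c₁ / (2 * ℓ) ^ κ * ((K * N : ℕ) : ℝ) := by
    push_cast
    rw [← hss]
    have h1 : 800 * (s * N) ≤ c₁ / (2 * ℓ) ^ κ * s * (s * N) :=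
      mul_le_mul_of_nonneg_right hηs (by positivity)
    linarith
  obtain ⟨X, hXK, hXl, hWc⟩ := pig (K * N) (c₁ / (2 * ℓ) ^ κ) hη0 hη1 (by nlinarith) M hM hcardM
  have hXN : 100 * s * N ≤ X := by linarith
  obtain ⟨Y, hY⟩ : ∃ Y : ℕ, Y = (X - N) / (2 * N) := ⟨_, rfl⟩
  obtain ⟨hYs, hYK, hYX, hX3⟩ := geo N X K Y s (by omega) hY hs800 hXN hXK
  have hYpos : 1 ≤ Y := by
    have : (1 : ℝ) ≤ Y := by linarith
    exact_mod_cast this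
  have hY0 : Y₀ ≤ Y := by
    have h1 : (Y₀ : ℝ) ≤ Y := by
      have h2 : ℓ ≤ s := by
        refine le_trans ?_ (hTh.trans hTs)
        exact le_self_pow₀ hℓ1 (by omega)
      linarith
    exact_mod_cast h1
  have hYKr : 2 * (Y : ℝ) ≤ K := by exact_mod_cast hYK
  have hμ : c₃ / ℓ ≤ ∑ k ∈ (Ioc Y (2 * Y)).filter (fun k => (2 * k + 1).Prime), 1 / (k : ℝ) := by
    refine le_trans ?_ (hklow Y hY0)
    apply div_le_div_of_nonneg_left hc₃.le (Real.log_pos (by linarith))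
    rw [hℓ]
    exact Real.log_le_log (by linarith) (by linarith)
  have hE : ∀ k : ℕ, Y < k → (K : ℝ) / ℓ ^ (4 * κ + 12) ≤ k := by
    intro k hk
    have h1 : X - N < 2 * N * (Y + 1) := by
      rw [hY]
      exact Nat.lt_mul_div_succ _ (by omega)
    have h2 : 2 * N * (Y + 1) ≤ 2 * N * k := Nat.mul_le_mul_left _ hk
    have h3 : 2 * X ≤ 6 * N * k := by
      have : 6 * N * k = 3 * (2 * N * k) := by ring
      omega
    have h4 : 2 * (X : ℝ) ≤ 6 * N * k := by exact_mod_cast h3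
    push_cast at hXl
    have h5 : c₁ / (24 * (2 * ℓ) ^ κ) * K ≤ k := by
      have h6 : c₁ / (24 * (2 * ℓ) ^ κ) * K * (3 * N) = c₁ / (2 * ℓ) ^ κ * (K * N) / 8 := by
        field_simp
        ring
      have h7 : c₁ / (24 * (2 * ℓ) ^ κ) * K * (3 * N) ≤ k * (3 * N) := by linarith
      exact le_of_mul_le_mul_right h7 (by positivity)
    refine le_trans ?_ h5
    rw [div_mul_eq_mul_div, div_le_div_iff₀ (by positivity) (by positivity)]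
    have h8 : 24 * (2 * ℓ) ^ κ ≤ c₁ * ℓ ^ (4 * κ + 12) := by
      have h9 : a₂ * ℓ ^ κ ≤ ℓ ^ (κ + 1) := by
        calc a₂ * ℓ ^ κ ≤ ℓ * ℓ ^ κ := mul_le_mul_of_nonneg_right (by linarith) (by positivity)
          _ = ℓ ^ (κ + 1) := by ring
      have h10 : 800 * (2 : ℝ) ^ κ * ℓ ^ κ ≤ c₁ * ℓ ^ (κ + 1) := by
        have h11 := mul_le_mul_of_nonneg_left h9 hc₁.le
        have h12 : c₁ * (a₂ * ℓ ^ κ) = 800 * 2 ^ κ * ℓ ^ κ := by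
          rw [ha₂]
          field_simp
        linarith
      have h11 : ℓ ^ (κ + 1) ≤ ℓ ^ (4 * κ + 12) := pow_le_pow_right₀ hℓ1 (by omega)
      have h12 := mul_le_mul_of_nonneg_left h11 hc₁.le
      have h13 : 0 ≤ (2 : ℝ) ^ κ * ℓ ^ κ := by positivity
      rw [mul_pow]
      linarith
    calc (K : ℝ) * (24 * (2 * ℓ) ^ κ) ≤ K * (c₁ * ℓ ^ (4 * κ + 12)) :=
          mul_le_mul_of_nonneg_left h8 hK0.le
      _ = c₁ * K * ℓ ^ (4 * κ + 12) := by ring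
  have hgm := good_mem L R N K J X Y (((K * N : ℕ) : ℝ) ^ δ) ((N : ℝ) ^ c) _ (by omega) hJN hX3 hY hYK
    hE hcN M hMind
  have hkey := compare N J X Y z (z ^ B) κ K c₁ c₃ ℓ T _ _ _ _ fp (by omega) hℓ hℓ4 hc₁ hc₃ hJ0 hK0
    hKNr hTdef (by nlinarith) hYpos hYKr hYX (by exact_mod_cast hXK) (by
      rw [← ha₃]
      calc a₃ * ℓ ^ (κ + 3) ≤ ℓ * ℓ ^ (κ + 3) :=
            mul_le_mul_of_nonneg_right (by linarith) (by positivity)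
        _ = ℓ ^ (κ + 4) := by ring
        _ ≤ T := hpow _ (by omega)
        _ ≤ J := hTJ) (by
      rw [← ha₄]
      calc a₄ * ℓ ^ (2 * κ + 3) ≤ ℓ * ℓ ^ (2 * κ + 3) :=
            mul_le_mul_of_nonneg_right (by linarith) (by positivity)
        _ = ℓ ^ (2 * κ + 4) := by ring
        _ ≤ ℓ ^ (2 * κ + 6) := pow_le_pow_right₀ hℓ1 (by omega)
        _ ≤ _ := hTh) (by
      have h1 := hXl
      push_cast at h1
      exact h1) hWc (Nat.one_le_pow _ _ (by omega)) (by push_cast; exact hzBT.trans hTN)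
    (by push_cast; exact hDF) (fun d => (hF d).1) (fun d hd => hsupp d (Or.inl hd))
    (fun k => (hfp k).1) (fun k => (hfp k).2) (by
      have : (z : ℝ) ≤ 2 * Y + 1 := by linarith
      exact_mod_cast this) (filter_subset _ _) (fun k hk => (mem_filter.1 hk).2) rfl hμ
    (filter_subset _ _) (by
      intro m hm
      rw [mem_filter] at hm
      rw [mem_Ico]
      omega) (by
      intro m hm
      rw [mem_filter] at hm
      omega) hgm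
  set G := (Ioc N (8 * N)).filter (fun n => ∃ k j : ℕ, (K : ℝ) / ℓ ^ (4 * κ + 12) ≤ k ∧ k ≤ K ∧
        j ≤ J ∧ (2 * k + 1).Prime ∧ Ind L R ((N : ℝ) ^ c) (k * n + j)) with hG
  have hsum := sum_inv_le N (by omega) G (filter_subset _ _)
  have hsum0 : 0 ≤ ∑ n ∈ G, 1 / (n : ℝ) := sum_nonneg fun n _ => by positivity
  have hlz : 0 < Real.log z := Real.log_pos (by linarith)
  have hkey2 : c₃ / (4 * ℓ) ≤ C₂ / Real.log z * (#G / N) := by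
    refine hkey.trans ?_
    calc mw z fp * ∑ n ∈ G, 1 / (n : ℝ) ≤ C₂ / Real.log z * ∑ n ∈ G, 1 / (n : ℝ) :=
          mul_le_mul_of_nonneg_right hmean hsum0
      _ ≤ _ := mul_le_mul_of_nonneg_left hsum (by positivity)
  have hlogz : θ * Real.log T ≤ Real.log z := by
    rw [← Real.log_rpow hTpos]
    exact Real.log_le_log (Real.rpow_pos_of_pos hTpos _) hTz
  have hlT : 0 ≤ Real.log T := Real.log_nonneg (by linarith)
  exact numC c₃ C₂ θ ℓ N T z (#G) c hℓ0 hC₂ hNr0 hlz hlT hlogz hc₃ hcf hkey2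

end PoolLS
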