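import Mathlib
import Pool.Agent.Work.MP_73869e_nt.P5.Defs
import Pool.Agent.Work.MP_70e905_nt.MT.Defs

set_option autoImplicit false

/-!
MP_c971ef_nt, block R5 (primes `p` with `p ^ 2 - 2 = P_5` and `P_(5+C)`, indices): definitions. FIXED.

The weights `ph k N T`, the exponents `zE = 19/100`, `yE = 9/20`, `lam5 = 13/20`, `wt5` are those of
MP_73869e_nt/P5 (linear sieve of level `N ^ (495/1000)` with Richert's weights).
-/

namespace Pool.Agent.Work.MP_c971ef_nt.R5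

open Finset Pool.Agent.Work.MP_2dba45_nt.Sv
open Pool.Agent.Work.MP_73869e_nt.P5 (zE yE lam5 wt5 ph)

/-- the primes modulo which `2` is a nonzero square -/
def Sp (p : ℕ) : Prop := p.Prime ∧ (p % 8 = 1 ∨ p % 8 = 7)

instance : DecidablePred Sp := fun p => by
  unfold Sp
  infer_instance

/-- density of `p ∣ n ^ 2 - 2` for integers `n` -/
noncomputable def ho (p : ℕ) : ℝ := if Sp p then 2 / (p : ℝ) else 0

/-- density of `p ∣ n ^ 2 - 2` for primes `n` -/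
noncomputable def hp (p : ℕ) : ℝ := if Sp p then 2 / ((p : ℝ) - 1) else 0

/-- its multiplicative extension -/
noncomputable def hh (S : Finset ℕ) : ℝ := ∏ p ∈ S, hp p

/-- the primes in `(N, 2 N]` -/
def PN (N : ℕ) : Finset ℕ := (Ioc N (2 * N)).filter Nat.Prime

/-- the primes `n` of `PN N` such that all elements of `S` divide `n ^ 2 - 2` -/
def AN (N : ℕ) (S : Finset ℕ) : Finset ℕ := (PN N).filter (fun n => ∀ p ∈ S, p ∣ n ^ 2 - 2)

/-- the primes below `N` -/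
def PR (N : ℕ) : Finset ℕ := (range N).filter Nat.Prime

/-- the primes of the preliminary sieve -/
noncomputable def Zs (δ : ℝ) (N : ℕ) : Finset ℕ := (range (pw N δ)).filter Sp

open Classical in
/-- the primes allowed as small prime factors -/
noncomputable def Zw (δ : ℝ) (N : ℕ) : Finset ℕ :=
  (Zs δ N).filter (fun p : ℕ => (Real.log N) ^ 10 ≤ (p : ℝ))

/-- sets of `C` small prime factors -/
noncomputable def ES (C : ℕ) (δ : ℝ) (N : ℕ) : Finset (Finset ℕ) := (Zw δ N).powersetCard C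

/-- Brun-Hooley weights for the primes of `Zs δ N` outside of `E` -/
structure Wts (δ : ℝ) (b N : ℕ) (E : Finset ℕ) (lp dp : Finset ℕ → ℝ) : Prop where
  lp_le : ∀ d, |lp d| ≤ 1
  dp_le : ∀ d, |dp d| ≤ #d
  supp : ∀ d, lp d ≠ 0 ∨ dp d ≠ 0 →
    d ⊆ Zs δ N \ E ∧ ((∏ p ∈ d, p : ℕ) : ℝ) ≤ (pw N δ : ℝ) ^ (4 * b + 10)
  low : ∀ B ⊆ Zs δ N \ E, (if B = ∅ then (1 : ℝ) else 0) ≤ ∑ d ∈ B.powerset, lp d
  up : ∀ B ⊆ Zs δ N \ E,
    ∑ d ∈ B.powerset, lp d - (if B = ∅ then (1 : ℝ) else 0) ≤ ∑ d ∈ B.powerset, dp d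
  main : ∏ p ∈ Zs δ N \ E, (1 - hp p) ≤ ∑ d ∈ (Zs δ N \ E).powerset, lp d * hh d
  err : ∑ d ∈ (Zs δ N \ E).powerset, dp d * hh d ≤
    Real.exp (-b) * ∏ p ∈ Zs δ N \ E, (1 - hp p)

/-- the sum of the weights `ph` over the sets of large primes dividing `m` -/
noncomputable def Wn (δ : ℝ) (k N m : ℕ) : ℝ :=
  ∑ T ∈ ((PQ (pw N δ) N).filter (fun p => p ∣ m)).powerset, ph k N T

/-- success of the weighted sieve at `m` -/
def Gm (δ : ℝ) (k N m : ℕ) : Prop :=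
  (∀ p ∈ PQ (pw N δ) N, p < pw N zE → ¬ p ∣ m) ∧
    lam5 * ∑ p ∈ (PQ (pw N δ) N).filter (fun p => pw N zE ≤ p ∧ p < pw N yE ∧ p ∣ m),
      wt5 k (cost (1000 * k) N p) < 1

open Classical in
/-- the primes `n` for which the small prime factors of `n ^ 2 - 2` are the elements of `E` and the
weighted sieve is successful -/
noncomputable def Gn (δ : ℝ) (k N : ℕ) (E : Finset ℕ) : Finset ℕ :=
  (AN N E).filter (fun n => (∀ p ∈ Zs δ N \ E, ¬ p ∣ n ^ 2 - 2) ∧ Gm δ k N (n ^ 2 - 2))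

/-- `n ^ 2 - 2` is the product of `C` different primes and of a number with at most five prime factors, all
at least `N ^ (19/100)` -/
def G5 (C N n : ℕ) : Prop :=
  ∃ (E : Finset ℕ) (M : ℕ), #E = C ∧ (∀ p ∈ E, p.Prime) ∧ n ^ 2 - 2 = (∏ p ∈ E, p) * M ∧
    ArithmeticFunction.cardFactors M ≤ 5 ∧
    ∀ r : ℕ, r.Prime → r ∣ M → (N : ℝ) ^ ((19 : ℝ) / 100) ≤ r

end Pool.Agent.Work.MP_c971ef_nt.R5
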