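import Mathlib
import Pool.Agent.Work.MP_c971ef_nt.R5.Defs
import Pool.Agent.Work.MP_2dba45_nt.Sv.WWEq
import Pool.Agent.Work.MP_2dba45_nt.Sv.Wt
import Pool.Agent.Work.MP_2dba45_nt.Sv.Box

set_option autoImplicit false

/-!
Module PtM (size S-M, a port). Pointwise bound of the weighted sum: copy the private theorem `wv_le` of
MP_73869e_nt/P5/Pt5.lean with P = PQ (pw N δ) N and `m` instead of `n ^ 2 + k` (`Wn` is already the sum over
the subsets of the set of the p in P dividing m). m is an arbitrary natural number.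
-/

namespace Pool.Agent.Work.MP_c971ef_nt.R5

open Finset

open Pool.Agent.Work.MP_2dba45_nt.Sv (pw cost PQ)
open Pool.Agent.Work.MP_73869e_nt.P5 (zE yE lam5 wt5 ph)

theorem Wn_le (δ : ℝ) (k N m : ℕ) (hN : 2 ≤ N) (hk : 1 ≤ k) :
    Wn δ k N m ≤ 1 ∧ (¬ Gm δ k N m → Wn δ k N m ≤ 0) := by
  classical
  have hκ0 : (0 : ℝ) < k := by exact_mod_cast hk
  have hlam : (0 : ℝ) ≤ lam5 := by unfold lam5; norm_num
  obtain ⟨P, hP⟩ : ∃ P, P = PQ (pw N δ) N := ⟨_, rfl⟩
  have hPp : ∀ p ∈ P, 1 ≤ p := by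
    intro p hp
    rw [hP] at hp
    unfold PQ at hp
    exact (Finset.mem_filter.1 hp).2.pos
  have hz : ∀ p ∈ P, (p < pw N zE ↔ cost (1000 * k) N p ≤ 190 * k) := by
    intro p hp
    rw [← Pool.Agent.Work.MP_2dba45_nt.Sv.lt_pw_iff_cost (1000 * k) N p (190 * k) (by omega) hN
      (hPp p hp)]
    have h1 : zE = ((190 * k : ℕ) : ℝ) / ((1000 * k : ℕ) : ℝ) := by
      unfold zE
      push_cast
      field_simp
      norm_num
    rw [h1]
  have hy : ∀ p ∈ P, (p < pw N yE ↔ cost (1000 * k) N p ≤ 450 * k) := by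
    intro p hp
    rw [← Pool.Agent.Work.MP_2dba45_nt.Sv.lt_pw_iff_cost (1000 * k) N p (450 * k) (by omega) hN
      (hPp p hp)]
    have h1 : yE = ((450 * k : ℕ) : ℝ) / ((1000 * k : ℕ) : ℝ) := by
      unfold yE
      push_cast
      field_simp
      norm_num
    rw [h1]
  have hN1 : (1 : ℝ) ≤ N := by exact_mod_cast (by omega : 1 ≤ N)
  have hzy : pw N zE ≤ pw N yE := by
    unfold pw
    apply Nat.ceil_mono
    apply Real.rpow_le_rpow_of_exponent_le hN1
    unfold zE yE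
    norm_num
  have hw : ∀ p ∈ P, p < pw N yE → 0 ≤ wt5 k (cost (1000 * k) N p) := by
    intro p hp hpy
    have h2 := (hy p hp).1 hpy
    have h3 : ((cost (1000 * k) N p : ℕ) : ℝ) ≤ 450 * k := by exact_mod_cast h2
    unfold wt5
    have h4 : ((cost (1000 * k) N p : ℝ) - 1) / (450 * k) ≤ 1 := by
      rw [div_le_one (by positivity)]
      linarith
    linarith
  obtain ⟨B, hB⟩ : ∃ B, B = P.filter (fun p => p ∣ m) := ⟨_, rfl⟩
  have hBm : ∀ p ∈ P, (p ∈ B ↔ p ∣ m) := by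
    intro p hp
    rw [hB, Finset.mem_filter]
    exact ⟨fun h => h.2, fun h => ⟨hp, h⟩⟩
  have hwv : Wn δ k N m = Pool.Agent.Work.MP_2dba45_nt.Sv.WW P (cost (1000 * k) N) (pw N zE)
      (pw N yE) (495 * k) (wt5 k) lam5 (fun T => if T ⊆ B then 1 else 0) := by
    rw [Pool.Agent.Work.MP_2dba45_nt.Sv.WW_eq P (cost (1000 * k) N) (pw N zE) (pw N yE)
      (495 * k) (wt5 k) lam5 (190 * k) (450 * k) hz hy hzy]
    have h0 : Wn δ k N m = ∑ T ∈ P.powerset, if T ⊆ B then ph k N T else 0 := by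
      unfold Wn
      rw [← hP, ← hB, ← Finset.sum_filter]
      refine Finset.sum_congr ?_ fun _ _ => rfl
      ext T
      simp only [Finset.mem_filter, Finset.mem_powerset]
      constructor
      · intro h
        refine ⟨?_, h⟩
        rw [hB] at h
        exact h.trans (Finset.filter_subset _ _)
      · exact fun h => h.2
    rw [h0]
    refine Finset.sum_congr rfl fun T hT => ?_
    unfold ph
    by_cases h2 : T ⊆ B
    · rw [if_pos h2, if_pos h2, mul_one]
    · rw [if_neg h2, if_neg h2, mul_zero]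
  have hle := Pool.Agent.Work.MP_2dba45_nt.Sv.wt_WW_le P (cost (1000 * k) N) (pw N zE)
    (pw N yE) (495 * k) (wt5 k) lam5 hlam B hw
  rw [← hwv] at hle
  have hsum : ∑ p ∈ P.filter (fun p => pw N zE ≤ p ∧ p < pw N yE),
      (if p ∈ B then wt5 k (cost (1000 * k) N p) else 0) =
      ∑ p ∈ P.filter (fun p => pw N zE ≤ p ∧ p < pw N yE ∧ p ∣ m),
        wt5 k (cost (1000 * k) N p) := by
    rw [← Finset.sum_filter, Finset.filter_filter]
    refine Finset.sum_congr ?_ fun _ _ => rfl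
    ext p
    simp only [Finset.mem_filter]
    constructor
    · rintro ⟨h1, ⟨h2, h3⟩, h4⟩
      exact ⟨h1, h2, h3, (hBm p h1).1 h4⟩
    · rintro ⟨h1, h2, h3, h4⟩
      exact ⟨h1, ⟨h2, h3⟩, (hBm p h1).2 h4⟩
  have hnn : 0 ≤ ∑ p ∈ P.filter (fun p => pw N zE ≤ p ∧ p < pw N yE ∧ p ∣ m),
      wt5 k (cost (1000 * k) N p) := by
    refine Finset.sum_nonneg fun p hp => ?_
    rw [Finset.mem_filter] at hp
    exact hw p hp.1 hp.2.2.1
  rw [hsum] at hle
  have hnn' := mul_nonneg hlam hnn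
  unfold Gm
  rw [← hP]
  by_cases hI : ∀ p ∈ P, p < pw N zE → p ∉ B
  · rw [if_pos hI, one_mul] at hle
    refine ⟨by linarith, fun hnot => ?_⟩
    have h1 : ¬ (lam5 * ∑ p ∈ P.filter (fun p => pw N zE ≤ p ∧ p < pw N yE ∧ p ∣ m),
        wt5 k (cost (1000 * k) N p) < 1) := by
      intro h
      apply hnot
      refine ⟨fun p hp hpz hd => ?_, h⟩
      exact hI p hp hpz ((hBm p hp).2 hd)
    linarith
  · rw [if_neg hI, zero_mul] at hle
    exact ⟨by linarith, fun _ => hle⟩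

end Pool.Agent.Work.MP_c971ef_nt.R5
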