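import Mathlib
import Pool.Agent.Work.MP_c971ef_nt.R5.PtM

set_option autoImplicit false

/-!
Module LowS (size M). Lower bound for #(Gn δ k N E) by sums over divisors. Write P = PQ (pw N δ) N, Z = Zs δ N \ E.
#(AN N (E ∪ d ∪ T)) = sum over n in AN N E of [all p in d divide n^2-2] [all p in T divide n^2-2]. Exchange the sums. For n in AN N E
put m = n^2 - 2, B = the p in Z dividing m, B' = the p in P dividing m: θ = sum of lp d over d ⊆ B, D = sum of dp d over d ⊆ B,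
W = Wn δ k N m = sum of ph over T ⊆ B', A = sum of |ph| over T ⊆ B' (≥ |W|). The left side is the sum over n of θ W - D A. Claim:
θ W - D A ≤ (1 if n in Gn, else 0).
B = ∅: θ = lp ∅ ≤ 1 (`lp_le`) and θ ≥ 1 (`low`), D = dp ∅ = 0 (`dp_le`, #∅ = 0): the left side is W, which is ≤ 1, and ≤ 0
if not Gm (`Wn_le`); for B = ∅, n in Gn iff Gm. B ≠ ∅: 0 ≤ θ ≤ D (`low`, `up`), so θ W ≤ θ |W| ≤ D A.
-/

namespace Pool.Agent.Work.MP_c971ef_nt.R5

open Finset Pool.Agent.Work.MP_2dba45_nt.Sv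
open Pool.Agent.Work.MP_73869e_nt.P5 (ph)

private theorem ls_card (N : ℕ) (E Z P d T : Finset ℕ) (hd : d ⊆ Z) (hT : T ⊆ P) :
    (#(AN N (E ∪ d ∪ T)) : ℝ) = ∑ n ∈ AN N E,
      (if d ⊆ Z.filter (fun p => p ∣ n ^ 2 - 2) then (1 : ℝ) else 0) *
        (if T ⊆ P.filter (fun p => p ∣ n ^ 2 - 2) then (1 : ℝ) else 0) := by
  have h1 : AN N (E ∪ d ∪ T) = (AN N E).filter (fun n =>
      d ⊆ Z.filter (fun p => p ∣ n ^ 2 - 2) ∧ T ⊆ P.filter (fun p => p ∣ n ^ 2 - 2)) := by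
    ext n
    unfold AN
    simp only [mem_filter, mem_union]
    constructor
    · rintro ⟨h2, h3⟩
      refine ⟨⟨h2, fun p hp => h3 p (Or.inl (Or.inl hp))⟩, fun p hp => ?_, fun p hp => ?_⟩
      · exact mem_filter.2 ⟨hd hp, h3 p (Or.inl (Or.inr hp))⟩
      · exact mem_filter.2 ⟨hT hp, h3 p (Or.inr hp)⟩
    · rintro ⟨⟨h2, h3⟩, h4, h5⟩
      refine ⟨h2, fun p hp => ?_⟩
      rcases hp with (hp | hp) | hp
      · exact h3 p hp
      · exact (mem_filter.1 (h4 hp)).2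
      · exact (mem_filter.1 (h5 hp)).2
  rw [h1, card_filter]
  push_cast
  refine sum_congr rfl fun n _ => ?_
  by_cases h2 : d ⊆ Z.filter (fun p => p ∣ n ^ 2 - 2)
  · by_cases h3 : T ⊆ P.filter (fun p => p ∣ n ^ 2 - 2)
    · rw [if_pos ⟨h2, h3⟩, if_pos h2, if_pos h3, one_mul]
    · rw [if_neg (fun h => h3 h.2), if_neg h3, mul_zero]
  · rw [if_neg (fun h => h2 h.1), if_neg h2, zero_mul]

private theorem ls_sub (Z B : Finset ℕ) (hB : B ⊆ Z) (f : Finset ℕ → ℝ) :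
    ∑ d ∈ Z.powerset, f d * (if d ⊆ B then (1 : ℝ) else 0) = ∑ d ∈ B.powerset, f d := by
  have h1 : B.powerset = Z.powerset.filter (fun d => d ⊆ B) := by
    ext d
    rw [mem_filter, mem_powerset, mem_powerset]
    exact ⟨fun h => ⟨h.trans hB, h⟩, fun h => h.2⟩
  rw [h1, sum_filter]
  refine sum_congr rfl fun d _ => ?_
  split_ifs
  · rw [mul_one]
  · rw [mul_zero]

private theorem ls_exch (N : ℕ) (E Z P : Finset ℕ) (f g : Finset ℕ → ℝ) :
    ∑ d ∈ Z.powerset, ∑ T ∈ P.powerset, f d * g T * (#(AN N (E ∪ d ∪ T)) : ℝ) =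
      ∑ n ∈ AN N E, (∑ d ∈ (Z.filter (fun p => p ∣ n ^ 2 - 2)).powerset, f d) *
        ∑ T ∈ (P.filter (fun p => p ∣ n ^ 2 - 2)).powerset, g T := by
  have h1 : ∀ d ∈ Z.powerset, ∀ T ∈ P.powerset, f d * g T * (#(AN N (E ∪ d ∪ T)) : ℝ) =
      ∑ n ∈ AN N E, (f d * (if d ⊆ Z.filter (fun p => p ∣ n ^ 2 - 2) then (1 : ℝ) else 0)) *
        (g T * (if T ⊆ P.filter (fun p => p ∣ n ^ 2 - 2) then (1 : ℝ) else 0)) := by
    intro d hd T hT
    rw [ls_card N E Z P d T (mem_powerset.1 hd) (mem_powerset.1 hT), mul_sum]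
    refine sum_congr rfl fun n _ => ?_
    ring
  rw [sum_congr rfl fun d hd => sum_congr rfl fun T hT => h1 d hd T hT]
  rw [sum_congr rfl fun d _ => sum_comm]
  rw [sum_comm]
  refine sum_congr rfl fun n _ => ?_
  rw [← ls_sub Z _ (filter_subset _ _) f, ← ls_sub P _ (filter_subset _ _) g, sum_mul_sum]

theorem low_sum (δ : ℝ) (b k N : ℕ) (hN : 2 ≤ N) (hk : 1 ≤ k) (E : Finset ℕ)
    (lp dp : Finset ℕ → ℝ) (hW : Wts δ b N E lp dp) :
    ∑ d ∈ (Zs δ N \ E).powerset, ∑ T ∈ (PQ (pw N δ) N).powerset,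
        lp d * ph k N T * (#(AN N (E ∪ d ∪ T)) : ℝ) -
      ∑ d ∈ (Zs δ N \ E).powerset, ∑ T ∈ (PQ (pw N δ) N).powerset,
        dp d * |ph k N T| * (#(AN N (E ∪ d ∪ T)) : ℝ) ≤ #(Gn δ k N E) := by
  classical
  rw [ls_exch N E _ _ lp (ph k N), ls_exch N E _ _ dp (fun T => |ph k N T|), ← sum_sub_distrib]
  have h0 : (#(Gn δ k N E) : ℝ) = ∑ n ∈ AN N E,
      if (∀ p ∈ Zs δ N \ E, ¬ p ∣ n ^ 2 - 2) ∧ Gm δ k N (n ^ 2 - 2) then (1 : ℝ) else 0 := by
    have h1 : Gn δ k N E = (AN N E).filter (fun n => (∀ p ∈ Zs δ N \ E, ¬ p ∣ n ^ 2 - 2) ∧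
        Gm δ k N (n ^ 2 - 2)) := by
      ext n
      unfold Gn
      simp only [mem_filter]
    rw [h1, card_filter]
    push_cast
    rfl
  rw [h0]
  refine sum_le_sum fun n _ => ?_
  set B := (Zs δ N \ E).filter (fun p => p ∣ n ^ 2 - 2) with hB
  have hlow := hW.low B (filter_subset _ _)
  have hup := hW.up B (filter_subset _ _)
  have hWn := Wn_le δ k N (n ^ 2 - 2) hN hk
  have hWdef : Wn δ k N (n ^ 2 - 2) =
      ∑ T ∈ ((PQ (pw N δ) N).filter (fun p => p ∣ n ^ 2 - 2)).powerset, ph k N T := rfl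
  rw [← hWdef]
  set W := Wn δ k N (n ^ 2 - 2) with hWW
  set A := ∑ T ∈ ((PQ (pw N δ) N).filter (fun p => p ∣ n ^ 2 - 2)).powerset, |ph k N T| with hA
  have hWA : |W| ≤ A := by
    rw [hWdef, hA]
    exact Finset.abs_sum_le_sum_abs _ _
  by_cases hBe : B = ∅
  · rw [hBe] at hlow hup ⊢
    rw [if_pos rfl, powerset_empty, sum_singleton] at hlow
    rw [powerset_empty, sum_singleton, sum_singleton]
    have h1 := hW.lp_le ∅
    have h2 := hW.dp_le ∅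
    rw [card_empty, Nat.cast_zero] at h2
    have h3 : dp ∅ = 0 := abs_eq_zero.1 (le_antisymm h2 (abs_nonneg _))
    have h4 : lp ∅ = 1 := le_antisymm (le_of_abs_le h1) hlow
    rw [h3, h4, one_mul, zero_mul, sub_zero]
    have h5 : ∀ p ∈ Zs δ N \ E, ¬ p ∣ n ^ 2 - 2 := by
      intro p hp hd
      have h6 : p ∈ B := mem_filter.2 ⟨hp, hd⟩
      rw [hBe] at h6
      exact absurd h6 (notMem_empty p)
    by_cases hG : Gm δ k N (n ^ 2 - 2)
    · rw [if_pos ⟨h5, hG⟩]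
      exact hWn.1
    · rw [if_neg (fun h => hG h.2)]
      exact hWn.2 hG
  · rw [if_neg hBe] at hlow hup
    rw [sub_zero] at hup
    have h1 : (∑ d ∈ B.powerset, lp d) * W ≤ (∑ d ∈ B.powerset, dp d) * A := by
      calc (∑ d ∈ B.powerset, lp d) * W ≤ (∑ d ∈ B.powerset, lp d) * |W| :=
            mul_le_mul_of_nonneg_left (le_abs_self W) hlow
        _ ≤ (∑ d ∈ B.powerset, lp d) * A := mul_le_mul_of_nonneg_left hWA hlow
        _ ≤ _ := mul_le_mul_of_nonneg_right hup ((abs_nonneg W).trans hWA)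
    refine le_trans (sub_nonpos.2 h1) ?_
    split_ifs
    · exact zero_le_one
    · exact le_rfl

end Pool.Agent.Work.MP_c971ef_nt.R5
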