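import Mathlib
import Pool.Agent.Work.MP_c971ef_nt.R5.Defs
import Pool.Agent.Work.MP_c971ef_nt.Chi
import Pool.Agent.Work.MP_73869e_nt.AP.MertQ
import Pool.Agent.Work.MP_73869e_nt.P5.DimQ

set_option autoImplicit false

/-!
Module DimO (size S-M, a port). `ho` is a density of dimension one.
`nn`, `le`: unfold. `law`: port of P5.dim1_gq (file MP_73869e_nt/P5/DimQ.lean): Sv.mt_psum with
`a n = if Sp n then 2 else 0` and the estimate (*) |sum over p ≤ N, Sp p, of 2 log p / p - log N| ≤ C, then as in DimQ.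
(*): port of AP.mert_q (end of AP/MertQ.lean) with the real character `χ n = (ch n : ℝ)` modulo 8 of
MP_c971ef_nt/Chi.lean (`ch_eq`, `ch_mul`): 2 [Sp p] = 1 + ch p for odd primes p, and for p = 2 the difference is
log 2 / 2. `MertQ.mertens_chiB χ 2 _ (2/5) (by norm_num) 1`: `GoodB χ 2` (mul: `ch_mul`; le: `ch_cases`; sums over
intervals: the sum over 8 consecutive integers is 0, all partial sums of the pattern 0 1 0 -1 0 -1 0 1 over intervals
are at most 2 in absolute value), and |LL χ N| ≥ 2/5 for N ≥ 1 is `sum_chi_ge` (`MertQ.LL χ N` is the sum of `χ n / n` over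
`Ioc 0 N`; the absolute value of a number ≥ 2/5).
-/

namespace Pool.Agent.Work.MP_c971ef_nt.R5

open Finset Pool.Agent.Work.MP_73869e_nt.P5

private noncomputable def xc (n : ℕ) : ℝ := (ch n : ℝ)

private theorem xc_le (n : ℕ) : |xc n| ≤ 1 := by
  unfold xc
  rcases ch_cases n with h | h | h <;> rw [h] <;> simp

private theorem ch_period (n : ℕ) : ch (n + 8) = ch n := by
  rw [ch_eq, ch_eq]
  have h1 : (n + 8) % 2 = n % 2 := by omega
  have h2 : (n + 8) % 8 = n % 8 := by omega
  rw [h1, h2]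

private theorem xc_block (a : ℕ) : ∑ n ∈ Ico a (a + 8), xc n = 0 := by
  induction a with
  | zero =>
    rw [zero_add, ← Finset.range_eq_Ico]
    simp only [Finset.sum_range_succ, Finset.sum_range_zero]
    unfold xc
    simp only [ch_eq]
    norm_num
  | succ a ih =>
    rw [Finset.sum_eq_sum_Ico_succ_bot (show a < a + 8 by omega)] at ih
    rw [show a + 1 + 8 = a + 8 + 1 by ring, Finset.sum_Ico_succ_top (by omega)]
    have : xc (a + 8) = xc a := by
      unfold xc
      rw [ch_period]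
    rw [this]
    linarith

private theorem xc_sum (a m : ℕ) (ham : a ≤ m) : |∑ j ∈ Ico a m, xc j| ≤ 8 := by
  induction hd : m - a using Nat.strong_induction_on generalizing a with
  | _ d ih =>
    rcases Nat.lt_or_ge d 8 with h | h
    · calc |∑ j ∈ Ico a m, xc j| ≤ ∑ j ∈ Ico a m, |xc j| := Finset.abs_sum_le_sum_abs _ _
        _ ≤ ∑ j ∈ Ico a m, (1 : ℝ) := Finset.sum_le_sum fun j _ => xc_le j
        _ = ((m - a : ℕ) : ℝ) := by simp
        _ ≤ 8 := by
          rw [hd]
          exact_mod_cast h.le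
    · rw [← Finset.sum_Ico_consecutive _ (show a ≤ a + 8 by omega) (show a + 8 ≤ m by omega),
        xc_block a, zero_add]
      exact ih (m - (a + 8)) (by omega) (a + 8) (by omega) rfl

private theorem good_xc : Pool.Agent.Work.MP_73869e_nt.AP.MertQ.GoodB xc 8 where
  mul m n := by
    unfold xc
    rw [ch_mul]
    push_cast
    rfl
  le := xc_le
  B1 := by norm_num
  sum := xc_sum

private theorem xc_away (N : ℕ) (hN : 1 ≤ N) :
    (2 / 5 : ℝ) ≤ |Pool.Agent.Work.MP_2dba45_nt.Mert.LL xc N| :=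
  (sum_chi_ge hN).trans (le_abs_self _)

private theorem mert_o : ∃ C : ℝ, 0 ≤ C ∧ ∀ N : ℕ, 0 < N →
    |∑ p ∈ (Ioc 0 N).filter Sp, 2 * Real.log p / p - Real.log N| ≤ C := by
  obtain ⟨C1, hC1⟩ := Pool.Agent.Work.MP_73869e_nt.AP.MertQ.mertens_chiB xc 8 good_xc (2 / 5)
    (by norm_num) 1 xc_away
  obtain ⟨C2, hC2⟩ := Pool.Agent.Work.MP_2dba45_nt.Mert.mertens_one
  have hC1' : 0 ≤ C1 := (abs_nonneg _).trans (hC1 1)
  have hC2' : 0 ≤ C2 := (abs_nonneg _).trans (hC2 1 one_pos)
  have hlq : 0 ≤ Real.log 2 / 2 := div_nonneg (Real.log_nonneg (by norm_num)) (by positivity)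
  refine ⟨C1 + C2 + Real.log 2 / 2, by positivity, fun N hN => ?_⟩
  have key : ∑ p ∈ (Ioc 0 N).filter Sp, 2 * Real.log p / p =
      ∑ p ∈ (Ioc 0 N).filter Nat.Prime, Real.log p / p +
      ∑ p ∈ (Ioc 0 N).filter Nat.Prime, xc p * Real.log p / p -
      ∑ p ∈ (Ioc 0 N).filter Nat.Prime, (if p = 2 then Real.log 2 / 2 else 0) := by
    have e0 : (Ioc 0 N).filter Sp = ((Ioc 0 N).filter Nat.Prime).filter
        (fun p => p % 8 = 1 ∨ p % 8 = 7) := by
      rw [Finset.filter_filter]
      rfl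
    rw [e0, ← Finset.sum_add_distrib, ← Finset.sum_sub_distrib, Finset.sum_filter]
    refine Finset.sum_congr rfl fun p hp => ?_
    have hpp : p.Prime := (Finset.mem_filter.1 hp).2
    unfold xc
    rw [ch_eq]
    by_cases h2 : p = 2
    · subst h2
      norm_num
    · have hodd : ¬ p % 2 = 0 := fun h => h2 ((Nat.Prime.even_iff hpp).1 (Nat.even_iff.2 h))
      rw [if_neg hodd, if_neg h2]
      split_ifs
      · push_cast
        ring
      · push_cast
        ring
  have hlast : |∑ p ∈ (Ioc 0 N).filter Nat.Prime, (if p = 2 then Real.log 2 / 2 else 0)| ≤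
      Real.log 2 / 2 := by
    rw [Finset.sum_ite_eq']
    split_ifs
    · rw [abs_of_nonneg hlq]
    · simpa using hlq
  have h1 := hC1 N
  have h2 := hC2 N hN
  rw [key]
  rw [abs_le] at h1 h2 hlast ⊢
  constructor <;> linarith [h1.1, h1.2, h2.1, h2.2, hlast.1, hlast.2]

private theorem ho_nonneg (p : ℕ) : 0 ≤ ho p := by
  unfold ho
  split_ifs
  · positivity
  · exact le_rfl

private theorem ho_le (p : ℕ) : ho p ≤ 2 / p := by
  unfold ho
  split_ifs
  · exact le_rfl
  · positivity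

private theorem psum_ho : ∃ C : ℝ, 0 ≤ C ∧ ∀ w z : ℕ,
    2 ≤ w → w ≤ z → |∑ p ∈ (Ioc w z).filter Nat.Prime, ho p -
      (Real.log (Real.log z) - Real.log (Real.log w))| ≤ C / Real.log w := by
  obtain ⟨C, hC0, hC⟩ := mert_o
  refine ⟨2 * C + 7, by linarith, fun w z hw hwz => ?_⟩
  have h := Pool.Agent.Work.MP_2dba45_nt.Sv.mt_psum
    (fun n => if Sp n then (2 : ℝ) else 0) C hC0 (fun N hN => ?_) w z hw hwz
  · have e : ∑ p ∈ (Ioc w z).filter Nat.Prime, ho p =
        ∑ n ∈ Ioc w z, (if Sp n then (2 : ℝ) else 0) / n := by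
      rw [Finset.sum_filter]
      refine Finset.sum_congr rfl fun n _ => ?_
      unfold ho
      by_cases h1 : n.Prime
      · by_cases h2 : Sp n
        · rw [if_pos h1, if_pos h2, if_pos h2]
        · rw [if_pos h1, if_neg h2, if_neg h2, zero_div]
      · rw [if_neg h1, if_neg (fun h => h1 h.1), zero_div]
    rw [e]
    exact h
  · have h3 := hC N hN
    have e : ∑ p ∈ (Ioc 0 N).filter Sp,
        2 * Real.log p / p = ∑ n ∈ Ioc 0 N,
          (if Sp n then (2 : ℝ) else 0) * (Real.log n / n) := by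
      rw [Finset.sum_filter]
      refine Finset.sum_congr rfl fun n _ => ?_
      split_ifs
      · ring
      · ring
    rw [e] at h3
    exact h3

theorem dim1_ho : Dim1 ho := by
  refine ⟨ho_nonneg, fun p _ => ho_le p, ?_⟩
  obtain ⟨C, hC0, hC⟩ := psum_ho
  refine ⟨C + 6, by linarith, fun w x hw hwx => ?_⟩
  set W := ⌈w⌉₊ with hW
  set X := ⌈x⌉₊ with hX
  have hwW : w ≤ W := Nat.le_ceil w
  have hWw : (W : ℝ) ≤ w + 1 := (Nat.ceil_lt_add_one (by linarith)).le
  have hxX : x ≤ X := Nat.le_ceil x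
  have hXx : (X : ℝ) ≤ x + 1 := (Nat.ceil_lt_add_one (by linarith)).le
  have hWX : W ≤ X := Nat.ceil_le_ceil hwx
  have hW2 : 2 ≤ W := by
    have : (2 : ℝ) ≤ W := hw.trans hwW
    exact_mod_cast this
  have hlw : 0 < Real.log w := Real.log_pos (by linarith)
  have hlW : Real.log w ≤ Real.log W := Real.log_le_log (by linarith) hwW
  have hlx : Real.log w ≤ Real.log x := Real.log_le_log (by linarith) hwx
  have h1 := hC W X hW2 hWX
  have h2 := Pool.Agent.Work.MP_2dba45_nt.Sv.mt_loglog hw hwW hWw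
  have h3 := Pool.Agent.Work.MP_2dba45_nt.Sv.mt_loglog (hw.trans hwx) hxX hXx
  have h4 : ∀ Y : ℕ, w ≤ Y → 0 ≤ (if Y.Prime then ho Y else 0) ∧
      (if Y.Prime then ho Y else 0) ≤ 2 / Real.log w := by
    intro Y hY
    have hb : 2 / (Y : ℝ) ≤ 2 / Real.log w := by
      apply div_le_div_of_nonneg_left (by norm_num) hlw
      have := Real.log_le_sub_one_of_pos (x := w) (by linarith)
      linarith
    split_ifs with hp
    · exact ⟨ho_nonneg Y, (ho_le Y).trans hb⟩
    · exact ⟨le_rfl, by positivity⟩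
  have h5 := h4 W hwW
  have h6 := h4 X (hwx.trans hxX)
  have h7 : C / Real.log W ≤ C / Real.log w := div_le_div_of_nonneg_left hC0 hlw hlW
  have h8 : 1 / Real.log x ≤ 1 / Real.log w := one_div_le_one_div_of_le hlw hlx
  rw [Pool.Agent.Work.MP_2dba45_nt.Sv.mt_shift ho W X hWX]
  have e6 : (C + 6) / Real.log w = C / Real.log w + 2 / Real.log w + 2 / Real.log w
      + 1 / Real.log w + 1 / Real.log w := by ring
  rw [e6]
  have h0 : 0 ≤ 1 / Real.log w := by positivity
  have h00 : 0 ≤ 2 / Real.log w := by positivity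
  rw [abs_le] at h1 ⊢
  constructor
  · linarith [h1.1, h2.1, h2.2, h3.1, h3.2, h5.1, h5.2, h6.1, h6.2]
  · linarith [h1.2, h2.1, h2.2, h3.1, h3.2, h5.1, h5.2, h6.1, h6.2]

end Pool.Agent.Work.MP_c971ef_nt.R5
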