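import Mathlib
import Pool.Agent.Work.MP_c971ef_nt.R5.DimO
import Pool.Agent.Work.MP_c971ef_nt.CP.A

set_option autoImplicit false

/-!
Module Vz (size M). Elementary facts on `hp`; products; existence of the Brun-Hooley weights.
* `Sp p` implies `p ≥ 7`, so `0 ≤ hp p ≤ 1/3`, `hp p ≤ 3/p`, `0 ≤ hp p - ho p ≤ 3 / p^2` (2/(p-1) - 2/p = 2/(p(p-1))).
* `sum_diff`: the sum of `hp p - ho p` over a finite set of primes is at most `1` (3/p^2 for p ≥ 7 odd; compare with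
  the telescoping sum of 1/(n(n-1)), or `3/p^2 ≤ 3 (1/(p-1) - 1/p)`, total at most 3/6).
* `block_hp`: `dim1_ho.law` (constant C): for y ≥ 2: w = y, x = y^2: loglog(y^2) - loglog y = log 2, sum of ho ≤
  log 2 + C / log 2 (the primes p with y ≤ p < y^2 are those of `Ico ⌈y⌉₊ ⌈y^2⌉₊`); for 1 ≤ y < 2: y^2 < 4 and no `Sp` prime is
  less than 4. Add `sum_diff`.
* `V_ge`: `1 - t ≥ exp(-t - t^2)` for `0 ≤ t ≤ 1/2`, `t^2 ≤ 9/p^2`. So the product is at least exp(-(sum of ho) - 1 - C'), and the sum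
  of ho over the Sp primes below ⌈N^δ⌉ ≤ N (δ ≤ 1/2, N ≥ 4) is at most loglog N + C'' (law with w = 2, x = N; there
  loglog 2 is a constant).
* `exists_wts`: `CP.bh L₀` with `P := Zs δ N \ E`, `g := hp`, `z := pw N δ` (≥ 2).
-/

namespace Pool.Agent.Work.MP_c971ef_nt.R5

open Finset Pool.Agent.Work.MP_2dba45_nt.Sv

private theorem sp_ge {p : ℕ} (h : Sp p) : 7 ≤ p := by
  obtain ⟨h1, h2⟩ := h
  by_contra hc
  have h3 := h1.two_le
  omega

private theorem sp_geR {p : ℕ} (h : Sp p) : (7 : ℝ) ≤ p := by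
  exact_mod_cast sp_ge h

theorem hp_nn (p : ℕ) : 0 ≤ hp p := by
  unfold hp
  split_ifs with h
  · have := sp_geR h
    exact div_nonneg (by norm_num) (by linarith)
  · exact le_rfl

theorem hp_le (p : ℕ) : hp p ≤ 1 / 3 := by
  unfold hp
  split_ifs with h
  · have := sp_geR h
    rw [div_le_iff₀ (by linarith)]
    linarith
  · norm_num

theorem hh_nn (S : Finset ℕ) : 0 ≤ hh S :=
  Finset.prod_nonneg fun p _ => hp_nn p

/-- the difference of the two densities -/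
private theorem diff_eq {p : ℕ} (h : Sp p) :
    hp p - ho p = 2 * (1 / ((p : ℝ) - 1) - 1 / (p : ℝ)) := by
  unfold hp ho
  rw [if_pos h, if_pos h]
  ring

theorem diff_nn (p : ℕ) : 0 ≤ hp p - ho p ∧ hp p - ho p ≤ 3 / (p : ℝ) ^ 2 := by
  by_cases h : Sp p
  · have h7 := sp_geR h
    rw [diff_eq h]
    have h1 : 1 / ((p : ℝ) - 1) - 1 / (p : ℝ) = 1 / ((p : ℝ) * ((p : ℝ) - 1)) := by
      have a0 : (p : ℝ) ≠ 0 := by
        intro h0
        linarith
      have a1 : (p : ℝ) - 1 ≠ 0 := by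
        intro h0
        linarith
      field_simp
      ring
    rw [h1]
    have h2 : 0 < (p : ℝ) * ((p : ℝ) - 1) := by
      apply mul_pos <;> linarith
    refine ⟨by positivity, ?_⟩
    rw [← mul_div_assoc, mul_one, div_le_div_iff₀ h2 (by positivity)]
    nlinarith
  · unfold hp ho
    rw [if_neg h, if_neg h, sub_zero]
    exact ⟨le_rfl, by positivity⟩

/-- telescoping over the primes in question -/
private theorem tele (P : Finset ℕ) (hP : ∀ p ∈ P, 7 ≤ p) :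
    ∑ p ∈ P, (1 / ((p : ℝ) - 1) - 1 / (p : ℝ)) ≤ 1 / 6 := by
  obtain ⟨M, hM⟩ : ∃ M, 7 ≤ M ∧ P ⊆ Ico 7 M := by
    refine ⟨P.sup id + 8, by omega, fun p hp => ?_⟩
    rw [Finset.mem_Ico]
    have : p ≤ P.sup id := Finset.le_sup (f := id) hp
    exact ⟨hP p hp, by omega⟩
  have hnn : ∀ p : ℕ, 7 ≤ p → 0 ≤ 1 / ((p : ℝ) - 1) - 1 / (p : ℝ) := by
    intro p hp
    have h7 : (7 : ℝ) ≤ p := by exact_mod_cast hp
    rw [sub_nonneg]
    apply one_div_le_one_div_of_le <;> linarith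
  have hsum : ∀ M : ℕ, 7 ≤ M → ∑ p ∈ Ico 7 M, (1 / ((p : ℝ) - 1) - 1 / (p : ℝ)) =
      1 / 6 - 1 / ((M : ℝ) - 1) := by
    intro M hM
    induction M, hM using Nat.le_induction with
    | base => norm_num
    | succ M hM ih =>
      rw [Finset.sum_Ico_succ_top hM, ih]
      push_cast
      ring
  calc ∑ p ∈ P, (1 / ((p : ℝ) - 1) - 1 / (p : ℝ))
      ≤ ∑ p ∈ Ico 7 M, (1 / ((p : ℝ) - 1) - 1 / (p : ℝ)) :=
        Finset.sum_le_sum_of_subset_of_nonneg hM.2 fun p hp _ => hnn p (Finset.mem_Ico.1 hp).1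
    _ = 1 / 6 - 1 / ((M : ℝ) - 1) := hsum M hM.1
    _ ≤ 1 / 6 := by
        have h7 : (7 : ℝ) ≤ M := by exact_mod_cast hM.1
        have : 0 ≤ 1 / ((M : ℝ) - 1) := div_nonneg zero_le_one (by linarith)
        linarith

theorem sum_diff (P : Finset ℕ) : ∑ p ∈ P, (hp p - ho p) ≤ 1 := by
  have h1 : ∑ p ∈ P, (hp p - ho p) =
      2 * ∑ p ∈ P.filter Sp, (1 / ((p : ℝ) - 1) - 1 / (p : ℝ)) := by
    rw [Finset.mul_sum, Finset.sum_filter]
    refine Finset.sum_congr rfl fun p _ => ?_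
    split_ifs with h
    · exact diff_eq h
    · unfold hp ho
      rw [if_neg h, if_neg h, sub_zero]
  have h2 := tele (P.filter Sp) fun p hp => sp_ge (Finset.mem_filter.1 hp).2
  rw [h1]
  linarith

/-- the factors of the product -/
private theorem factor_ge {p : ℕ} (h : Sp p) :
    Real.exp (-(ho p + 12 * (1 / ((p : ℝ) - 1) - 1 / (p : ℝ)))) ≤ 1 - hp p := by
  have h7 := sp_geR h
  have h1 : 0 < 1 - hp p := by
    have := hp_le p
    linarith
  rw [← Real.le_log_iff_exp_le h1]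
  refine le_trans ?_ (Real.one_sub_inv_le_log_of_pos h1)
  have e1 : (1 - hp p)⁻¹ = 1 + 2 / ((p : ℝ) - 3) := by
    unfold hp
    rw [if_pos h]
    have a1 : (p : ℝ) - 1 ≠ 0 := by
      intro h0
      linarith
    have a3 : (p : ℝ) - 3 ≠ 0 := by
      intro h0
      linarith
    have e2 : 1 - 2 / ((p : ℝ) - 1) = ((p : ℝ) - 3) / ((p : ℝ) - 1) := by
      field_simp
      ring
    rw [e2, inv_div]
    field_simp
    ring
  rw [e1]
  have e3 : ho p = 2 / (p : ℝ) := by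
    unfold ho
    rw [if_pos h]
  rw [e3]
  have e4 : 2 / ((p : ℝ) - 3) ≤ 2 / (p : ℝ) + 12 * (1 / ((p : ℝ) - 1) - 1 / (p : ℝ)) := by
    have a0 : 0 < (p : ℝ) := by linarith
    have a1 : 0 < (p : ℝ) - 1 := by linarith
    have a3 : 0 < (p : ℝ) - 3 := by linarith
    have e5 : 2 / (p : ℝ) + 12 * (1 / ((p : ℝ) - 1) - 1 / (p : ℝ)) - 2 / ((p : ℝ) - 3) =
        6 * ((p : ℝ) - 5) / ((p : ℝ) * ((p : ℝ) - 1) * ((p : ℝ) - 3)) := by
      field_simp
      ring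
    have e6 : 0 ≤ 6 * ((p : ℝ) - 5) / ((p : ℝ) * ((p : ℝ) - 1) * ((p : ℝ) - 3)) := by
      apply div_nonneg
      · linarith
      · positivity
    linarith
  linarith

theorem V_ge : ∃ c : ℝ, 0 < c ∧ ∀ δ : ℝ, 0 < δ → δ ≤ 1 / 2 → ∀ N : ℕ, 4 ≤ N → ∀ E : Finset ℕ,
    c / Real.log N ≤ ∏ p ∈ Zs δ N \ E, (1 - hp p) := by
  obtain ⟨C, hC0, hC⟩ := dim1_ho.law
  refine ⟨Real.exp (Real.log (Real.log 2) - C / Real.log 2 - 2), Real.exp_pos _, ?_⟩
  intro δ hδ hδ2 N hN E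
  have hN4 : (4 : ℝ) ≤ N := by exact_mod_cast hN
  set PS := (Ico 2 N).filter Sp with hPS
  have hsub : Zs δ N \ E ⊆ PS := by
    intro p hp
    rw [Finset.mem_sdiff] at hp
    unfold Zs at hp
    rw [Finset.mem_filter, Finset.mem_range] at hp
    rw [hPS, Finset.mem_filter, Finset.mem_Ico]
    refine ⟨⟨by have := sp_ge hp.1.2; omega, ?_⟩, hp.1.2⟩
    refine lt_of_lt_of_le hp.1.1 ?_
    unfold pw
    rw [Nat.ceil_le]
    calc (N : ℝ) ^ δ ≤ (N : ℝ) ^ (1 : ℝ) :=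
          Real.rpow_le_rpow_of_exponent_le (by linarith) (by linarith)
      _ = N := Real.rpow_one _
  have h1 : ∏ p ∈ PS, (1 - hp p) ≤ ∏ p ∈ Zs δ N \ E, (1 - hp p) := by
    rw [← Finset.prod_sdiff hsub]
    refine mul_le_of_le_one_left ?_ ?_
    · exact Finset.prod_nonneg fun p _ => by linarith [hp_le p]
    · exact Finset.prod_le_one (fun p _ => by linarith [hp_le p]) fun p _ => by
        linarith [hp_nn p]
  refine le_trans ?_ h1
  have h2 : Real.exp (∑ p ∈ PS, -(ho p + 12 * (1 / ((p : ℝ) - 1) - 1 / (p : ℝ)))) ≤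
      ∏ p ∈ PS, (1 - hp p) := by
    rw [Real.exp_sum]
    refine Finset.prod_le_prod (fun p _ => (Real.exp_pos _).le) fun p hp => ?_
    exact factor_ge (Finset.mem_filter.1 hp).2
  refine le_trans ?_ h2
  have h3 : ∑ p ∈ PS, ho p ≤ Real.log (Real.log N) - Real.log (Real.log 2) +
      C / Real.log 2 := by
    have h4 := hC 2 N le_rfl (by linarith)
    have e1 : ⌈(2 : ℝ)⌉₊ = 2 := by
      exact_mod_cast Nat.ceil_natCast (R := ℝ) 2
    rw [Nat.ceil_natCast, e1] at h4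
    have h5 : ∑ p ∈ PS, ho p ≤ ∑ p ∈ (Ico 2 N).filter Nat.Prime, ho p := by
      refine Finset.sum_le_sum_of_subset_of_nonneg (fun p hp => ?_) fun p _ _ => dim1_ho.nn p
      rw [hPS, Finset.mem_filter] at hp
      exact Finset.mem_filter.2 ⟨hp.1, hp.2.1⟩
    have h6 := (abs_le.1 h4).2
    linarith
  have h4 := tele PS fun p hp => sp_ge (Finset.mem_filter.1 hp).2
  have h5 : ∑ p ∈ PS, -(ho p + 12 * (1 / ((p : ℝ) - 1) - 1 / (p : ℝ))) =
      -(∑ p ∈ PS, ho p) - 12 * ∑ p ∈ PS, (1 / ((p : ℝ) - 1) - 1 / (p : ℝ)) := by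
    rw [Finset.sum_neg_distrib, Finset.sum_add_distrib, ← Finset.mul_sum]
    ring
  rw [h5]
  have hlog : 0 < Real.log N := Real.log_pos (by linarith)
  have h6 : Real.exp (Real.log (Real.log 2) - C / Real.log 2 - 2) / Real.log N =
      Real.exp (Real.log (Real.log 2) - C / Real.log 2 - 2 - Real.log (Real.log N)) := by
    rw [Real.exp_sub _ (Real.log (Real.log N)), Real.exp_log hlog]
  rw [h6]
  apply Real.exp_le_exp.2
  linarith

private theorem block_hp : ∃ L₀ : ℝ, 0 ≤ L₀ ∧ ∀ (P : Finset ℕ) (y : ℝ), 1 ≤ y →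
    ∑ p ∈ P.filter (fun p : ℕ => y ≤ (p : ℝ) ∧ (p : ℝ) < y ^ 2), hp p ≤ L₀ := by
  obtain ⟨C, hC0, hC⟩ := dim1_ho.law
  have hl2 : 0 < Real.log 2 := Real.log_pos (by norm_num)
  refine ⟨Real.log 2 + C / Real.log 2 + 1, by positivity, fun P y hy => ?_⟩
  set Q := P.filter (fun p : ℕ => y ≤ (p : ℝ) ∧ (p : ℝ) < y ^ 2) with hQ
  have h1 : ∑ p ∈ Q, hp p = ∑ p ∈ Q, (hp p - ho p) + ∑ p ∈ Q, ho p := by
    rw [← Finset.sum_add_distrib]
    refine Finset.sum_congr rfl fun p _ => ?_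
    ring
  rw [h1]
  have h2 := sum_diff Q
  by_cases hy2 : 2 ≤ y
  · have h3 := hC y (y ^ 2) hy2 (by nlinarith)
    have hly : Real.log 2 ≤ Real.log y := Real.log_le_log (by norm_num) hy2
    have h4 : Real.log (Real.log (y ^ 2)) - Real.log (Real.log y) = Real.log 2 := by
      rw [Real.log_pow, Real.log_mul (by norm_num) (by linarith)]
      push_cast
      ring
    rw [h4] at h3
    have h5 : C / Real.log y ≤ C / Real.log 2 := div_le_div_of_nonneg_left hC0 hl2 hly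
    have h6 : ∑ p ∈ Q, ho p ≤ ∑ p ∈ (Ico ⌈y⌉₊ ⌈y ^ 2⌉₊).filter Nat.Prime, ho p := by
      have e1 : ∑ p ∈ Q, ho p = ∑ p ∈ Q.filter Sp, ho p := by
        symm
        refine Finset.sum_subset (Finset.filter_subset _ _) fun p hp hn => ?_
        unfold ho
        rw [if_neg]
        intro h
        exact hn (Finset.mem_filter.2 ⟨hp, h⟩)
      rw [e1]
      refine Finset.sum_le_sum_of_subset_of_nonneg (fun p hp => ?_) fun p _ _ => dim1_ho.nn p
      rw [Finset.mem_filter, hQ, Finset.mem_filter] at hp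
      obtain ⟨⟨_, a1, a2⟩, a3⟩ := hp
      rw [Finset.mem_filter, Finset.mem_Ico]
      refine ⟨⟨Nat.ceil_le.2 a1, ?_⟩, a3.1⟩
      exact Nat.lt_ceil.2 a2
    have h7 := (abs_le.1 h3).2
    linarith
  · have h3 : ∑ p ∈ Q, ho p = 0 := by
      refine Finset.sum_eq_zero fun p hp => ?_
      unfold ho
      rw [if_neg]
      intro hs
      have h7 := sp_geR hs
      rw [hQ, Finset.mem_filter] at hp
      have : y ^ 2 < 4 := by nlinarith
      linarith [hp.2.2]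
    rw [h3]
    have : 0 ≤ C / Real.log 2 := by positivity
    linarith

theorem exists_wts : ∃ b₀ : ℕ, ∀ b : ℕ, b₀ ≤ b → ∀ (δ : ℝ) (N : ℕ), 2 ≤ pw N δ →
    ∀ E : Finset ℕ, ∃ lp dp : Finset ℕ → ℝ, Wts δ b N E lp dp := by
  obtain ⟨L₀, hL0, hL⟩ := block_hp
  obtain ⟨b₀, hb₀⟩ := Pool.Agent.Work.MP_c971ef_nt.CP.bh L₀ hL0
  refine ⟨b₀, fun b hb δ N hz E => ?_⟩
  obtain ⟨lp, dp, h1, h2, h3, h4, h5, h6⟩ := hb₀ b hb (pw N δ) (Zs δ N \ E) hp hz
    (fun p hp => by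
      rw [Finset.mem_sdiff] at hp
      unfold Zs at hp
      rw [Finset.mem_filter, Finset.mem_range] at hp
      exact ⟨by have := sp_ge hp.1.2; omega, hp.1.1⟩)
    (fun p _ => ⟨hp_nn p, (hp_le p).trans (by norm_num)⟩)
    (fun y hy => hL _ y hy)
  exact ⟨lp, dp, h1, h2, h3, fun B hB => (h4 B hB).1, fun B hB => (h4 B hB).2, h5, h6⟩

end Pool.Agent.Work.MP_c971ef_nt.R5
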