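import Mathlib
import Pool.Agent.Work.MP_c971ef_nt.R5.Vz
import Pool.Agent.Work.MP_73869e_nt.P5.GMainW
import Pool.Agent.Work.MP_73869e_nt.P5.PhB

set_option autoImplicit false

/-!
Module OvA (size M). Main terms of the weights for the density `hp`.
`abs_ph`: |ph| ≤ 1 (`ph_le_one`), so the sum is at most prod (1 + hp p) ≤ exp (sum of hp) over `PQ (pw N δ) N`, and
sum hp ≤ sum ho + 1 (`sum_diff`) ≤ log (1/δ) + 2 (`mass_g ho dim1_ho`). So C = exp 2. (Compare P5/WMb.lean.)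
`main_ph`: `main_W5` for h = ho and `Sv.WW_eq` (as in P5/WMb.lean, theorem WM_bounds) give
c δ ≤ sum over T of ph * gg ho T. The difference: |sum of ph (hh T - gg ho T)| ≤ sum over T of (hh T - gg ho T) =
prod (1 + hp) - prod (1 + ho) ≤ prod (1 + ho) * (exp (sum of (hp - ho)) - 1) (as 1 + hp ≤ (1 + ho) exp(hp - ho)); the first
factor is ≤ exp 1/δ, and the sum of (hp - ho) ≤ 3/p^2 over p ≥ N^δ is at most 6 N^(-δ)-like, in any case it tends to 0 for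
N → ∞ (tail of a convergent series, or 3/p^2 ≤ 3/(p-1) - 3/p: at most 3/(N^δ - 1)).
-/

namespace Pool.Agent.Work.MP_c971ef_nt.R5

open Finset Pool.Agent.Work.MP_2dba45_nt.Sv
open Pool.Agent.Work.MP_73869e_nt.P5 (ph)

private lemma ov_prime {δ : ℝ} {N p : ℕ} (hp : p ∈ PQ (pw N δ) N) : p.Prime := by
  unfold PQ at hp
  exact (Finset.mem_filter.1 hp).2

private lemma ov_ge {δ : ℝ} {N p : ℕ} (hp : p ∈ PQ (pw N δ) N) : pw N δ ≤ p := by
  unfold PQ at hp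
  exact (Finset.mem_Ico.1 (Finset.mem_filter.1 hp).1).1

private lemma ho_nn (p : ℕ) : 0 ≤ ho p := dim1_ho.nn p

private lemma hh_prod (P : Finset ℕ) : ∑ T ∈ P.powerset, hh T = ∏ p ∈ P, (1 + hp p) := by
  rw [Finset.prod_one_add]
  rfl

private lemma gg_prod (P : Finset ℕ) : ∑ T ∈ P.powerset, Pool.Agent.Work.MP_2dba45_nt.Sel.gg ho T =
    ∏ p ∈ P, (1 + ho p) := by
  rw [Finset.prod_one_add]
  rfl

private lemma gg_le_hh (T : Finset ℕ) : Pool.Agent.Work.MP_2dba45_nt.Sel.gg ho T ≤ hh T := by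
  unfold Pool.Agent.Work.MP_2dba45_nt.Sel.gg hh
  exact Finset.prod_le_prod (fun p _ => ho_nn p) (fun p _ => by linarith [(diff_nn p).1])

private lemma prod_exp (P : Finset ℕ) (f : ℕ → ℝ) (hf : ∀ p, 0 ≤ f p) :
    ∏ p ∈ P, (1 + f p) ≤ Real.exp (∑ p ∈ P, f p) := by
  rw [Real.exp_sum]
  refine Finset.prod_le_prod (fun p _ => by linarith [hf p]) fun p _ => ?_
  rw [add_comm]
  exact Real.add_one_le_exp _

private lemma prod_hp_le (P : Finset ℕ) :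
    ∏ p ∈ P, (1 + hp p) ≤ (∏ p ∈ P, (1 + ho p)) * Real.exp (∑ p ∈ P, (hp p - ho p)) := by
  rw [Real.exp_sum, ← Finset.prod_mul_distrib]
  refine Finset.prod_le_prod (fun p _ => by linarith [hp_nn p]) fun p _ => ?_
  have h1 := (diff_nn p).1
  have h2 := Real.add_one_le_exp (hp p - ho p)
  have h3 := ho_nn p
  nlinarith

private lemma tail_sq (P : ℕ) (hP : 2 ≤ P) (N : ℕ) :
    ∑ p ∈ Ico P N, (1 : ℝ) / (p : ℝ) ^ 2 ≤ 1 / ((P : ℝ) - 1) := by
  have hP' : (2 : ℝ) ≤ P := by exact_mod_cast hP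
  rcases le_or_gt N P with h | h
  · rw [Finset.Ico_eq_empty (by omega), Finset.sum_empty]
    exact div_nonneg zero_le_one (by linarith)
  · have key : ∀ n : ℕ, P ≤ n →
        ∑ p ∈ Ico P n, (1 : ℝ) / (p : ℝ) ^ 2 ≤ 1 / ((P : ℝ) - 1) - 1 / ((n : ℝ) - 1) := by
      intro n hn
      induction n, hn using Nat.le_induction with
      | base => simp
      | succ n hn ih =>
        rw [Finset.sum_Ico_succ_top hn]
        have hn' : (2 : ℝ) ≤ n := by exact_mod_cast (hP.trans hn)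
        have e : (1 : ℝ) / (n : ℝ) ^ 2 ≤ 1 / ((n : ℝ) - 1) - 1 / (((n + 1 : ℕ) : ℝ) - 1) := by
          push_cast
          rw [add_sub_cancel_right, div_sub_div _ _ (by linarith) (by linarith)]
          rw [div_le_div_iff₀ (by positivity) (mul_pos (by linarith) (by linarith))]
          nlinarith
        linarith
    have h2 := key N h.le
    have hN : (2 : ℝ) < N := by exact_mod_cast (lt_of_le_of_lt hP h)
    have h3 : 0 ≤ 1 / ((N : ℝ) - 1) := div_nonneg zero_le_one (by linarith)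
    linarith

private lemma sum_diff_tail (δ : ℝ) (N : ℕ) (hP : 2 ≤ pw N δ) :
    ∑ p ∈ PQ (pw N δ) N, (hp p - ho p) ≤ 3 / ((pw N δ : ℝ) - 1) := by
  have h1 : ∑ p ∈ PQ (pw N δ) N, (hp p - ho p) ≤ ∑ p ∈ PQ (pw N δ) N, 3 * ((1 : ℝ) / (p : ℝ) ^ 2) := by
    refine Finset.sum_le_sum fun p _ => ?_
    have := (diff_nn p).2
    rw [mul_one_div]
    exact this
  have h2 : ∑ p ∈ PQ (pw N δ) N, 3 * ((1 : ℝ) / (p : ℝ) ^ 2) ≤
      ∑ p ∈ Ico (pw N δ) N, 3 * ((1 : ℝ) / (p : ℝ) ^ 2) := by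
    unfold PQ
    refine Finset.sum_le_sum_of_subset_of_nonneg (Finset.filter_subset _ _) fun p _ _ => ?_
    positivity
  rw [← Finset.mul_sum] at h1
  rw [← Finset.mul_sum, ← Finset.mul_sum] at h2
  have h3 := tail_sq (pw N δ) hP N
  have h4 : 3 / ((pw N δ : ℝ) - 1) = 3 * (1 / ((pw N δ : ℝ) - 1)) := by ring
  rw [h4]
  linarith

theorem abs_ph : ∃ C : ℝ, 0 < C ∧ ∀ δ : ℝ, 0 < δ → δ ≤ 1 / 10 → ∃ N₀ : ℕ, ∀ N : ℕ, N₀ ≤ N →
    ∀ k : ℕ, 1 ≤ k → ∑ T ∈ (PQ (pw N δ) N).powerset, |ph k N T| * hh T ≤ C / δ := by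
  refine ⟨Real.exp 2, Real.exp_pos 2, fun δ hδ hδ1 => ?_⟩
  obtain ⟨N₀, hN₀⟩ := Pool.Agent.Work.MP_73869e_nt.P5.mass_g ho dim1_ho δ hδ (by linarith)
  refine ⟨N₀, fun N hN k hk => ?_⟩
  have e1 : ∑ T ∈ (PQ (pw N δ) N).powerset, |ph k N T| * hh T ≤
      ∑ T ∈ (PQ (pw N δ) N).powerset, hh T := by
    refine Finset.sum_le_sum fun T _ => ?_
    have h1 := Pool.Agent.Work.MP_73869e_nt.P5.ph_le_one k hk N T
    have h2 := mul_le_mul_of_nonneg_right h1 (hh_nn T)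
    rwa [one_mul] at h2
  rw [hh_prod] at e1
  have e2 := prod_exp (PQ (pw N δ) N) hp hp_nn
  have e3 : ∑ p ∈ PQ (pw N δ) N, hp p ≤ Real.log (1 / δ) + 2 := by
    have h1 := hN₀ N hN
    have h2 := sum_diff (PQ (pw N δ) N)
    rw [Finset.sum_sub_distrib] at h2
    linarith
  have e4 : Real.exp (Real.log (1 / δ) + 2) = Real.exp 2 / δ := by
    rw [Real.exp_add, Real.exp_log (by positivity)]
    ring
  have e5 := Real.exp_le_exp.2 e3
  rw [e4] at e5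
  linarith

theorem main_ph : ∃ c : ℝ, 0 < c ∧ ∀ δ : ℝ, 0 < δ → δ ≤ 1 / 10 → ∃ k : ℕ, 1 ≤ k ∧ ∃ N₀ : ℕ,
    ∀ N : ℕ, N₀ ≤ N → c * δ ≤ ∑ T ∈ (PQ (pw N δ) N).powerset, ph k N T * hh T := by
  obtain ⟨c, hc, hmain⟩ := Pool.Agent.Work.MP_73869e_nt.P5.main_W5
  refine ⟨c / 2, by positivity, fun δ hδ hδ1 => ?_⟩
  obtain ⟨k₀, hk₀⟩ := hmain δ hδ hδ1
  set k := max k₀ 1 with hk
  have hk1 : 1 ≤ k := le_max_right _ _
  refine ⟨k, hk1, ?_⟩
  obtain ⟨N₁, hN₁⟩ := hk₀ k (le_max_left _ _) ho dim1_ho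
  obtain ⟨N₂, hN₂⟩ := Pool.Agent.Work.MP_73869e_nt.P5.mass_g ho dim1_ho δ hδ (by linarith)
  -- the tail
  have htend : Filter.Tendsto (fun N : ℕ => ((N : ℝ)) ^ δ) Filter.atTop Filter.atTop :=
    (tendsto_rpow_atTop hδ).comp tendsto_natCast_atTop_atTop
  set B : ℝ := max 4 (1 + Real.exp 1 / δ * 6 / (c / 2 * δ)) with hB
  obtain ⟨N₃, hN₃⟩ := Filter.eventually_atTop.1 (htend.eventually_ge_atTop B)
  refine ⟨max (max N₁ N₂) (max N₃ 2), fun N hN => ?_⟩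
  have hn1 : N₁ ≤ N := (le_max_left _ _).trans ((le_max_left _ _).trans hN)
  have hn2 : N₂ ≤ N := (le_max_right _ _).trans ((le_max_left _ _).trans hN)
  have hn3 : N₃ ≤ N := (le_max_left _ _).trans ((le_max_right _ _).trans hN)
  have hNN : 2 ≤ N := (le_max_right _ _).trans ((le_max_right _ _).trans hN)
  have hN1 : (1 : ℝ) ≤ N := by exact_mod_cast (by omega : 1 ≤ N)
  have hP : B ≤ (pw N δ : ℝ) := (hN₃ N hn3).trans (Nat.le_ceil _)
  have hP4 : (4 : ℝ) ≤ (pw N δ : ℝ) := (le_max_left _ _).trans hP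
  have hP2 : 2 ≤ pw N δ := by
    have : (2 : ℝ) ≤ (pw N δ : ℝ) := by linarith
    exact_mod_cast this
  have hPB : 1 + Real.exp 1 / δ * 6 / (c / 2 * δ) ≤ (pw N δ : ℝ) := (le_max_right _ _).trans hP
  -- lower bound for ho
  have h := hN₁ N hn1
  rw [Pool.Agent.Work.MP_2dba45_nt.Sv.WW_eq _ _ _ _ _ _ _ (190 * k) (450 * k)] at h
  rotate_left
  · intro p hp
    have h := Pool.Agent.Work.MP_2dba45_nt.Sv.lt_pw_iff_cost (1000 * k) N p (190 * k) (by omega)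
      hNN (ov_prime hp).one_le
    rw [← h]
    have : (((190 * k : ℕ) : ℝ) / ((1000 * k : ℕ) : ℝ)) = Pool.Agent.Work.MP_73869e_nt.P5.zE := by
      have hk0 : (0 : ℝ) < k := by exact_mod_cast hk1
      unfold Pool.Agent.Work.MP_73869e_nt.P5.zE; push_cast; field_simp; norm_num
    rw [this]
  · intro p hp
    have h := Pool.Agent.Work.MP_2dba45_nt.Sv.lt_pw_iff_cost (1000 * k) N p (450 * k) (by omega)
      hNN (ov_prime hp).one_le
    rw [← h]
    have : (((450 * k : ℕ) : ℝ) / ((1000 * k : ℕ) : ℝ)) = Pool.Agent.Work.MP_73869e_nt.P5.yE := by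
      have hk0 : (0 : ℝ) < k := by exact_mod_cast hk1
      unfold Pool.Agent.Work.MP_73869e_nt.P5.yE; push_cast; field_simp; norm_num
    rw [this]
  · unfold Pool.Agent.Work.MP_2dba45_nt.Sv.pw
    apply Nat.ceil_mono
    exact Real.rpow_le_rpow_of_exponent_le hN1 (by
      unfold Pool.Agent.Work.MP_73869e_nt.P5.zE Pool.Agent.Work.MP_73869e_nt.P5.yE; norm_num)
  have h' : c * δ ≤ ∑ T ∈ (PQ (pw N δ) N).powerset,
      ph k N T * Pool.Agent.Work.MP_2dba45_nt.Sel.gg ho T := h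
  -- the difference
  have d1 : ∑ T ∈ (PQ (pw N δ) N).powerset, ph k N T * Pool.Agent.Work.MP_2dba45_nt.Sel.gg ho T -
      ∑ T ∈ (PQ (pw N δ) N).powerset, ph k N T * hh T ≤
      ∑ T ∈ (PQ (pw N δ) N).powerset, (hh T - Pool.Agent.Work.MP_2dba45_nt.Sel.gg ho T) := by
    rw [← Finset.sum_sub_distrib]
    refine Finset.sum_le_sum fun T _ => ?_
    have h1 := abs_le.1 (Pool.Agent.Work.MP_73869e_nt.P5.ph_le_one k hk1 N T)
    have h2 := gg_le_hh T
    nlinarith [h1.1, h1.2]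
  rw [Finset.sum_sub_distrib, hh_prod, gg_prod] at d1
  have d2 := prod_hp_le (PQ (pw N δ) N)
  have d3 := prod_exp (PQ (pw N δ) N) ho ho_nn
  have d4 := Real.exp_le_exp.2 (hN₂ N hn2)
  rw [Real.exp_add, Real.exp_log (by positivity)] at d4
  have d5 := sum_diff_tail δ N hP2
  have d6 : 3 / ((pw N δ : ℝ) - 1) ≤ 1 := by
    rw [div_le_one (by linarith)]
    linarith
  have d0 : 0 ≤ ∑ p ∈ PQ (pw N δ) N, (hp p - ho p) :=
    Finset.sum_nonneg fun p _ => (diff_nn p).1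
  set D := ∑ p ∈ PQ (pw N δ) N, (hp p - ho p) with hD
  have d7 : Real.exp D ≤ 1 + 2 * D := by
    have h1 : |D| ≤ 1 := by
      rw [abs_of_nonneg d0]
      linarith
    have h2 := Real.abs_exp_sub_one_le h1
    rw [abs_of_nonneg d0] at h2
    linarith [(abs_le.1 h2).2]
  have d8 : 0 ≤ ∏ p ∈ PQ (pw N δ) N, (1 + ho p) :=
    Finset.prod_nonneg fun p _ => by linarith [ho_nn p]
  set Q := ∏ p ∈ PQ (pw N δ) N, (1 + ho p) with hQ
  have d9 : Q ≤ Real.exp 1 / δ := by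
    have : 1 / δ * Real.exp 1 = Real.exp 1 / δ := by ring
    linarith
  have d10 : Q * Real.exp D - Q ≤ Real.exp 1 / δ * (2 * (3 / ((pw N δ : ℝ) - 1))) := by
    have h1 : Q * Real.exp D - Q ≤ Q * (2 * D) := by nlinarith
    have h2 : Q * (2 * D) ≤ Real.exp 1 / δ * (2 * (3 / ((pw N δ : ℝ) - 1))) :=
      mul_le_mul d9 (by linarith) (by linarith) (by positivity)
    linarith
  have d11 : Real.exp 1 / δ * (2 * (3 / ((pw N δ : ℝ) - 1))) ≤ c / 2 * δ := by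
    have h0 : 0 < (pw N δ : ℝ) - 1 := by linarith
    have h1 : Real.exp 1 / δ * 6 / (c / 2 * δ) ≤ (pw N δ : ℝ) - 1 := by linarith
    rw [div_le_iff₀ (by positivity)] at h1
    have h2 : Real.exp 1 / δ * (2 * (3 / ((pw N δ : ℝ) - 1))) =
        (Real.exp 1 / δ * 6) / ((pw N δ : ℝ) - 1) := by ring
    rw [h2, div_le_iff₀ h0]
    linarith
  linarith

end Pool.Agent.Work.MP_c971ef_nt.R5
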