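import Mathlib

set_option autoImplicit false

/-!
Module Expd (size S-M, finite sets only). Proof: the map (E, d, T) ↦ (S, E), S = E ∪ d ∪ T, is a bijection from the triples
E in EE, d ⊆ Z \ E, T ⊆ P to the pairs S ⊆ Z ∪ P, E in EE with E ⊆ S; the inverse is d = (S ∩ Z) \ E, T = S ∩ P (Z and P are
disjoint, E ⊆ Z). For a fixed E: `Finset.sum_nbij'` from `(Z \ E).powerset ×ˢ P.powerset` to the S in `(Z ∪ P).powerset` with
E ⊆ S (`Finset.sum_product'`), then exchange the sums over E and S (`Finset.sum_comm'` or `Finset.sum_filter`, `Finset.sum_comm`).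
-/

namespace Pool.Agent.Work.MP_c971ef_nt.R5

open Finset

theorem expand (Z P : Finset ℕ) (hZP : Disjoint Z P) (EE : Finset (Finset ℕ))
    (hE : ∀ E ∈ EE, E ⊆ Z) (a : Finset ℕ → Finset ℕ → ℝ) (t F : Finset ℕ → ℝ) :
    ∑ E ∈ EE, ∑ d ∈ (Z \ E).powerset, ∑ T ∈ P.powerset, a E d * t T * F (E ∪ d ∪ T) =
      ∑ S ∈ (Z ∪ P).powerset,
        (∑ E ∈ EE.filter (fun E => E ⊆ S), a E ((S ∩ Z) \ E)) * t (S ∩ P) * F S := by
  have hR : ∑ S ∈ (Z ∪ P).powerset,
        (∑ E ∈ EE.filter (fun E => E ⊆ S), a E ((S ∩ Z) \ E)) * t (S ∩ P) * F S =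
      ∑ E ∈ EE, ∑ S ∈ (Z ∪ P).powerset.filter (fun S => E ⊆ S),
        a E ((S ∩ Z) \ E) * t (S ∩ P) * F S := by
    calc ∑ S ∈ (Z ∪ P).powerset,
          (∑ E ∈ EE.filter (fun E => E ⊆ S), a E ((S ∩ Z) \ E)) * t (S ∩ P) * F S
        = ∑ S ∈ (Z ∪ P).powerset, ∑ E ∈ EE.filter (fun E => E ⊆ S),
            a E ((S ∩ Z) \ E) * t (S ∩ P) * F S := by
          refine Finset.sum_congr rfl fun S _ => ?_
          rw [Finset.sum_mul, Finset.sum_mul]
      _ = _ := by
          refine Finset.sum_comm' fun S E => ?_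
          simp only [Finset.mem_filter]
          tauto
  rw [hR]
  refine Finset.sum_congr rfl fun E hEE => ?_
  have hEZ := hE E hEE
  have hdis := Finset.disjoint_left.mp hZP
  rw [← Finset.sum_product' (f := fun d T => a E d * t T * F (E ∪ d ∪ T))]
  have h1 : ∀ d T : Finset ℕ, d ⊆ Z \ E → T ⊆ P → ((E ∪ d ∪ T) ∩ Z) \ E = d := by
    intro d T hd hT
    ext x
    simp only [Finset.mem_sdiff, Finset.mem_inter, Finset.mem_union]
    constructor
    · rintro ⟨⟨(h | h) | h, h2⟩, h3⟩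
      · exact absurd h h3
      · exact h
      · exact absurd (hT h) (hdis h2)
    · intro h
      have h2 := Finset.mem_sdiff.mp (hd h)
      exact ⟨⟨Or.inl (Or.inr h), h2.1⟩, h2.2⟩
  have h2 : ∀ d T : Finset ℕ, d ⊆ Z \ E → T ⊆ P → (E ∪ d ∪ T) ∩ P = T := by
    intro d T hd hT
    ext x
    simp only [Finset.mem_inter, Finset.mem_union]
    constructor
    · rintro ⟨(h | h) | h, h2⟩
      · exact absurd h2 (hdis (hEZ h))
      · exact absurd h2 (hdis (Finset.mem_sdiff.mp (hd h)).1)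
      · exact h
    · intro h
      exact ⟨Or.inr h, hT h⟩
  refine Finset.sum_nbij' (fun q => E ∪ q.1 ∪ q.2) (fun S => ((S ∩ Z) \ E, S ∩ P)) ?_ ?_ ?_ ?_ ?_
  · rintro ⟨d, T⟩ hq
    rw [Finset.mem_product, Finset.mem_powerset, Finset.mem_powerset] at hq
    rw [Finset.mem_filter, Finset.mem_powerset]
    refine ⟨Finset.union_subset (Finset.union_subset (hEZ.trans Finset.subset_union_left)
      ((hq.1.trans Finset.sdiff_subset).trans Finset.subset_union_left))
      (hq.2.trans Finset.subset_union_right),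
      Finset.subset_union_left.trans Finset.subset_union_left⟩
  · intro S _
    rw [Finset.mem_product, Finset.mem_powerset, Finset.mem_powerset]
    exact ⟨Finset.sdiff_subset_sdiff Finset.inter_subset_right le_rfl,
      Finset.inter_subset_right⟩
  · rintro ⟨d, T⟩ hq
    rw [Finset.mem_product, Finset.mem_powerset, Finset.mem_powerset] at hq
    exact Prod.ext (h1 d T hq.1 hq.2) (h2 d T hq.1 hq.2)
  · intro S hS
    rw [Finset.mem_filter, Finset.mem_powerset] at hS
    ext x
    simp only [Finset.mem_union, Finset.mem_sdiff, Finset.mem_inter]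
    constructor
    · rintro ((h | h) | h)
      · exact hS.2 h
      · exact h.1.1
      · exact h.1
    · intro h
      rcases Finset.mem_union.mp (hS.1 h) with h3 | h3
      · by_cases h4 : x ∈ E
        · exact Or.inl (Or.inl h4)
        · exact Or.inl (Or.inr ⟨⟨h, h3⟩, h4⟩)
      · exact Or.inr ⟨h, h3⟩
  · rintro ⟨d, T⟩ hq
    rw [Finset.mem_product, Finset.mem_powerset, Finset.mem_powerset] at hq
    simp only
    rw [h1 d T hq.1 hq.2, h2 d T hq.1 hq.2]

end Pool.Agent.Work.MP_c971ef_nt.R5
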