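import Mathlib
import Pool.Agent.Work.MP_c971ef_nt.R5.Vz
import Pool.Agent.Work.MP_70e905_nt.MT.B2
import Pool.Agent.Work.MP_2dba45_nt.Crt

set_option autoImplicit false

/-!
Module Loc (size M). The number of primes `n` in `(N, 2 N]` such that all elements of `S` divide `n ^ 2 - 2`.
(1) If some p in S is not `Sp`, then `AN N S` is empty (p = 2: n is an odd prime, n > N ≥ 2, so n^2 - 2 is odd; p odd, p % 8 = 3, 5:
2 is not a square modulo p, `ZMod.exists_sq_eq_two_iff`) and `hh S = 0`: the inequality holds (`mx_nn`).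
(2) All p in S are `Sp`: q = pd S, R = the c < q with q ∣ c^2 - 2 (write it as q ∣ c^2 + (q * something) or use the predicate
`c ^ 2 ≡ 2 [MOD p]` for all p in S). #R = 2^#S (`Crt.card_crt`, each p has exactly two roots: `ZMod.exists_sq_eq_two_iff`,
x and -x, x ≠ 0 ≠ -x as p is odd; compare CP/G1.lean `two_roots`), all c in R are prime to q. #(AN N S) = sum over c in R of
(pic (2N) q c - pic N q c), #(PN N) = primeCounting (2N) - primeCounting N, and 2^#S / φ(q) = hh S (φ(q) = prod (p - 1); as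
`b3_totient` in MT/B3.lean). `mx_ge` for each c and both y = 2N, y = N.
-/

namespace Pool.Agent.Work.MP_c971ef_nt.R5

open Finset Pool.Agent.Work.MP_70e905_nt.MT

private theorem loc_odd {p : ℕ} (hp : Sp p) : p ≠ 2 := by
  rintro rfl
  rcases hp.2 with h | h
  · exact absurd h (by decide)
  · exact absurd h (by decide)

private theorem loc_two {p : ℕ} (hp : Sp p) :
    #((range p).filter (fun t => t ^ 2 ≡ 2 [MOD p])) = 2 := by
  haveI : Fact p.Prime := ⟨hp.1⟩
  have hp2 := loc_odd hp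
  obtain ⟨r, hr⟩ := (ZMod.exists_sq_eq_two_iff hp2).2 hp.2
  have h2 : (2 : ZMod p) ≠ 0 := by
    intro h
    have h3 : ((2 : ℕ) : ZMod p) = 0 := by
      push_cast
      exact h
    rw [ZMod.natCast_eq_zero_iff] at h3
    exact hp2 ((Nat.prime_dvd_prime_iff_eq hp.1 Nat.prime_two).1 h3)
  have hr0 : r ≠ 0 := by
    rintro rfl
    exact h2 (by rw [hr, mul_zero])
  have hne : r ≠ -r := by
    intro h
    have h3 : (2 : ZMod p) * r = 0 := by linear_combination h
    rcases mul_eq_zero.1 h3 with h4 | h4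
    · exact h2 h4
    · exact hr0 h4
  rw [card_eq_two]
  refine ⟨r.val, (-r).val, fun h => hne (ZMod.val_injective p h), ?_⟩
  ext t
  rw [mem_filter, mem_range, mem_insert, mem_singleton]
  constructor
  · rintro ⟨ht, h⟩
    have h1 : ((t : ZMod p)) ^ 2 = 2 := by
      have h3 := (ZMod.natCast_eq_natCast_iff _ _ _).2 h
      push_cast at h3
      exact h3
    have h4 : ((t : ZMod p) - r) * ((t : ZMod p) + r) = 0 := by linear_combination h1 + hr
    rcases mul_eq_zero.1 h4 with h3 | h3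
    · left
      rw [← sub_eq_zero.1 h3, ZMod.val_natCast, Nat.mod_eq_of_lt ht]
    · right
      rw [← eq_neg_of_add_eq_zero_left h3, ZMod.val_natCast, Nat.mod_eq_of_lt ht]
  · rintro (rfl | rfl)
    · refine ⟨ZMod.val_lt _, ?_⟩
      rw [← ZMod.natCast_eq_natCast_iff]
      push_cast
      rw [ZMod.natCast_zmod_val, hr]
      ring
    · refine ⟨ZMod.val_lt _, ?_⟩
      rw [← ZMod.natCast_eq_natCast_iff]
      push_cast
      rw [ZMod.natCast_zmod_val, hr]
      ring

private theorem loc_dvd {p n : ℕ} (hn : 2 ≤ n) : p ∣ n ^ 2 - 2 ↔ n ^ 2 ≡ 2 [MOD p] := by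
  have h1 : 2 ≤ n ^ 2 := by nlinarith
  rw [← Nat.modEq_iff_dvd' h1]
  exact ⟨fun h => h.symm, fun h => h.symm⟩

private theorem loc_per (p t : ℕ) : t ^ 2 ≡ 2 [MOD p] ↔ (t % p) ^ 2 ≡ 2 [MOD p] := by
  have h1 : (t % p) ^ 2 ≡ t ^ 2 [MOD p] := (Nat.mod_modEq t p).pow 2
  exact ⟨fun h => h1.trans h, fun h => h1.symm.trans h⟩

private theorem loc_cop {p c : ℕ} (hp : Sp p) (h : c ^ 2 ≡ 2 [MOD p]) : Nat.Coprime c p := by
  rw [Nat.coprime_comm, Nat.Prime.coprime_iff_not_dvd hp.1]
  intro hd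
  have h1 : c ^ 2 ≡ 0 [MOD p] := (Nat.modEq_zero_iff_dvd).2 (Dvd.dvd.trans hd (dvd_pow_self c two_ne_zero))
  have h2 : p ∣ 2 := (Nat.modEq_zero_iff_dvd).1 (h.symm.trans h1)
  exact loc_odd hp ((Nat.prime_dvd_prime_iff_eq hp.1 Nat.prime_two).1 h2)

private theorem loc_totient (T : Finset ℕ) (hT : ∀ p ∈ T, p.Prime) :
    ((Nat.totient (pd T) : ℕ) : ℝ)⁻¹ = ∏ p ∈ T, (1 / ((p : ℝ) - 1)) := by
  classical
  induction T using Finset.induction_on with
  | empty =>
    unfold pd
    simp
  | insert p T hp ih =>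
    have h1 := ih fun q hq => hT q (mem_insert_of_mem hq)
    have hpp := hT p (mem_insert_self _ _)
    have h2 : pd (insert p T) = p * pd T := by
      unfold pd
      rw [prod_insert hp]
    have h3 : Nat.Coprime p (pd T) := by
      unfold pd
      rw [Nat.coprime_prod_right_iff]
      intro q hq
      rw [Nat.coprime_primes hpp (hT q (mem_insert_of_mem hq))]
      rintro rfl
      exact hp hq
    rw [h2, Nat.totient_mul h3, Nat.totient_prime hpp, prod_insert hp, ← h1, Nat.cast_mul, mul_inv,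
      Nat.cast_sub hpp.one_lt.le, Nat.cast_one, one_div]

private theorem loc_pi (y : ℕ) : Nat.primeCounting y = #((Icc 1 y).filter Nat.Prime) := by
  unfold Nat.primeCounting Nat.primeCounting'
  rw [Nat.count_eq_card_filter_range]
  congr 1
  ext p
  rw [mem_filter, mem_filter, mem_range, mem_Icc]
  exact ⟨fun h => ⟨⟨h.2.pos, by omega⟩, h.2⟩, fun h => ⟨by omega, h.2⟩⟩

private theorem loc_split (N : ℕ) (P : ℕ → Prop) [DecidablePred P] :
    (#((Ioc N (2 * N)).filter P) : ℝ) = #((Icc 1 (2 * N)).filter P) - #((Icc 1 N).filter P) := by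
  have h1 : (Icc 1 (2 * N)).filter P = (Icc 1 N).filter P ∪ (Ioc N (2 * N)).filter P := by
    ext x
    rw [mem_union, mem_filter, mem_filter, mem_filter, mem_Icc, mem_Icc, mem_Ioc]
    constructor
    · rintro ⟨h1, h2⟩
      by_cases h3 : x ≤ N
      · exact Or.inl ⟨⟨h1.1, h3⟩, h2⟩
      · exact Or.inr ⟨⟨by omega, h1.2⟩, h2⟩
    · rintro (⟨h1, h2⟩ | ⟨h1, h2⟩)
      · exact ⟨⟨h1.1, by omega⟩, h2⟩
      · exact ⟨⟨by omega, h1.2⟩, h2⟩
  have h2 : Disjoint ((Icc 1 N).filter P) ((Ioc N (2 * N)).filter P) := by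
    rw [disjoint_left]
    intro x hx hx'
    rw [mem_filter, mem_Icc] at hx
    rw [mem_filter, mem_Ioc] at hx'
    omega
  rw [h1, card_union_of_disjoint h2]
  push_cast
  ring

theorem loc (N : ℕ) (hN : 2 ≤ N) (S : Finset ℕ) (hS : ∀ p ∈ S, p.Prime) :
    |(#(AN N S) : ℝ) - #(PN N) * hh S| ≤
      2 ^ #S * (mx (2 * N) (pd S) + mx N (pd S)) := by
  classical
  have hmx : 0 ≤ mx (2 * N) (pd S) + mx N (pd S) := add_nonneg (mx_nn _ _) (mx_nn _ _)
  by_cases hall : ∀ p ∈ S, Sp p
  swap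
  · push Not at hall
    obtain ⟨p, hpS, hpn⟩ := hall
    have h1 : hh S = 0 := by
      unfold hh
      refine prod_eq_zero hpS ?_
      unfold hp
      rw [if_neg hpn]
    have h2 : AN N S = ∅ := by
      unfold AN
      rw [filter_eq_empty_iff]
      intro n hn hd
      have hn' := mem_filter.1 hn
      rw [mem_Ioc] at hn'
      have h3 := (loc_dvd (by omega : 2 ≤ n)).1 (hd p hpS)
      have hpp := hS p hpS
      by_cases hp2 : p = 2
      · subst hp2
        have h4 : n ^ 2 ≡ 0 [MOD 2] := h3.trans (by decide)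
        have h5 : 2 ∣ n := Nat.Prime.dvd_of_dvd_pow Nat.prime_two ((Nat.modEq_zero_iff_dvd).1 h4)
        have h6 := (Nat.prime_dvd_prime_iff_eq Nat.prime_two hn'.2).1 h5
        omega
      · haveI : Fact p.Prime := ⟨hpp⟩
        apply hpn
        refine ⟨hpp, (ZMod.exists_sq_eq_two_iff hp2).1 ⟨(n : ZMod p), ?_⟩⟩
        have h4 := (ZMod.natCast_eq_natCast_iff _ _ _).2 h3
        push_cast at h4
        rw [← h4]
        ring
    rw [h1, h2, card_empty, Nat.cast_zero, mul_zero, sub_zero, abs_zero]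
    positivity
  · obtain ⟨q, hq⟩ : ∃ q, q = pd S := ⟨_, rfl⟩
    have hq0 : 0 < q := by
      rw [hq]
      exact prod_pos fun p hp => (hS p hp).pos
    have hpq : ∀ p ∈ S, p ∣ q := by
      intro p hp
      rw [hq]
      exact dvd_prod_of_mem _ hp
    obtain ⟨R, hR⟩ : ∃ R : Finset ℕ, R = (range q).filter (fun c => ∀ p ∈ S, c ^ 2 ≡ 2 [MOD p]) := ⟨_, rfl⟩
    have hRc : #R = 2 ^ #S := by
      have h1 := Pool.Agent.Work.MP_2dba45_nt.Crt.card_crt (fun p t => t ^ 2 ≡ 2 [MOD p]) S hS
        (fun p _ t => loc_per p t)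
      have h2 : ∀ p ∈ S, Pool.Agent.Work.MP_2dba45_nt.Crt.rho (fun p t => t ^ 2 ≡ 2 [MOD p]) p = 2 := by
        intro p hp
        unfold Pool.Agent.Work.MP_2dba45_nt.Crt.rho
        refine Eq.trans ?_ (loc_two (hall p hp))
        congr
      rw [prod_congr rfl h2, prod_const] at h1
      rw [hR, hq, ← h1]
      unfold pd
      congr
    have hRcop : ∀ c ∈ R, Nat.Coprime c q := by
      intro c hc
      rw [hR, mem_filter] at hc
      rw [hq]
      unfold pd
      rw [Nat.coprime_prod_right_iff]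
      intro p hp
      exact loc_cop (hall p hp) (hc.2 p hp)
    -- the count in the classes
    have hcount : (#(AN N S) : ℝ) = ∑ c ∈ R, ((pic (2 * N) q c : ℝ) - pic N q c) := by
      have h1 : #(AN N S) = ∑ c ∈ R, #((AN N S).filter (fun n => n % q = c)) := by
        refine card_eq_sum_card_fiberwise fun n hn => ?_
        rw [mem_coe, hR, mem_filter, mem_range]
        refine ⟨Nat.mod_lt _ hq0, fun p hp => ?_⟩
        have hn1 := mem_filter.1 (mem_coe.1 hn)
        have hn2 := mem_filter.1 hn1.1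
        rw [mem_Ioc] at hn2
        have h3 := (loc_dvd (by omega : 2 ≤ n)).1 (hn1.2 p hp)
        rw [loc_per, Nat.mod_mod_of_dvd _ (hpq p hp), ← loc_per]
        exact h3
      rw [h1, Nat.cast_sum]
      refine sum_congr rfl fun c hc => ?_
      have hc' := hc
      rw [hR, mem_filter, mem_range] at hc'
      have h2 : (AN N S).filter (fun n => n % q = c) =
          (Ioc N (2 * N)).filter (fun n => n.Prime ∧ n % q = c % q) := by
        ext n
        unfold AN PN
        rw [mem_filter, mem_filter, mem_filter, mem_filter, Nat.mod_eq_of_lt hc'.1]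
        constructor
        · rintro ⟨⟨⟨h3, h4⟩, _⟩, h6⟩
          exact ⟨h3, h4, h6⟩
        · rintro ⟨h3, h4, h6⟩
          refine ⟨⟨⟨h3, h4⟩, fun p hp => ?_⟩, h6⟩
          rw [mem_Ioc] at h3
          rw [loc_dvd (by omega : 2 ≤ n), loc_per, ← Nat.mod_mod_of_dvd n (hpq p hp), h6, ← loc_per]
          exact hc'.2 p hp
      rw [h2, loc_split]
      rfl
    have hPN : (#(PN N) : ℝ) = Nat.primeCounting (2 * N) - Nat.primeCounting N := by
      unfold PN
      rw [loc_split, loc_pi, loc_pi]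
    have hhh : hh S = #R * ((Nat.totient q : ℕ) : ℝ)⁻¹ := by
      have h1 : hh S = ∏ p ∈ S, (2 * (1 / ((p : ℝ) - 1))) := by
        unfold hh
        refine prod_congr rfl fun p hp' => ?_
        unfold hp
        rw [if_pos (hall p hp')]
        ring
      rw [h1, prod_mul_distrib, prod_const, ← loc_totient S hS, hRc, hq]
      push_cast
      rfl
    have hdiff : (#(AN N S) : ℝ) - #(PN N) * hh S = ∑ c ∈ R,
        (((pic (2 * N) q c : ℝ) - (Nat.primeCounting (2 * N) : ℝ) / Nat.totient q) -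
          ((pic N q c : ℝ) - (Nat.primeCounting N : ℝ) / Nat.totient q)) := by
      have h1 : ((Nat.primeCounting (2 * N) : ℝ) - Nat.primeCounting N) *
          (#R * ((Nat.totient q : ℕ) : ℝ)⁻¹) = ∑ _c ∈ R,
            ((Nat.primeCounting (2 * N) : ℝ) - Nat.primeCounting N) * ((Nat.totient q : ℕ) : ℝ)⁻¹ := by
        rw [sum_const, nsmul_eq_mul]
        ring
      rw [hcount, hPN, hhh, h1, ← sum_sub_distrib]
      refine sum_congr rfl fun c _ => ?_
      ring
    rw [hdiff]
    refine (abs_sum_le_sum_abs _ _).trans ?_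
    have h1 : ∀ c ∈ R, |((pic (2 * N) q c : ℝ) - (Nat.primeCounting (2 * N) : ℝ) / Nat.totient q) -
          ((pic N q c : ℝ) - (Nat.primeCounting N : ℝ) / Nat.totient q)| ≤ mx (2 * N) q + mx N q := by
      intro c hc
      exact (abs_sub _ _).trans (add_le_add (mx_ge _ _ _ hq0 (hRcop c hc)) (mx_ge _ _ _ hq0 (hRcop c hc)))
    refine (sum_le_sum h1).trans ?_
    rw [sum_const, nsmul_eq_mul, hRc, hq]
    push_cast
    exact le_rfl

end Pool.Agent.Work.MP_c971ef_nt.R5
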