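import Mathlib
import Pool.Agent.Work.MP_c971ef_nt.R5.Loc
import Pool.Agent.Work.MP_70e905_nt.MT.B3
import Pool.Agent.Work.BV.PIV

set_option autoImplicit false

/-!
Module RemS (size S-M). Total remainder (Bombieri-Vinogradov). By `loc` the left side is at most the sum over
S ⊆ PR N, pd S ≤ N^(499/1000) ≤ (2N)^(499/1000), of (2H)^#S (mx (2N) (pd S) + mx N (pd S)); apply `MT.wt (499/1000) _ hLD (2 * H) A` with
Y = 2N, y = 2N and y = N, m₀ = 1, P = PR N, where hLD = `BV.ld_all (499/1000) (by norm_num)` (as in CP/F4.lean).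
C * (2N) / (log (2N))^A ≤ 2 C N / (log N)^A.
-/

namespace Pool.Agent.Work.MP_c971ef_nt.R5

open Finset

theorem rem_total (H A : ℕ) : ∃ C : ℝ, 0 < C ∧ ∀ N : ℕ, 3 ≤ N → ∀ Λ : Finset ℕ → ℝ,
    (∀ S, |Λ S| ≤ (H : ℝ) ^ #S) →
    (∀ S, Λ S ≠ 0 → ((∏ p ∈ S, p : ℕ) : ℝ) ≤ (N : ℝ) ^ ((499 : ℝ) / 1000)) →
    |∑ S ∈ (PR N).powerset, Λ S * ((#(AN N S) : ℝ) - #(PN N) * hh S)| ≤
      C * N / (Real.log N) ^ A := by
  classical
  have hLD : MP_70e905_nt.MT.LD (499 / 1000) := BV.ld_all (499 / 1000) (by norm_num)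
  obtain ⟨C, hC, h⟩ := MP_70e905_nt.MT.wt (499 / 1000) (by norm_num) hLD (2 * H) A
  refine ⟨4 * C, by positivity, fun N hN Λ h1 h2 => ?_⟩
  have hNr : (3 : ℝ) ≤ N := by exact_mod_cast hN
  have hP : ∀ p ∈ PR N, p.Prime ∧ p ≤ 2 * N := by
    intro p hp
    unfold PR at hp
    rw [mem_filter, mem_range] at hp
    exact ⟨hp.2, by omega⟩
  have hpow : (N : ℝ) ^ ((499 : ℝ) / 1000) ≤ ((2 * N : ℕ) : ℝ) ^ ((499 : ℝ) / 1000) := by
    apply Real.rpow_le_rpow (by positivity) _ (by norm_num)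
    push_cast
    linarith
  let 𝓕 := (PR N).powerset.filter (fun T =>
    ((1 * MP_70e905_nt.MT.pd T : ℕ) : ℝ) ≤ ((2 * N : ℕ) : ℝ) ^ ((499 : ℝ) / 1000))
  have hF : ∀ y : ℕ, y ≤ 2 * N → ∑ T ∈ 𝓕, ((2 * H : ℕ) : ℝ) ^ #T *
      MP_70e905_nt.MT.mx y (1 * MP_70e905_nt.MT.pd T) ≤
        C * (2 * N : ℕ) / (Real.log (2 * N : ℕ)) ^ A := fun y hy =>
    h (2 * N) (by omega) y hy 1 le_rfl (PR N) hP
  have hlog : 0 < Real.log N := Real.log_pos (by linarith)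
  have hlog2 : Real.log N ≤ Real.log ((2 * N : ℕ) : ℝ) := by
    apply Real.log_le_log (by linarith)
    push_cast
    linarith
  have hfin : C * (2 * N : ℕ) / (Real.log (2 * N : ℕ)) ^ A ≤ 2 * C * N / (Real.log N) ^ A := by
    have h3 : (Real.log N) ^ A ≤ (Real.log ((2 * N : ℕ) : ℝ)) ^ A :=
      pow_le_pow_left₀ hlog.le hlog2 A
    have h4 : C * ((2 * N : ℕ) : ℝ) = 2 * C * N := by
      push_cast
      ring
    rw [h4]
    exact div_le_div_of_nonneg_left (by positivity) (by positivity) h3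
  have hterm : ∀ S ∈ (PR N).powerset, |Λ S * ((#(AN N S) : ℝ) - #(PN N) * hh S)| ≤
      if S ∈ 𝓕 then ((2 * H : ℕ) : ℝ) ^ #S * MP_70e905_nt.MT.mx (2 * N) (1 * MP_70e905_nt.MT.pd S) +
        ((2 * H : ℕ) : ℝ) ^ #S * MP_70e905_nt.MT.mx N (1 * MP_70e905_nt.MT.pd S) else 0 := by
    intro S hS
    by_cases h0 : Λ S = 0
    · rw [h0, zero_mul, abs_zero]
      split_ifs
      · have h5 := MP_70e905_nt.MT.mx_nn (2 * N) (1 * MP_70e905_nt.MT.pd S)
        have h6 := MP_70e905_nt.MT.mx_nn N (1 * MP_70e905_nt.MT.pd S)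
        positivity
      · exact le_rfl
    · have h3 := h2 S h0
      have hmem : S ∈ 𝓕 := by
        rw [mem_filter]
        refine ⟨hS, ?_⟩
        rw [one_mul]
        exact h3.trans hpow
      rw [if_pos hmem, abs_mul, one_mul]
      have h4 := loc N (by omega) S (fun p hp => by
        have h5 := mem_powerset.1 hS hp
        exact (hP p h5).1)
      have h5 := MP_70e905_nt.MT.mx_nn (2 * N) (MP_70e905_nt.MT.pd S)
      have h6 := MP_70e905_nt.MT.mx_nn N (MP_70e905_nt.MT.pd S)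
      calc |Λ S| * |(#(AN N S) : ℝ) - #(PN N) * hh S|
          ≤ (H : ℝ) ^ #S * (2 ^ #S * (MP_70e905_nt.MT.mx (2 * N) (MP_70e905_nt.MT.pd S) +
              MP_70e905_nt.MT.mx N (MP_70e905_nt.MT.pd S))) :=
            mul_le_mul (h1 S) h4 (abs_nonneg _) (by positivity)
        _ = _ := by
            push_cast
            rw [mul_pow]
            ring
  calc |∑ S ∈ (PR N).powerset, Λ S * ((#(AN N S) : ℝ) - #(PN N) * hh S)|
      ≤ ∑ S ∈ (PR N).powerset, |Λ S * ((#(AN N S) : ℝ) - #(PN N) * hh S)| :=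
        Finset.abs_sum_le_sum_abs _ _
    _ ≤ ∑ S ∈ (PR N).powerset, (if S ∈ 𝓕 then
          ((2 * H : ℕ) : ℝ) ^ #S * MP_70e905_nt.MT.mx (2 * N) (1 * MP_70e905_nt.MT.pd S) +
          ((2 * H : ℕ) : ℝ) ^ #S * MP_70e905_nt.MT.mx N (1 * MP_70e905_nt.MT.pd S) else 0) :=
        Finset.sum_le_sum hterm
    _ = ∑ S ∈ 𝓕, (((2 * H : ℕ) : ℝ) ^ #S *
          MP_70e905_nt.MT.mx (2 * N) (1 * MP_70e905_nt.MT.pd S) +
          ((2 * H : ℕ) : ℝ) ^ #S * MP_70e905_nt.MT.mx N (1 * MP_70e905_nt.MT.pd S)) := by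
        rw [← Finset.sum_filter]
        refine Finset.sum_congr ?_ fun _ _ => rfl
        ext S
        rw [mem_filter]
        exact ⟨fun h => h.2, fun h => ⟨(mem_filter.1 h).1, h⟩⟩
    _ ≤ C * (2 * N : ℕ) / (Real.log (2 * N : ℕ)) ^ A +
          C * (2 * N : ℕ) / (Real.log (2 * N : ℕ)) ^ A := by
        rw [Finset.sum_add_distrib]
        exact add_le_add (hF (2 * N) le_rfl) (hF N (by omega))
    _ ≤ 2 * C * N / (Real.log N) ^ A + 2 * C * N / (Real.log N) ^ A := add_le_add hfin hfin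
    _ = 4 * C * N / (Real.log N) ^ A := by ring

end Pool.Agent.Work.MP_c971ef_nt.R5
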