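import Mathlib
import Pool.Agent.Work.MP_c971ef_nt.R5.RemS
import Pool.Agent.Work.MP_c971ef_nt.R5.Expd
import Pool.Agent.Work.MP_73869e_nt.P5.PhB

set_option autoImplicit false

/-!
Module RemT (size M). Sums over E, d, T of #(AN N (E ∪ d ∪ T)) for weights `a E d` (both `lp` and `dp` satisfy the
hypotheses) and `t T` (both `ph k N T` and its absolute value do).
(1) For N large: Z = Zs δ N and P = PQ (pw N δ) N are disjoint, Z ∪ P ⊆ PR N (pw N δ ≤ N), and every E in ES C δ N is ⊆ Z with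
product ≤ N^(1/1000) (p < N^δ for p in E, #E = C, δ C ≤ 1/1000).
(2) `expand` twice, with F S = #(AN N S) and F S = #(PN N) * hh S; hh (E ∪ d ∪ T) = hh E * hh d * hh T (disjoint unions).
(3) `rem_total 4 A` with Λ S = (sum over E in ES, E ⊆ S, of a E ((S ∩ Z) \ E)) * t (S ∩ P) for S ⊆ Z ∪ P and 0 otherwise:
|Λ S| ≤ 2^#S * #S ≤ 4^#S for #S ≥ 1 (|a E d| ≤ #d for d nonempty and |a E ∅| ≤ 1, so |a E d| ≤ max 1 #d ≤ 2^#d: take |Λ S| ≤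
2^#S * 2^#S), and Λ S ≠ 0 gives E ⊆ S with a E ((S ∩ Z) \ E) ≠ 0, t (S ∩ P) ≠ 0, S = E ∪ ((S ∩ Z) \ E) ∪ (S ∩ P), so the product of S
is ≤ N^(1/1000) * (pw N δ)^(4b+10) * N^(495/1000) ≤ N^(499/1000) for N ≥ N₀ (pw N δ ≤ 2 N^δ, δ (4b+10) ≤ 1/1000,
2^(4b+10) ≤ N^(1/1000)).
-/

namespace Pool.Agent.Work.MP_c971ef_nt.R5

open Finset Pool.Agent.Work.MP_2dba45_nt.Sv

private theorem rt_pw_le {N : ℕ} (hN : 1 ≤ N) {δ : ℝ} (hδ1 : δ ≤ 1 / 10) : pw N δ ≤ N := by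
  unfold pw
  refine Nat.ceil_le.2 ?_
  have h1 : (1 : ℝ) ≤ N := by exact_mod_cast hN
  calc (N : ℝ) ^ δ ≤ (N : ℝ) ^ (1 : ℝ) :=
        Real.rpow_le_rpow_of_exponent_le h1 (by linarith)
    _ = N := Real.rpow_one _

private theorem rt_pw_le2 {N : ℕ} (hN : 1 ≤ N) {δ : ℝ} (hδ : 0 < δ) :
    (pw N δ : ℝ) ≤ 2 * (N : ℝ) ^ δ := by
  have h0 : (1 : ℝ) ≤ N := by exact_mod_cast hN
  have h1 : (1 : ℝ) ≤ (N : ℝ) ^ δ := Real.one_le_rpow h0 hδ.le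
  have h2 := Nat.ceil_lt_add_one (show (0 : ℝ) ≤ (N : ℝ) ^ δ by linarith)
  unfold pw
  linarith

private theorem rt_prodE {N C : ℕ} (hN : 1 ≤ N) {δ : ℝ} (hδC : δ * C ≤ 1 / 1000)
    {E : Finset ℕ} (hE : E ∈ ES C δ N) :
    ((∏ p ∈ E, p : ℕ) : ℝ) ≤ (N : ℝ) ^ ((1 : ℝ) / 1000) := by
  have h0 : (1 : ℝ) ≤ N := by exact_mod_cast hN
  unfold ES at hE
  rw [mem_powersetCard] at hE
  have h1 : ∀ p ∈ E, (p : ℝ) ≤ (N : ℝ) ^ δ := by
    intro p hp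
    have h2 := hE.1 hp
    unfold Zw at h2
    rw [mem_filter] at h2
    have h3 := h2.1
    unfold Zs at h3
    rw [mem_filter, mem_range] at h3
    have h4 := h3.1
    unfold pw at h4
    exact (Nat.lt_ceil.1 h4).le
  rw [Nat.cast_prod]
  calc ∏ p ∈ E, (p : ℝ) ≤ ∏ _p ∈ E, (N : ℝ) ^ δ :=
        prod_le_prod (fun p _ => Nat.cast_nonneg p) h1
    _ = ((N : ℝ) ^ δ) ^ C := by rw [prod_const, hE.2]
    _ = (N : ℝ) ^ (δ * C) := by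
        rw [← Real.rpow_natCast, ← Real.rpow_mul (by linarith)]
    _ ≤ _ := Real.rpow_le_rpow_of_exponent_le h0 hδC

private theorem rt_pwb {N b : ℕ} (hN : 1 ≤ N) {δ : ℝ} (hδ : 0 < δ)
    (hδb : δ * (4 * b + 10) ≤ 1 / 1000)
    (hpow : (2 : ℝ) ^ (4 * b + 10) ≤ (N : ℝ) ^ ((1 : ℝ) / 1000)) :
    (pw N δ : ℝ) ^ (4 * b + 10) ≤ (N : ℝ) ^ ((2 : ℝ) / 1000) := by
  have h0 : (1 : ℝ) ≤ N := by exact_mod_cast hN
  have h1 := rt_pw_le2 hN hδ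
  calc (pw N δ : ℝ) ^ (4 * b + 10) ≤ (2 * (N : ℝ) ^ δ) ^ (4 * b + 10) :=
        pow_le_pow_left₀ (Nat.cast_nonneg _) h1 _
    _ = (2 : ℝ) ^ (4 * b + 10) * ((N : ℝ) ^ δ) ^ (4 * b + 10) := mul_pow _ _ _
    _ = (2 : ℝ) ^ (4 * b + 10) * (N : ℝ) ^ (δ * (4 * b + 10)) := by
        rw [← Real.rpow_natCast ((N : ℝ) ^ δ), ← Real.rpow_mul (by linarith)]
        push_cast
        rfl
    _ ≤ (N : ℝ) ^ ((1 : ℝ) / 1000) * (N : ℝ) ^ ((1 : ℝ) / 1000) := by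
        refine mul_le_mul hpow (Real.rpow_le_rpow_of_exponent_le h0 hδb) ?_ ?_
        · exact Real.rpow_nonneg (by linarith) _
        · exact Real.rpow_nonneg (by linarith) _
    _ = (N : ℝ) ^ ((2 : ℝ) / 1000) := by
        rw [← Real.rpow_add (by linarith)]
        norm_num

private theorem rt_disj (δ : ℝ) (N : ℕ) : Disjoint (Zs δ N) (PQ (pw N δ) N) := by
  rw [Finset.disjoint_left]
  intro p h1 h2
  unfold Zs at h1
  unfold PQ at h2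
  rw [mem_filter, mem_range] at h1
  rw [mem_filter, mem_Ico] at h2
  omega

private theorem rt_sub {N : ℕ} (hN : 1 ≤ N) {δ : ℝ} (hδ1 : δ ≤ 1 / 10) :
    Zs δ N ∪ PQ (pw N δ) N ⊆ PR N := by
  have hz := rt_pw_le hN hδ1
  intro p hp
  rw [mem_union] at hp
  unfold PR
  rw [mem_filter, mem_range]
  rcases hp with hp | hp
  · unfold Zs at hp
    rw [mem_filter, mem_range] at hp
    exact ⟨by omega, hp.2.1⟩
  · unfold PQ at hp
    rw [mem_filter, mem_Ico] at hp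
    exact ⟨by omega, hp.2⟩

private theorem rt_ESsub {C N : ℕ} {δ : ℝ} {E : Finset ℕ} (hE : E ∈ ES C δ N) : E ⊆ Zs δ N := by
  unfold ES at hE
  rw [mem_powersetCard] at hE
  intro p hp
  have h1 := hE.1 hp
  unfold Zw at h1
  rw [mem_filter] at h1
  exact h1.1

private theorem rt_hh {Z P E d T : Finset ℕ} (hZP : Disjoint Z P) (hE : E ⊆ Z) (hd : d ⊆ Z \ E)
    (hT : T ⊆ P) : hh (E ∪ d ∪ T) = hh E * hh d * hh T := by
  have h1 : Disjoint E d := by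
    rw [Finset.disjoint_left]
    intro x hx hx'
    exact (mem_sdiff.1 (hd hx')).2 hx
  have h2 : Disjoint (E ∪ d) T := by
    rw [Finset.disjoint_left]
    intro x hx hx'
    rw [mem_union] at hx
    rcases hx with hx | hx
    · exact Finset.disjoint_left.1 hZP (hE hx) (hT hx')
    · exact Finset.disjoint_left.1 hZP (mem_sdiff.1 (hd hx)).1 (hT hx')
  unfold hh
  rw [prod_union h2, prod_union h1]

/-- the coefficients -/
private noncomputable def rtL (C N : ℕ) (δ : ℝ) (a : Finset ℕ → Finset ℕ → ℝ) (t : Finset ℕ → ℝ)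
    (S : Finset ℕ) : ℝ :=
  (∑ E ∈ (ES C δ N).filter (fun E => E ⊆ S), a E ((S ∩ Zs δ N) \ E)) * t (S ∩ PQ (pw N δ) N)

private theorem rtL_le {C N : ℕ} {δ : ℝ} {a : Finset ℕ → Finset ℕ → ℝ} {t : Finset ℕ → ℝ}
    (ha : ∀ E d, |a E d| ≤ max 1 (#d : ℝ)) (ht : ∀ T, |t T| ≤ 1) (S : Finset ℕ) :
    |rtL C N δ a t S| ≤ ((4 : ℕ) : ℝ) ^ #S := by
  have h1 : ∀ E ∈ (ES C δ N).filter (fun E => E ⊆ S), |a E ((S ∩ Zs δ N) \ E)| ≤ (2 : ℝ) ^ #S := by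
    intro E _
    refine (ha _ _).trans (max_le (one_le_pow₀ (by norm_num)) ?_)
    have h2 : #((S ∩ Zs δ N) \ E) ≤ #S :=
      card_le_card (sdiff_subset.trans inter_subset_left)
    have h3 : #S < 2 ^ #S := Nat.lt_two_pow_self
    have h4 : #((S ∩ Zs δ N) \ E) ≤ 2 ^ #S := by omega
    exact_mod_cast h4
  have h2 : #((ES C δ N).filter (fun E => E ⊆ S)) ≤ 2 ^ #S := by
    rw [← card_powerset]
    refine card_le_card fun E hE => ?_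
    rw [mem_filter] at hE
    exact mem_powerset.2 hE.2
  have h3 : |∑ E ∈ (ES C δ N).filter (fun E => E ⊆ S), a E ((S ∩ Zs δ N) \ E)| ≤
      (2 : ℝ) ^ #S * (2 : ℝ) ^ #S := by
    calc |∑ E ∈ (ES C δ N).filter (fun E => E ⊆ S), a E ((S ∩ Zs δ N) \ E)|
        ≤ ∑ E ∈ (ES C δ N).filter (fun E => E ⊆ S), |a E ((S ∩ Zs δ N) \ E)| :=
          abs_sum_le_sum_abs _ _
      _ ≤ ∑ _E ∈ (ES C δ N).filter (fun E => E ⊆ S), (2 : ℝ) ^ #S := sum_le_sum h1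
      _ = #((ES C δ N).filter (fun E => E ⊆ S)) * (2 : ℝ) ^ #S := by
          rw [sum_const, nsmul_eq_mul]
      _ ≤ (2 : ℝ) ^ #S * (2 : ℝ) ^ #S := by
          refine mul_le_mul_of_nonneg_right ?_ (by positivity)
          exact_mod_cast h2
  unfold rtL
  rw [abs_mul]
  calc |∑ E ∈ (ES C δ N).filter (fun E => E ⊆ S), a E ((S ∩ Zs δ N) \ E)| *
        |t (S ∩ PQ (pw N δ) N)| ≤ ((2 : ℝ) ^ #S * (2 : ℝ) ^ #S) * 1 :=
        mul_le_mul h3 (ht _) (abs_nonneg _) (by positivity)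
    _ = ((4 : ℕ) : ℝ) ^ #S := by
        rw [mul_one, ← mul_pow]
        norm_num

private theorem rtL_supp {C b N : ℕ} (hN : 1 ≤ N) {δ : ℝ} (hδ : 0 < δ) (hδC : δ * C ≤ 1 / 1000)
    (hδb : δ * (4 * b + 10) ≤ 1 / 1000)
    (hpow : (2 : ℝ) ^ (4 * b + 10) ≤ (N : ℝ) ^ ((1 : ℝ) / 1000))
    {a : Finset ℕ → Finset ℕ → ℝ} {t : Finset ℕ → ℝ}
    (ha : ∀ E d, a E d ≠ 0 → ((∏ p ∈ d, p : ℕ) : ℝ) ≤ (pw N δ : ℝ) ^ (4 * b + 10))
    (ht : ∀ T ⊆ PQ (pw N δ) N, t T ≠ 0 →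
      ((∏ p ∈ T, p : ℕ) : ℝ) ≤ (N : ℝ) ^ ((495 : ℝ) / 1000))
    {S : Finset ℕ} (hS : S ⊆ Zs δ N ∪ PQ (pw N δ) N) (h : rtL C N δ a t S ≠ 0) :
    ((∏ p ∈ S, p : ℕ) : ℝ) ≤ (N : ℝ) ^ ((499 : ℝ) / 1000) := by
  have h0 : (1 : ℝ) ≤ N := by exact_mod_cast hN
  unfold rtL at h
  have h1 := left_ne_zero_of_mul h
  have h2 := right_ne_zero_of_mul h
  obtain ⟨E, hE, hE0⟩ := exists_ne_zero_of_sum_ne_zero h1
  rw [mem_filter] at hE
  have hdis := rt_disj δ N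
  have h3 := rt_prodE hN hδC hE.1
  have h4 := (ha _ _ hE0).trans (rt_pwb hN hδ hδb hpow)
  have h5 := ht _ inter_subset_right h2
  have hEZ := rt_ESsub hE.1
  have hSe : S = E ∪ ((S ∩ Zs δ N) \ E) ∪ (S ∩ PQ (pw N δ) N) := by
    ext x
    simp only [mem_union, mem_sdiff, mem_inter]
    constructor
    · intro hx
      rcases mem_union.1 (hS hx) with h6 | h6
      · by_cases h7 : x ∈ E
        · exact Or.inl (Or.inl h7)
        · exact Or.inl (Or.inr ⟨⟨hx, h6⟩, h7⟩)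
      · exact Or.inr ⟨hx, h6⟩
    · rintro ((h6 | h6) | h6)
      · exact hE.2 h6
      · exact h6.1.1
      · exact h6.1
  have hd1 : Disjoint E ((S ∩ Zs δ N) \ E) := by
    rw [Finset.disjoint_left]
    intro x hx hx'
    exact (mem_sdiff.1 hx').2 hx
  have hd2 : Disjoint (E ∪ ((S ∩ Zs δ N) \ E)) (S ∩ PQ (pw N δ) N) := by
    rw [Finset.disjoint_left]
    intro x hx hx'
    rw [mem_union] at hx
    rcases hx with hx | hx
    · exact Finset.disjoint_left.1 hdis (hEZ hx) (mem_inter.1 hx').2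
    · exact Finset.disjoint_left.1 hdis (mem_inter.1 (mem_sdiff.1 hx).1).2 (mem_inter.1 hx').2
  have hprod : (∏ p ∈ S, p : ℕ) = (∏ p ∈ E, p) * (∏ p ∈ (S ∩ Zs δ N) \ E, p) *
      ∏ p ∈ S ∩ PQ (pw N δ) N, p := by
    conv_lhs => rw [hSe]
    rw [prod_union hd2, prod_union hd1]
  rw [hprod, Nat.cast_mul, Nat.cast_mul]
  calc ((∏ p ∈ E, p : ℕ) : ℝ) * ((∏ p ∈ (S ∩ Zs δ N) \ E, p : ℕ) : ℝ) *
        ((∏ p ∈ S ∩ PQ (pw N δ) N, p : ℕ) : ℝ)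
      ≤ (N : ℝ) ^ ((1 : ℝ) / 1000) * (N : ℝ) ^ ((2 : ℝ) / 1000) * (N : ℝ) ^ ((495 : ℝ) / 1000) := by
        refine mul_le_mul (mul_le_mul h3 h4 (Nat.cast_nonneg _) ?_) h5 (Nat.cast_nonneg _) ?_
        · exact Real.rpow_nonneg (by linarith) _
        · exact mul_nonneg (Real.rpow_nonneg (by linarith) _) (Real.rpow_nonneg (by linarith) _)
    _ = (N : ℝ) ^ ((498 : ℝ) / 1000) := by
        rw [← Real.rpow_add (by linarith), ← Real.rpow_add (by linarith)]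
        norm_num
    _ ≤ _ := Real.rpow_le_rpow_of_exponent_le h0 (by norm_num)

theorem rem_all (C b A : ℕ) (δ : ℝ) (hδ : 0 < δ) (hδ1 : δ ≤ 1 / 10) (hδC : δ * C ≤ 1 / 1000)
    (hδb : δ * (4 * b + 10) ≤ 1 / 1000) : ∃ (C₀ : ℝ) (N₀ : ℕ), 0 < C₀ ∧ ∀ N : ℕ, N₀ ≤ N →
    ∀ (a : Finset ℕ → Finset ℕ → ℝ) (t : Finset ℕ → ℝ), (∀ E d, |a E d| ≤ max 1 (#d : ℝ)) →
    (∀ E d, a E d ≠ 0 → ((∏ p ∈ d, p : ℕ) : ℝ) ≤ (pw N δ : ℝ) ^ (4 * b + 10)) →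
    (∀ T, |t T| ≤ 1) →
    (∀ T ⊆ PQ (pw N δ) N, t T ≠ 0 → ((∏ p ∈ T, p : ℕ) : ℝ) ≤ (N : ℝ) ^ ((495 : ℝ) / 1000)) →
    |∑ E ∈ ES C δ N, ∑ d ∈ (Zs δ N \ E).powerset, ∑ T ∈ (PQ (pw N δ) N).powerset,
        a E d * t T * (#(AN N (E ∪ d ∪ T)) : ℝ) -
      #(PN N) * ∑ E ∈ ES C δ N, hh E * ((∑ d ∈ (Zs δ N \ E).powerset, a E d * hh d) *
        ∑ T ∈ (PQ (pw N δ) N).powerset, t T * hh T)| ≤ C₀ * N / (Real.log N) ^ A := by
  classical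
  obtain ⟨C₁, hC₁, hrem⟩ := rem_total 4 A
  refine ⟨C₁, max 3 ((2 ^ (4 * b + 10)) ^ 1000), hC₁, fun N hN a t ha1 ha2 ht1 ht2 => ?_⟩
  have hN3 : 3 ≤ N := le_trans (le_max_left _ _) hN
  have hN1 : 1 ≤ N := by omega
  have hNb : (2 ^ (4 * b + 10)) ^ 1000 ≤ N := le_trans (le_max_right _ _) hN
  have hpow : (2 : ℝ) ^ (4 * b + 10) ≤ (N : ℝ) ^ ((1 : ℝ) / 1000) := by
    have h1 : ((2 : ℝ) ^ (4 * b + 10)) ^ (1000 : ℕ) ≤ N := by exact_mod_cast hNb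
    have h2 : (0 : ℝ) ≤ (2 : ℝ) ^ (4 * b + 10) := by positivity
    calc (2 : ℝ) ^ (4 * b + 10) = (((2 : ℝ) ^ (4 * b + 10)) ^ (1000 : ℕ)) ^ ((1 : ℝ) / 1000) := by
          rw [← Real.rpow_natCast _ 1000, ← Real.rpow_mul h2]
          norm_num
      _ ≤ _ := Real.rpow_le_rpow (by positivity) h1 (by norm_num)
  have hdis := rt_disj δ N
  have hsub := rt_sub hN1 hδ1
  have e1 := expand (Zs δ N) (PQ (pw N δ) N) hdis (ES C δ N) (fun E hE => rt_ESsub hE) a t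
    (fun S => (#(AN N S) : ℝ))
  have e2 := expand (Zs δ N) (PQ (pw N δ) N) hdis (ES C δ N) (fun E hE => rt_ESsub hE) a t
    (fun S => (#(PN N) : ℝ) * hh S)
  have e3 : #(PN N) * ∑ E ∈ ES C δ N, hh E * ((∑ d ∈ (Zs δ N \ E).powerset, a E d * hh d) *
      ∑ T ∈ (PQ (pw N δ) N).powerset, t T * hh T) =
      ∑ E ∈ ES C δ N, ∑ d ∈ (Zs δ N \ E).powerset, ∑ T ∈ (PQ (pw N δ) N).powerset,
        a E d * t T * ((#(PN N) : ℝ) * hh (E ∪ d ∪ T)) := by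
    rw [Finset.mul_sum]
    refine Finset.sum_congr rfl fun E hE => ?_
    rw [Finset.sum_mul_sum, Finset.mul_sum, Finset.mul_sum]
    refine Finset.sum_congr rfl fun d hd => ?_
    rw [Finset.mul_sum, Finset.mul_sum]
    refine Finset.sum_congr rfl fun T hT => ?_
    rw [rt_hh hdis (rt_ESsub hE) (mem_powerset.1 hd) (mem_powerset.1 hT)]
    ring
  rw [e1, e3, e2, ← Finset.sum_sub_distrib]
  have e4 : ∑ S ∈ (Zs δ N ∪ PQ (pw N δ) N).powerset,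
      ((∑ E ∈ (ES C δ N).filter (fun E => E ⊆ S), a E ((S ∩ Zs δ N) \ E)) *
          t (S ∩ PQ (pw N δ) N) * (#(AN N S) : ℝ) -
        (∑ E ∈ (ES C δ N).filter (fun E => E ⊆ S), a E ((S ∩ Zs δ N) \ E)) *
          t (S ∩ PQ (pw N δ) N) * ((#(PN N) : ℝ) * hh S)) =
      ∑ S ∈ (PR N).powerset, (if S ⊆ Zs δ N ∪ PQ (pw N δ) N then rtL C N δ a t S else 0) *
        ((#(AN N S) : ℝ) - #(PN N) * hh S) := by
    rw [← Finset.sum_subset (Finset.powerset_mono.2 hsub) (fun S _ hS => by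
      rw [mem_powerset] at hS
      rw [if_neg hS, zero_mul])]
    refine Finset.sum_congr rfl fun S hS => ?_
    rw [if_pos (mem_powerset.1 hS)]
    unfold rtL
    ring
  rw [e4]
  refine hrem N hN3 _ (fun S => ?_) (fun S hS => ?_)
  · split_ifs
    · exact rtL_le ha1 ht1 S
    · rw [abs_zero]
      positivity
  · split_ifs at hS with h1
    · exact rtL_supp hN1 hδ hδC hδb hpow ha2 ht2 h1 hS
    · exact absurd rfl hS

end Pool.Agent.Work.MP_c971ef_nt.R5
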