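import Mathlib
import Pool.Agent.Work.MP_c971ef_nt.R5.Vz

set_option autoImplicit false

/-!
Module SumE (size S-M). The sum of `hh E` over the sets of `C` small prime factors.
(1) S := sum of `hp` over `Zw δ N` ≥ (1/2) loglog N for N ≥ N₀(δ): `hp ≥ ho`; `dim1_ho.law` with w = (log N)^10,
x = N^δ: loglog x = loglog N + log δ, loglog w = log (10 loglog N) = o(loglog N). (`Zw δ N` is the set of the
p with `Sp p`, `⌈(log N)^10⌉₊ ≤ p < ⌈N^δ⌉₊`; `ho p = 0` for the other primes.)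
(2) e_C := sum of `hh E` over `powersetCard C`. (C+1) e_{C+1} = sum over E in powersetCard C and p in `Zw \ E` of
hh E * hp p (each set of C+1 elements arises C+1 times) ≥ sum over E of hh E (S - C/3) (`hp ≤ 1/3`, #E = C). So
e_{C+1} ≥ e_C (S - C) / (C+1) ≥ e_C S/(2(C+1)) for S ≥ 2C. Induction on C: e_C ≥ c S^C with c > 0 for S ≥ 2C.
-/

namespace Pool.Agent.Work.MP_c971ef_nt.R5

open Finset

private theorem dbl (Z : Finset ℕ) (h : ℕ → ℝ) (C : ℕ) :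
    ∑ E ∈ Z.powersetCard C, ∑ p ∈ Z \ E, h p * ∏ q ∈ E, h q =
      ((C : ℝ) + 1) * ∑ F ∈ Z.powersetCard (C + 1), ∏ q ∈ F, h q := by
  have h1 : ∀ F ∈ Z.powersetCard (C + 1), ((C : ℝ) + 1) * ∏ q ∈ F, h q =
      ∑ _p ∈ F, ∏ q ∈ F, h q := by
    intro F hF
    rw [sum_const, (mem_powersetCard.1 hF).2, nsmul_eq_mul]
    push_cast
    ring
  rw [mul_sum, sum_congr rfl h1, sum_sigma', sum_sigma']
  refine sum_bij' (fun x _ => ⟨insert x.2 x.1, x.2⟩) (fun y _ => ⟨y.1.erase y.2, y.2⟩) ?_ ?_ ?_ ?_ ?_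
  · rintro ⟨E, p⟩ hx
    simp only [mem_sigma, mem_powersetCard, mem_sdiff] at hx ⊢
    refine ⟨⟨insert_subset hx.2.1 hx.1.1, ?_⟩, mem_insert_self _ _⟩
    rw [card_insert_of_notMem hx.2.2, hx.1.2]
  · rintro ⟨F, p⟩ hy
    simp only [mem_sigma, mem_powersetCard, mem_sdiff] at hy ⊢
    refine ⟨⟨(erase_subset _ _).trans hy.1.1, ?_⟩, hy.1.1 hy.2, notMem_erase _ _⟩
    rw [card_erase_of_mem hy.2, hy.1.2]
    rfl
  · rintro ⟨E, p⟩ hx
    simp only [mem_sigma, mem_powersetCard, mem_sdiff] at hx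
    simp only [erase_insert hx.2.2]
  · rintro ⟨F, p⟩ hy
    simp only [mem_sigma, mem_powersetCard] at hy
    simp only [insert_erase hy.2]
  · rintro ⟨E, p⟩ hx
    simp only [mem_sigma, mem_powersetCard, mem_sdiff] at hx
    simp only [prod_insert hx.2.2]

private theorem esym (C : ℕ) : ∃ c : ℝ, 0 < c ∧ ∀ (Z : Finset ℕ) (h : ℕ → ℝ), (∀ p, 0 ≤ h p) →
    (∀ p, h p ≤ 1) → 2 * (C : ℝ) ≤ ∑ p ∈ Z, h p →
    c * (∑ p ∈ Z, h p) ^ C ≤ ∑ E ∈ Z.powersetCard C, ∏ q ∈ E, h q := by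
  induction C with
  | zero => exact ⟨1, one_pos, fun Z h _ _ _ => by simp⟩
  | succ C ih =>
    obtain ⟨c, hc, ih⟩ := ih
    refine ⟨c / (2 * ((C : ℝ) + 1)), by positivity, fun Z h h0 h1 hS => ?_⟩
    set S := ∑ p ∈ Z, h p with hSd
    push_cast at hS
    have hC0 : (0 : ℝ) ≤ C := Nat.cast_nonneg C
    have ih1 := ih Z h h0 h1 (by linarith)
    have hd := dbl Z h C
    have hprod : ∀ E : Finset ℕ, 0 ≤ ∏ q ∈ E, h q := fun E => prod_nonneg fun q _ => h0 q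
    have hlow : ∑ E ∈ Z.powersetCard C, (S - C) * ∏ q ∈ E, h q ≤
        ∑ E ∈ Z.powersetCard C, ∑ p ∈ Z \ E, h p * ∏ q ∈ E, h q := by
      refine sum_le_sum fun E hE => ?_
      rw [← sum_mul]
      refine mul_le_mul_of_nonneg_right ?_ (hprod E)
      have hE' := mem_powersetCard.1 hE
      have h2 := sum_sdiff hE'.1 (f := h)
      have h3 : ∑ p ∈ E, h p ≤ C := by
        calc ∑ p ∈ E, h p ≤ ∑ _p ∈ E, (1 : ℝ) := sum_le_sum fun p _ => h1 p
          _ = C := by rw [sum_const, hE'.2, nsmul_eq_mul, mul_one]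
      linarith
    rw [← mul_sum, hd] at hlow
    have he0 : 0 ≤ ∑ E ∈ Z.powersetCard C, ∏ q ∈ E, h q := sum_nonneg fun E _ => hprod E
    have hS2 : S / 2 ≤ S - C := by linarith
    have h4 : S / 2 * (c * S ^ C) ≤
        ((C : ℝ) + 1) * ∑ F ∈ Z.powersetCard (C + 1), ∏ q ∈ F, h q := by
      refine le_trans ?_ hlow
      refine mul_le_mul hS2 ih1 ?_ (by linarith)
      have : 0 ≤ S := by linarith
      positivity
    have h5 : c / (2 * ((C : ℝ) + 1)) * S ^ (C + 1) = S / 2 * (c * S ^ C) / ((C : ℝ) + 1) := by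
      rw [pow_succ]
      field_simp
    rw [h5, div_le_iff₀ (by positivity)]
    linarith

private theorem sumS (δ : ℝ) (hδ : 0 < δ) :
    ∀ᶠ N : ℕ in Filter.atTop, 1 / 2 * Real.log (Real.log N) ≤ ∑ p ∈ Zw δ N, hp p := by
  obtain ⟨C, hC0, hC⟩ := dim1_ho.law
  have hcast : Filter.Tendsto (fun N : ℕ => (N : ℝ)) Filter.atTop Filter.atTop :=
    tendsto_natCast_atTop_atTop
  have hlog : Filter.Tendsto (fun N : ℕ => Real.log (N : ℝ)) Filter.atTop Filter.atTop :=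
    Real.tendsto_log_atTop.comp hcast
  have hll : Filter.Tendsto (fun N : ℕ => Real.log (Real.log (N : ℝ))) Filter.atTop Filter.atTop :=
    Real.tendsto_log_atTop.comp hlog
  have e1 : ∀ᶠ L : ℝ in Filter.atTop, Real.log L ≤ 1 / 4 * L := by
    have h1 := (Real.isLittleO_log_id_atTop).bound (show (0 : ℝ) < 1 / 4 by norm_num)
    filter_upwards [h1, Filter.eventually_ge_atTop (0 : ℝ)] with L h2 h3
    have h4 := le_trans (le_abs_self (Real.log L)) h2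
    simpa [abs_of_nonneg h3] using h4
  have e2 : ∀ᶠ N : ℕ in Filter.atTop, (Real.log (N : ℝ)) ^ 10 ≤ (N : ℝ) ^ δ := by
    have h1 := (isLittleO_log_rpow_atTop (show 0 < δ / 10 by positivity)).bound
      (show (0 : ℝ) < 1 by norm_num)
    filter_upwards [hcast.eventually h1, hlog.eventually (Filter.eventually_ge_atTop (0 : ℝ)),
      hcast.eventually (Filter.eventually_ge_atTop (0 : ℝ))] with N h2 h3 h4
    rw [one_mul, Real.norm_of_nonneg h3, Real.norm_of_nonneg (Real.rpow_nonneg h4 _)] at h2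
    calc (Real.log (N : ℝ)) ^ 10 ≤ ((N : ℝ) ^ (δ / 10)) ^ 10 := pow_le_pow_left₀ h3 h2 10
      _ = (N : ℝ) ^ δ := by
        rw [← Real.rpow_natCast, ← Real.rpow_mul h4]
        norm_num
  filter_upwards [hll.eventually e1, e2, hlog.eventually (Filter.eventually_ge_atTop (2 : ℝ)),
    hll.eventually (Filter.eventually_ge_atTop (1 : ℝ)),
    hll.eventually (Filter.eventually_ge_atTop (4 * (Real.log 10 - Real.log δ + C))),
    hcast.eventually (Filter.eventually_ge_atTop (1 : ℝ))] with N h1 h2 h3 h4 h5 h6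
  set l := Real.log (N : ℝ) with hl
  set L := Real.log l with hL
  have hl0 : 0 < l := by linarith
  have hw2 : (2 : ℝ) ≤ l ^ 10 := by
    calc (2 : ℝ) ≤ 2 ^ 10 := by norm_num
      _ ≤ l ^ 10 := pow_le_pow_left₀ (by norm_num) h3 10
  have hlaw := hC (l ^ 10) ((N : ℝ) ^ δ) hw2 h2
  have hN0 : (0 : ℝ) < N := by linarith
  have hlx : Real.log ((N : ℝ) ^ δ) = δ * l := Real.log_rpow hN0 δ
  have hlw : Real.log (l ^ 10) = 10 * L := by rw [Real.log_pow, hL]; norm_num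
  have hL0 : 0 < L := by linarith
  rw [hlx, hlw, Real.log_mul hδ.ne' hl0.ne', Real.log_mul (by norm_num) hL0.ne'] at hlaw
  have hsub : ∑ p ∈ (Ico ⌈l ^ 10⌉₊ ⌈(N : ℝ) ^ δ⌉₊).filter Nat.Prime, ho p ≤ ∑ p ∈ Zw δ N, hp p := by
    have h7 : ∑ p ∈ (Ico ⌈l ^ 10⌉₊ ⌈(N : ℝ) ^ δ⌉₊).filter Nat.Prime, ho p =
        ∑ p ∈ ((Ico ⌈l ^ 10⌉₊ ⌈(N : ℝ) ^ δ⌉₊).filter Nat.Prime).filter Sp, ho p := by
      refine (sum_filter_of_ne fun q _ hne => ?_).symm
      by_contra hq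
      exact hne (by unfold ho; rw [if_neg hq])
    rw [h7]
    have h10 : ∀ q ∈ ((Ico ⌈l ^ 10⌉₊ ⌈(N : ℝ) ^ δ⌉₊).filter Nat.Prime).filter Sp, ho q ≤ hp q :=
      fun q _ => by
        have := (diff_nn q).1
        linarith
    refine le_trans (sum_le_sum h10) (sum_le_sum_of_subset_of_nonneg ?_ fun q _ _ => hp_nn q)
    intro q hq
    simp only [mem_filter, mem_Ico] at hq
    simp only [Zw, Zs, mem_filter, mem_range, Pool.Agent.Work.MP_2dba45_nt.Sv.pw]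
    exact ⟨⟨hq.1.1.2, hq.2⟩, Nat.ceil_le.1 hq.1.1.1⟩
  have h8 := (abs_le.1 hlaw).1
  have h9 : C / (10 * L) ≤ C := by
    rw [div_le_iff₀ (by positivity)]
    nlinarith
  linarith

theorem sum_ES (C : ℕ) : ∃ c : ℝ, 0 < c ∧ ∀ δ : ℝ, 0 < δ → δ ≤ 1 / 2 → ∃ N₀ : ℕ, ∀ N : ℕ, N₀ ≤ N →
    c * (Real.log (Real.log N)) ^ C ≤ ∑ E ∈ ES C δ N, hh E := by
  obtain ⟨c, hc, he⟩ := esym C
  refine ⟨c / 2 ^ C, by positivity, fun δ hδ _ => ?_⟩
  have hll : Filter.Tendsto (fun N : ℕ => Real.log (Real.log (N : ℝ))) Filter.atTop Filter.atTop :=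
    Real.tendsto_log_atTop.comp (Real.tendsto_log_atTop.comp tendsto_natCast_atTop_atTop)
  have h1 := (sumS δ hδ).and (hll.eventually (Filter.eventually_ge_atTop (4 * (C : ℝ))))
  obtain ⟨N₀, hN⟩ := Filter.eventually_atTop.1 h1
  refine ⟨N₀, fun N hN' => ?_⟩
  obtain ⟨h2, h3⟩ := hN N hN'
  have hC0 : (0 : ℝ) ≤ C := Nat.cast_nonneg C
  have h4 := he (Zw δ N) hp hp_nn (fun p => (hp_le p).trans (by norm_num)) (by linarith)
  refine le_trans ?_ h4
  have h5 : (1 / 2 * Real.log (Real.log (N : ℝ))) ^ C ≤ (∑ p ∈ Zw δ N, hp p) ^ C :=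
    pow_le_pow_left₀ (by linarith) h2 C
  calc c / 2 ^ C * (Real.log (Real.log (N : ℝ))) ^ C
      = c * (1 / 2 * Real.log (Real.log (N : ℝ))) ^ C := by
        rw [mul_pow, one_div, inv_pow]
        ring
    _ ≤ c * (∑ p ∈ Zw δ N, hp p) ^ C := mul_le_mul_of_nonneg_left h5 hc.le

end Pool.Agent.Work.MP_c971ef_nt.R5
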