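import Mathlib
import Pool.Agent.Work.MP_c971ef_nt.R5.RemT
import Pool.Agent.Work.MP_c971ef_nt.R5.LowS
import Pool.Agent.Work.MP_c971ef_nt.R5.OvA
import Pool.Agent.Work.MP_c971ef_nt.R5.SumE
import Pool.Agent.Work.MP_2dba45_nt.Sv.Final

set_option autoImplicit false

/-!
Module Asm (size M). Assembly of the lower bound.
Parameters: c₁ from `main_ph`, C₂ from `abs_ph`, b₀ from `exists_wts`; `Sv.fin_param (8 / (1000 (C + 1))) c₁ C₂ b₀` gives b ≥ b₀ and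
δ ≤ 1/10 with δ (4b + 10) ≤ 1/(1000 (C + 1)) and exp(-b) (C₂/δ) ≤ c₁ δ/2; so δ C ≤ 1/1000 (4b + 10 ≥ 1) and δ (4b+10) ≤ 1/1000;
then k from `main_ph` for this δ.
For N large and all E choose lp E, dp E with `Wts` (`exists_wts`; pw N δ ≥ 2). Sum `low_sum` over E in ES C δ N; `rem_all C b 3` for
(a, t) = (lp, ph k N) and (dp, |ph k N|) (|ph| ≤ 1: `P5.ph_le_one`, level: `P5.ph_level`, the elements of PQ are primes; |dp| ≤ #d):
sum over E of #Gn ≥ #(PN N) * sum over E of hh E * ((sum lp hh) (sum ph hh) - (sum dp hh) (sum |ph| hh)) - 2 C₀ N/(log N)^3.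
With V_E = prod over Zs \ E of (1 - hp) > 0: sum lp hh ≥ V_E (`main`), sum ph hh ≥ c₁ δ, sum dp hh ≤ exp(-b) V_E (`err`), sum |ph| hh ≤
C₂/δ (and ≥ 0), so the bracket is ≥ V_E c₁ δ/2 ≥ (c_V / log N) c₁ δ / 2 (`V_ge`). #(PN N) ≥ c N / log N: Chebyshev's lower bound for
the primes in (N, 2N] (search the repository: e.g. MT or CP files, or from the prime number theorem `BV` as in CP/F4.lean `hPNT`).
`sum_ES` gives the sum of hh E. The error 2 C₀ N/(log N)^3 is at most half of the main term for large N.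
-/

namespace Pool.Agent.Work.MP_c971ef_nt.R5

open Finset

private theorem asm_pnt : ∃ Y : ℕ, 3 ≤ Y ∧ ∀ N : ℕ, Y ≤ N →
    (1 / 4 : ℝ) * (N / Real.log N) ≤ (#(PN N) : ℝ) := by
  have h := BV.pnt_all
  unfold BV.PNT at h
  have h1 := (h.eventually (Ioo_mem_nhds (by norm_num : (9 / 10 : ℝ) < 1)
    (by norm_num : (1 : ℝ) < 11 / 10)))
  have h2 : ∀ᶠ N : ℕ in Filter.atTop, 5 * Real.log 2 ≤ Real.log (N : ℝ) :=
    (Real.tendsto_log_atTop.comp (tendsto_natCast_atTop_atTop (R := ℝ))).eventually_ge_atTop _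
  obtain ⟨Y1, hY1⟩ := Filter.eventually_atTop.1 h1
  obtain ⟨Y2, hY2⟩ := Filter.eventually_atTop.1 h2
  refine ⟨max Y1 (max Y2 3), le_trans (le_max_right _ _) (le_max_right _ _), fun N hN => ?_⟩
  have hNY1 : Y1 ≤ N := le_trans (le_max_left _ _) hN
  have hNY2 : Y2 ≤ N := le_trans (le_trans (le_max_left _ _) (le_max_right _ _)) hN
  have hN3 : 3 ≤ N := le_trans (le_trans (le_max_right _ _) (le_max_right _ _)) hN
  have hN0 : (0 : ℝ) < N := by exact_mod_cast (by omega : 0 < N)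
  have hlog2 : 0 < Real.log 2 := Real.log_pos (by norm_num)
  have hL := hY2 N hNY2
  have hL0 : 0 < Real.log (N : ℝ) := by linarith
  obtain ⟨_, a2⟩ := hY1 N hNY1
  obtain ⟨b1, _⟩ := hY1 (2 * N) (by omega)
  rw [div_lt_iff₀ hN0] at a2
  have h2N : (0 : ℝ) < ((2 * N : ℕ) : ℝ) := by exact_mod_cast (by omega : 0 < 2 * N)
  rw [lt_div_iff₀ h2N] at b1
  have hlog : Real.log ((2 * N : ℕ) : ℝ) = Real.log 2 + Real.log N := by
    push_cast
    rw [Real.log_mul (by norm_num) hN0.ne']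
  rw [hlog] at b1
  have hcard : (#(PN N) : ℝ) + (Nat.primeCounting N : ℝ) = (Nat.primeCounting (2 * N) : ℝ) := by
    have e1 : ∀ M : ℕ, Nat.primeCounting M = #((Ioc 0 M).filter Nat.Prime) := by
      intro M
      unfold Nat.primeCounting Nat.primeCounting'
      rw [Nat.count_eq_card_filter_range]
      congr 1
      ext p
      simp only [mem_filter, mem_range, mem_Ioc]
      constructor
      · rintro ⟨u1, u2⟩
        exact ⟨⟨u2.pos, by omega⟩, u2⟩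
      · rintro ⟨⟨_, u1⟩, u2⟩
        exact ⟨by omega, u2⟩
    rw [e1, e1]
    have e2 : (Ioc 0 (2 * N)).filter Nat.Prime = PN N ∪ (Ioc 0 N).filter Nat.Prime := by
      ext p
      unfold PN
      simp only [mem_filter, mem_Ioc, mem_union]
      constructor
      · rintro ⟨⟨u1, u2⟩, u3⟩
        by_cases hp : N < p
        · exact Or.inl ⟨⟨hp, u2⟩, u3⟩
        · exact Or.inr ⟨⟨u1, by omega⟩, u3⟩
      · rintro (⟨⟨u1, u2⟩, u3⟩ | ⟨⟨u1, u2⟩, u3⟩)
        · exact ⟨⟨by omega, u2⟩, u3⟩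
        · exact ⟨⟨u1, by omega⟩, u3⟩
    have e3 : Disjoint (PN N) ((Ioc 0 N).filter Nat.Prime) := by
      rw [Finset.disjoint_left]
      intro p hp hp'
      unfold PN at hp
      rw [mem_filter, mem_Ioc] at hp hp'
      omega
    rw [e2, card_union_of_disjoint e3]
    push_cast
    ring
  have hπ0 : (0 : ℝ) ≤ (Nat.primeCounting (2 * N) : ℝ) := Nat.cast_nonneg _
  have b2 : (3 / 2 : ℝ) * N ≤ (Nat.primeCounting (2 * N) : ℝ) * Real.log N := by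
    have u1 : (Nat.primeCounting (2 * N) : ℝ) * (Real.log 2 + Real.log N) ≤
        (Nat.primeCounting (2 * N) : ℝ) * (6 / 5 * Real.log N) :=
      mul_le_mul_of_nonneg_left (by linarith) hπ0
    have u2 : ((2 * N : ℕ) : ℝ) = 2 * N := by push_cast; ring
    rw [u2] at b1
    linarith
  rw [← mul_div_assoc, div_le_iff₀ hL0]
  have e : (#(PN N) : ℝ) = (Nat.primeCounting (2 * N) : ℝ) - (Nat.primeCounting N : ℝ) := by
    linarith
  rw [e, sub_mul]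
  linarith

section
open Pool.Agent.Work.MP_2dba45_nt.Sv

private theorem asm_aux (C : ℕ) : ∃ (δ : ℝ) (k : ℕ) (c : ℝ) (N₀ : ℕ), 0 < δ ∧ δ ≤ 1 / 10 ∧ δ * C ≤ 1 / 1000 ∧
    1 ≤ k ∧ 0 < c ∧ ∀ N : ℕ, N₀ ≤ N →
      c * (Real.log (Real.log N)) ^ C * (N / (Real.log N) ^ 2) ≤
        ∑ E ∈ ES C δ N, (#(Gn δ k N E) : ℝ) := by
  obtain ⟨c1, hc1, hM⟩ := main_ph
  obtain ⟨C2, hC2, hA⟩ := abs_ph
  obtain ⟨b₀, hW⟩ := exists_wts
  have hC1 : (0 : ℝ) < (C : ℝ) + 1 := by positivity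
  obtain ⟨b, δ, hb, hδ0, hδ1, hδb, hexp⟩ := fin_param (8 / (1000 * ((C : ℝ) + 1))) c1 C2 b₀
    (by positivity) hc1 hC2
  have hδC1 : δ * (4 * b + 10) * ((C : ℝ) + 1) ≤ 1 / 1000 := by
    calc δ * (4 * b + 10) * ((C : ℝ) + 1) ≤ (8 / (1000 * ((C : ℝ) + 1)) / 8) * ((C : ℝ) + 1) :=
          mul_le_mul_of_nonneg_right hδb hC1.le
      _ = 1 / 1000 := by field_simp
  have hb0 : (0 : ℝ) ≤ (b : ℝ) := Nat.cast_nonneg _
  have hCn : (0 : ℝ) ≤ (C : ℝ) := Nat.cast_nonneg _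
  have hδb' : δ * (4 * b + 10) ≤ 1 / 1000 := by
    refine le_trans ?_ hδC1
    have h1 : 0 ≤ δ * (4 * b + 10) := by positivity
    nlinarith
  have hδC : δ * C ≤ 1 / 1000 := by
    refine le_trans ?_ hδC1
    have h1 : δ * C ≤ δ * ((C : ℝ) + 1) := mul_le_mul_of_nonneg_left (by linarith) hδ0.le
    have h2 : δ * ((C : ℝ) + 1) ≤ δ * (4 * b + 10) * ((C : ℝ) + 1) := by
      apply mul_le_mul_of_nonneg_right _ hC1.le
      nlinarith
    linarith
  obtain ⟨k, hk1, N1, hN1⟩ := hM δ hδ0 hδ1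
  obtain ⟨N2, hN2⟩ := hA δ hδ0 hδ1
  obtain ⟨C0, N3, hC0, hN3⟩ := rem_all C b 3 δ hδ0 hδ1 hδC hδb'
  obtain ⟨cV, hcV, hV⟩ := V_ge
  obtain ⟨cE, hcE, hE⟩ := sum_ES C
  obtain ⟨N4, hN4⟩ := hE δ hδ0 (by linarith)
  obtain ⟨N5, _, hN5⟩ := asm_pnt
  obtain ⟨c, hc⟩ : ∃ c : ℝ, c = cV * cE * c1 * δ / 16 := ⟨_, rfl⟩
  have hc0 : 0 < c := by rw [hc]; positivity
  have hlogt : Filter.Tendsto (fun N : ℕ => Real.log (N : ℝ)) Filter.atTop Filter.atTop :=
    Real.tendsto_log_atTop.comp (tendsto_natCast_atTop_atTop (R := ℝ))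
  have hev : ∀ᶠ N : ℕ in Filter.atTop, 2 * C0 / c ≤ Real.log N ∧
      1 ≤ Real.log (Real.log N) := by
    filter_upwards [hlogt.eventually_ge_atTop (2 * C0 / c),
      (Real.tendsto_log_atTop.comp hlogt).eventually_ge_atTop 1] with N h1 h2
    exact ⟨h1, h2⟩
  obtain ⟨N6, hN6⟩ := Filter.eventually_atTop.1 hev
  refine ⟨δ, k, c, max N1 (max N2 (max N3 (max N4 (max N5 (max N6 4))))), hδ0, hδ1, hδC, hk1,
    hc0, fun N hN => ?_⟩
  simp only [max_le_iff] at hN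
  obtain ⟨hNN1, hNN2, hNN3, hNN4, hNN5, hNN6, hNN⟩ := hN
  obtain ⟨hx1, hx2⟩ := hN6 N hNN6
  have hN0 : (0 : ℝ) < N := by exact_mod_cast (by omega : 0 < N)
  have hN1' : (1 : ℝ) < N := by exact_mod_cast (by omega : 1 < N)
  have hlogN : 0 < Real.log N := Real.log_pos hN1'
  have hpw : 2 ≤ pw N δ := by
    have h1 : (1 : ℝ) < (N : ℝ) ^ δ := Real.one_lt_rpow hN1' hδ0
    have h2 : 1 < ⌈(N : ℝ) ^ δ⌉₊ := Nat.lt_ceil.2 (by rw [Nat.cast_one]; exact h1)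
    exact h2
  choose lp dp hWts using hW b hb δ N hpw
  obtain ⟨U, hU⟩ : ∃ U : ℝ, U = ∑ T ∈ (PQ (pw N δ) N).powerset,
    Pool.Agent.Work.MP_73869e_nt.P5.ph k N T * hh T := ⟨_, rfl⟩
  obtain ⟨U', hU'⟩ : ∃ U' : ℝ, U' = ∑ T ∈ (PQ (pw N δ) N).powerset,
    |Pool.Agent.Work.MP_73869e_nt.P5.ph k N T| * hh T := ⟨_, rfl⟩
  have hU1 : c1 * δ ≤ U := by rw [hU]; exact hN1 N hNN1
  have hU2 : U' ≤ C2 / δ := by rw [hU']; exact hN2 N hNN2 k hk1
  have hU0 : 0 ≤ U' := by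
    rw [hU']
    exact Finset.sum_nonneg fun T _ => mul_nonneg (abs_nonneg _) (hh_nn T)
  have hTp : ∀ T ⊆ PQ (pw N δ) N, ∀ p ∈ T, p.Prime := by
    intro T hT p hp
    have h1 := hT hp
    unfold PQ at h1
    exact (Finset.mem_filter.1 h1).2
  -- remainders
  have hR1 := hN3 N hNN3 lp (Pool.Agent.Work.MP_73869e_nt.P5.ph k N)
    (fun E d => ((hWts E).lp_le d).trans (le_max_left _ _))
    (fun E d hd => ((hWts E).supp d (Or.inl hd)).2)
    (fun T => Pool.Agent.Work.MP_73869e_nt.P5.ph_le_one k hk1 N T)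
    (fun T hT h => Pool.Agent.Work.MP_73869e_nt.P5.ph_level k hk1 N (by omega) T (hTp T hT) h)
  have hR2 := hN3 N hNN3 dp (fun T => |Pool.Agent.Work.MP_73869e_nt.P5.ph k N T|)
    (fun E d => ((hWts E).dp_le d).trans (le_max_right _ _))
    (fun E d hd => ((hWts E).supp d (Or.inr hd)).2)
    (fun T => by
      rw [abs_abs]
      exact Pool.Agent.Work.MP_73869e_nt.P5.ph_le_one k hk1 N T)
    (fun T hT h => Pool.Agent.Work.MP_73869e_nt.P5.ph_level k hk1 N (by omega) T (hTp T hT)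
      (fun h0 => h (by show |_| = (0 : ℝ); rw [h0, abs_zero])))
  rw [← hU] at hR1
  rw [← hU'] at hR2
  have hlow : ∑ E ∈ ES C δ N, (∑ d ∈ (Zs δ N \ E).powerset, ∑ T ∈ (PQ (pw N δ) N).powerset,
        lp E d * Pool.Agent.Work.MP_73869e_nt.P5.ph k N T * (#(AN N (E ∪ d ∪ T)) : ℝ)) -
      ∑ E ∈ ES C δ N, (∑ d ∈ (Zs δ N \ E).powerset, ∑ T ∈ (PQ (pw N δ) N).powerset,
        dp E d * |Pool.Agent.Work.MP_73869e_nt.P5.ph k N T| * (#(AN N (E ∪ d ∪ T)) : ℝ)) ≤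
      ∑ E ∈ ES C δ N, (#(Gn δ k N E) : ℝ) := by
    rw [← Finset.sum_sub_distrib]
    exact Finset.sum_le_sum fun E _ => low_sum δ b k N (by omega) hk1 E (lp E) (dp E) (hWts E)
  -- main terms
  have hmain : (cV / Real.log N) * (c1 * δ / 2) * ∑ E ∈ ES C δ N, hh E ≤
      (∑ E ∈ ES C δ N, hh E * ((∑ d ∈ (Zs δ N \ E).powerset, lp E d * hh d) * U)) -
      ∑ E ∈ ES C δ N, hh E * ((∑ d ∈ (Zs δ N \ E).powerset, dp E d * hh d) * U') := by
    rw [← Finset.sum_sub_distrib, Finset.mul_sum]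
    refine Finset.sum_le_sum fun E _ => ?_
    have hVE := hV δ hδ0 (by linarith) N hNN E
    obtain ⟨V, hVd⟩ : ∃ V : ℝ, V = ∏ p ∈ Zs δ N \ E, (1 - hp p) := ⟨_, rfl⟩
    have hm := (hWts E).main
    have he := (hWts E).err
    rw [← hVd] at hVE hm he
    have hV0 : 0 < V := lt_of_lt_of_le (by positivity) hVE
    have g1 : V * (c1 * δ) ≤ (∑ d ∈ (Zs δ N \ E).powerset, lp E d * hh d) * U :=
      mul_le_mul hm hU1 (by positivity) (hV0.le.trans hm)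
    have g2 : (∑ d ∈ (Zs δ N \ E).powerset, dp E d * hh d) * U' ≤ V * (c1 * δ / 2) := by
      calc (∑ d ∈ (Zs δ N \ E).powerset, dp E d * hh d) * U'
          ≤ (Real.exp (-b) * V) * U' := mul_le_mul_of_nonneg_right he hU0
        _ ≤ (Real.exp (-b) * V) * (C2 / δ) := mul_le_mul_of_nonneg_left hU2 (by positivity)
        _ = V * (Real.exp (-b) * (C2 / δ)) := by ring
        _ ≤ V * (c1 * δ / 2) := mul_le_mul_of_nonneg_left hexp hV0.le
    have g3 : (cV / Real.log N) * (c1 * δ / 2) ≤ V * (c1 * δ / 2) :=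
      mul_le_mul_of_nonneg_right hVE (by positivity)
    rw [← mul_sub, mul_comm _ (hh E)]
    refine mul_le_mul_of_nonneg_left ?_ (hh_nn E)
    linarith
  have hsE := hN4 N hNN4
  have hPN := hN5 N hNN5
  obtain ⟨P, hP⟩ : ∃ P : ℝ, P = (#(PN N) : ℝ) := ⟨_, rfl⟩
  rw [← hP] at hPN hR1 hR2
  obtain ⟨L, hL⟩ : ∃ L : ℝ, L = (Real.log (Real.log N)) ^ C := ⟨_, rfl⟩
  rw [← hL] at hsE ⊢
  have hL1 : 1 ≤ L := by rw [hL]; exact one_le_pow₀ hx2
  have hfin : 2 * (c * L * (N / (Real.log N) ^ 2)) ≤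
      P * ((cV / Real.log N) * (c1 * δ / 2) * ∑ E ∈ ES C δ N, hh E) := by
    calc 2 * (c * L * (N / (Real.log N) ^ 2))
        = (1 / 4 * (N / Real.log N)) * ((cV / Real.log N) * (c1 * δ / 2) * (cE * L)) := by
          rw [hc]
          field_simp
          ring
      _ ≤ P * ((cV / Real.log N) * (c1 * δ / 2) * ∑ E ∈ ES C δ N, hh E) := by
          refine mul_le_mul hPN ?_ (by positivity) ((by positivity : (0 : ℝ) ≤
            1 / 4 * (N / Real.log N)).trans hPN)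
          exact mul_le_mul_of_nonneg_left hsE (by positivity)
  have hPnn : 0 ≤ P := (by positivity : (0 : ℝ) ≤ 1 / 4 * (N / Real.log N)).trans hPN
  have hmain' := mul_le_mul_of_nonneg_left hmain hPnn
  rw [mul_sub] at hmain'
  have herr : 2 * (C0 * N / (Real.log N) ^ 3) ≤ c * L * (N / (Real.log N) ^ 2) := by
    have h1 : 2 * C0 ≤ c * Real.log N := by
      rw [div_le_iff₀ hc0] at hx1
      linarith
    calc 2 * (C0 * N / (Real.log N) ^ 3) = (2 * C0) * (N / (Real.log N) ^ 3) := by ring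
      _ ≤ (c * Real.log N) * (N / (Real.log N) ^ 3) :=
          mul_le_mul_of_nonneg_right h1 (by positivity)
      _ = c * 1 * (N / (Real.log N) ^ 2) := by
          field_simp
      _ ≤ c * L * (N / (Real.log N) ^ 2) := by
          apply mul_le_mul_of_nonneg_right _ (by positivity)
          exact mul_le_mul_of_nonneg_left hL1 hc0.le
  have hr1 := (abs_le.1 hR1).1
  have hr2 := (abs_le.1 hR2).2
  linarith

end

theorem asm (C : ℕ) : ∃ (δ : ℝ) (k : ℕ) (c : ℝ) (N₀ : ℕ), 0 < δ ∧ δ ≤ 1 / 10 ∧ δ * C ≤ 1 / 1000 ∧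
    1 ≤ k ∧ 0 < c ∧ ∀ N : ℕ, N₀ ≤ N →
      c * (Real.log (Real.log N)) ^ C * (N / (Real.log N) ^ 2) ≤
        ∑ E ∈ ES C δ N, (#(Gn δ k N E) : ℝ) := by
  exact asm_aux C

end Pool.Agent.Work.MP_c971ef_nt.R5
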