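import Mathlib
import Pool.Agent.Work.MP_c971ef_nt.R5.Defs
import Pool.Agent.Work.MP_2dba45_nt.Sv.Box

set_option autoImplicit false

/-!
Module OmM (size S, a port). Copy of P5.om5 (file MP_73869e_nt/P5/Om5.lean) for an arbitrary number `M ≤ 5 N ^ 2` instead of
`n ^ 2 + k` (only `X ≠ 0`, `X ≤ 5 N ^ 2` and the three conditions on X are used there).
-/

namespace Pool.Agent.Work.MP_c971ef_nt.R5

open Finset Pool.Agent.Work.MP_2dba45_nt.Sv
open Pool.Agent.Work.MP_73869e_nt.P5 (zE yE lam5 wt5)

theorem omM : ∃ N₀ : ℕ, ∀ N : ℕ, N₀ ≤ N → ∀ k : ℕ, 1 ≤ k → ∀ M : ℕ, M ≠ 0 →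
    (M : ℝ) ≤ 5 * (N : ℝ) ^ 2 →
    (∀ p : ℕ, p.Prime → p ∣ M → pw N zE ≤ p) → (∀ p : ℕ, p.Prime → ¬ p ^ 2 ∣ M) →
    lam5 * ∑ p ∈ M.primeFactors.filter (fun p => p < pw N yE), wt5 k (cost (1000 * k) N p) < 1 →
    ArithmeticFunction.cardFactors M ≤ 5 := by
  have e2 : ∀ᶠ N : ℕ in Filter.atTop, (200 : ℝ) * Real.log 5 + 1 ≤ Real.log N :=
    (Real.tendsto_log_atTop.comp tendsto_natCast_atTop_atTop).eventually_ge_atTop _
  obtain ⟨N₀, hN₀⟩ := Filter.eventually_atTop.1 (e2.and (Filter.eventually_ge_atTop 2))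
  refine ⟨N₀, fun N hNN κ hκ X hX0 hXle hsm hsq hsum => ?_⟩
  obtain ⟨h2, hN⟩ := hN₀ N hNN
  have hN0 : (0 : ℝ) < N := by exact_mod_cast (by omega : 0 < N)
  have hl5 : 0 < Real.log 5 := Real.log_pos (by norm_num)
  have hlN : 0 < Real.log N := by linarith
  have hXr : (0 : ℝ) < X := by exact_mod_cast Nat.pos_of_ne_zero hX0
  have hlogX : Real.log X ≤ Real.log 5 + 2 * Real.log N := by
    calc Real.log X ≤ Real.log (5 * (N : ℝ) ^ 2) := Real.log_le_log hXr hXle
      _ = _ := by
        rw [Real.log_mul (by norm_num) (by positivity), Real.log_pow]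
        push_cast
        ring
  set ly := (9 / 20 : ℝ) * Real.log N with hly
  have hly0 : 0 < ly := by rw [hly]; positivity
  have hκ0 : (0 : ℝ) < κ := by exact_mod_cast hκ
  -- the weights
  have hwt : ∀ p : ℕ, p.Prime → 1 - Real.log p / ly ≤ wt5 κ (cost (1000 * κ) N p) := by
    intro p hp
    have hlp : 0 ≤ Real.log p := Real.log_natCast_nonneg p
    unfold wt5 cost
    push_cast
    rw [add_sub_cancel_right]
    have h3 := Nat.floor_le (show (0 : ℝ) ≤ 1000 * (κ : ℝ) * (Real.log p / Real.log N) by positivity)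
    have h4 : (⌊1000 * (κ : ℝ) * (Real.log p / Real.log N)⌋₊ : ℝ) / (450 * κ) ≤
        Real.log p / ly := by
      rw [div_le_iff₀ (by positivity)]
      refine h3.trans (le_of_eq ?_)
      rw [hly]
      field_simp
      ring
    linarith
  -- main inequality
  have key : (ArithmeticFunction.cardFactors X : ℝ) * ly ≤
      ly * (∑ p ∈ X.primeFactors.filter (fun p : ℕ => p < pw N yE), (1 - Real.log p / ly)) +
        Real.log X := by
    rw [ArithmeticFunction.cardFactors_eq_sum_factorization, Real.log_nat_eq_sum_factorization X]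
    simp only [Finsupp.sum, Nat.support_factorization]
    push_cast
    rw [Finset.sum_mul, Finset.mul_sum, Finset.sum_filter, ← Finset.sum_add_distrib]
    apply Finset.sum_le_sum
    intro p hp
    have hpp : p.Prime := Nat.prime_of_mem_primeFactors hp
    have hpd : p ∣ X := Nat.dvd_of_mem_primeFactors hp
    have hlp : 0 ≤ Real.log p := Real.log_natCast_nonneg p
    split_ifs with hpy
    · have hv : X.factorization p = 1 := by
        apply le_antisymm
        · by_contra hcon
          push Not at hcon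
          exact hsq p hpp
            ((Nat.Prime.pow_dvd_iff_le_factorization hpp hX0).2 hcon)
        · exact (hpp.dvd_iff_one_le_factorization hX0).1 hpd
      rw [hv]
      have : ly * (1 - Real.log p / ly) = ly - Real.log p := by field_simp
      rw [this]
      simp
    · rw [Pool.Agent.Work.MP_2dba45_nt.Sv.lt_pw_iff, not_lt] at hpy
      rw [zero_add]
      apply mul_le_mul_of_nonneg_left _ (by positivity)
      have h5 := Real.log_le_log (by positivity) hpy
      rw [Real.log_rpow hN0] at h5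
      unfold yE at h5
      rw [hly]
      exact h5
  have hsum2 : ∑ p ∈ X.primeFactors.filter (fun p : ℕ => p < pw N yE), (1 - Real.log p / ly) ≤
      ∑ p ∈ X.primeFactors.filter (fun p : ℕ => p < pw N yE), wt5 κ (cost (1000 * κ) N p) := by
    refine Finset.sum_le_sum fun p hp => hwt p ?_
    rw [Finset.mem_filter] at hp
    exact Nat.prime_of_mem_primeFactors hp.1
  have hsum3 : ∑ p ∈ X.primeFactors.filter (fun p : ℕ => p < pw N yE), (1 - Real.log p / ly) <
      20 / 13 := by
    unfold lam5 at hsum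
    linarith
  have h3 : (ArithmeticFunction.cardFactors X : ℝ) * ly < 6 * ly := by
    have h4 := mul_lt_mul_of_pos_left hsum3 hly0
    have h6 : Real.log X < (6 - 20 / 13) * ly := by
      rw [hly]
      nlinarith
    nlinarith
  have h4 : (ArithmeticFunction.cardFactors X : ℝ) < 6 := lt_of_mul_lt_mul_right h3 hly0.le
  have h5 : ArithmeticFunction.cardFactors X < 6 := by exact_mod_cast h4
  omega

end Pool.Agent.Work.MP_c971ef_nt.R5
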