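import Mathlib
import Pool.Agent.Work.MP_c971ef_nt.R5.Defs
import Pool.Agent.Work.MP_2dba45_nt.Sv.Box

set_option autoImplicit false

/-!
Module Sqf (size M-L). Few `n` have a square factor in `n ^ 2 - 2` (only integers, no primes). N large, z = N^(19/100).
Let n be counted, s = product of the primes p < pw N zE dividing n^2 - 2 (s ≤ N^(1/1000)), q prime, q^2 | n^2 - 2, q ≥ (log N)^10
(so q is odd). For a prime q ≥ 3 the n in (N, 2N] with q^2 | n^2 - 2 lie in at most two classes modulo q^2 (if n^2 ≡ n'^2 mod q^2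
then q^2 | (n-n')(n+n'), and q does not divide both, as otherwise q | 2n, q | n, q | 2), so there are at most
2 (N / q^2 + 1) of them.
(a) q < pw N zE: then q | s, q ≤ N^(1/1000): at most sum over q ≥ (log N)^10 of 2 N / q^2 + 2 N^(1/1000) ≤
4 N / ((log N)^10 - 1) + 2 N^(1/1000).
(b) q ≥ pw N zE and no prime r < pw N zE has r^2 | n^2 - 2. Write n^2 - 2 = q^2 m, m = s m' where the prime factors of m' are
≥ pw N zE (s is squarefree and contains all smaller ones). If m' > 1: m' ≥ N^(19/100), q^2 ≤ 4 N^2 / N^(19/100), q ≤ 2 N^(905/1000):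
at most sum over q ≥ N^(19/100) of 2 N/q^2 + 2 * 2 N^(905/1000).
(c) m' = 1: n^2 - 2 = s q^2. s = 1 is impossible (n^2 - q^2 = 2). So s > 1 and s ≥ (log N)^10 ≥ 100. For a given s two solutions
n1^2 - s q1^2 = 2 = n2^2 - s q2^2 with q1 < q2: n1 < n2, and (n1 q2)^2 - (n2 q1)^2 = (2 + s q1^2) q2^2 - (2 + s q2^2) q1^2 =
2 (q2^2 - q1^2) > 0, so n1 q2 - n2 q1 ≥ 1 and n1 q2 + n2 q1 ≤ 2 q2^2, so n1 ≤ 2 q2, n1^2 ≥ s q1^2 ≥ 100 q1^2, q2 ≥ 5 q1.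
So there are at most log_2 (2N) + 1 solutions (n ≤ 2N, q ≤ n; e.g. the map q ↦ Nat.log 2 q is injective) for each
s ≤ N^(1/1000). Total N^(1/1000) (log_2 (2N) + 1) + ... All together ≤ N / (log N)^9 for large N.
Private theorems for (a), (b), (c) are recommended.
-/

namespace Pool.Agent.Work.MP_c971ef_nt.R5

open Finset Pool.Agent.Work.MP_2dba45_nt.Sv
open Pool.Agent.Work.MP_73869e_nt.P5 (zE)

private theorem res_count (N r v : ℕ) (hr : 0 < r) :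
    (#((Ioc N (2 * N)).filter (fun n => n ≡ v [MOD r])) : ℝ) ≤ (N : ℝ) / r + 1 := by
  have h1 := Nat.Ioc_filter_modEq_card N (2 * N) hr v
  have hrq : (0 : ℚ) < r := by exact_mod_cast hr
  have h2 : ((#((Ioc N (2 * N)).filter (fun n => n ≡ v [MOD r])) : ℤ) : ℚ) ≤ (N : ℚ) / r + 1 := by
    rw [h1]
    have h3 : ((⌊(((2 * N : ℕ) : ℚ) - v) / r⌋ - ⌊((N : ℚ) - v) / r⌋ : ℤ) : ℚ) ≤ (N : ℚ) / r + 1 := by
      have h4 := Int.floor_le ((((2 * N : ℕ) : ℚ) - v) / r)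
      have h5 := (Int.lt_floor_add_one (((N : ℚ) - v) / r)).le
      push_cast at h4 h5 ⊢
      have h6 : ((2 : ℚ) * N - v) / r = ((N : ℚ) - v) / r + N / r := by
        rw [← add_div]
        congr 1
        ring
      rw [h6] at h4
      rw [h6]
      linarith
    have h7 : (0 : ℚ) ≤ (N : ℚ) / r + 1 := by positivity
    rw [Int.cast_max]
    exact max_le h3 (by simpa using h7)
  have h3 : (#((Ioc N (2 * N)).filter (fun n => n ≡ v [MOD r])) : ℚ) ≤ (N : ℚ) / r + 1 := by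
    exact_mod_cast h2
  have h4 := (Rat.cast_le (K := ℝ)).2 h3
  push_cast at h4
  exact h4

private theorem cls (N q : ℕ) (hN : 1 ≤ N) (hq : q.Prime) (hq3 : 3 ≤ q) :
    (#((Ioc N (2 * N)).filter (fun n : ℕ => q ^ 2 ∣ n ^ 2 - 2)) : ℝ) ≤
      2 * ((N : ℝ) / q ^ 2 + 1) := by
  classical
  have hq2 : 0 < q ^ 2 := by positivity
  rcases ((Ioc N (2 * N)).filter (fun n : ℕ => q ^ 2 ∣ n ^ 2 - 2)).eq_empty_or_nonempty with h | ⟨m, hm⟩
  · rw [h, card_empty, Nat.cast_zero]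
    positivity
  · rw [mem_filter, mem_Ioc] at hm
    have hcast : ∀ n : ℕ, N < n → q ^ 2 ∣ n ^ 2 - 2 → ((q : ℤ) ^ 2) ∣ (n : ℤ) ^ 2 - 2 := by
      intro n hn hd
      have h1 : 2 ≤ n ^ 2 := by nlinarith
      have h2 := Int.natCast_dvd_natCast.2 hd
      rw [Nat.cast_sub h1] at h2
      push_cast at h2
      exact h2
    have hqi : Prime (q : ℤ) := Nat.prime_iff_prime_int.1 hq
    have hsub : (Ioc N (2 * N)).filter (fun n : ℕ => q ^ 2 ∣ n ^ 2 - 2) ⊆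
        (Ioc N (2 * N)).filter (fun n => n ≡ m [MOD q ^ 2]) ∪
          (Ioc N (2 * N)).filter (fun n => n ≡ m * (q ^ 2 - 1) [MOD q ^ 2]) := by
      intro n hn
      rw [mem_filter, mem_Ioc] at hn
      have h1 := hcast n hn.1.1 hn.2
      have h2 := hcast m hm.1.1 hm.2
      have h3 : ((q : ℤ) ^ 2) ∣ ((n : ℤ) - m) * ((n : ℤ) + m) := by
        have h4 := dvd_sub h1 h2
        have e : ((n : ℤ) ^ 2 - 2) - ((m : ℤ) ^ 2 - 2) = ((n : ℤ) - m) * ((n : ℤ) + m) := by ring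
        rwa [e] at h4
      have hnot : ¬ ((q : ℤ) ∣ (n : ℤ) - m ∧ (q : ℤ) ∣ (n : ℤ) + m) := by
        rintro ⟨h4, h5⟩
        have h6 : (q : ℤ) ∣ 2 * (m : ℤ) := by
          have := dvd_sub h5 h4
          have e : ((n : ℤ) + m) - ((n : ℤ) - m) = 2 * (m : ℤ) := by ring
          rwa [e] at this
        have h2q : ¬ (q : ℤ) ∣ 2 := by
          intro h7
          have := Int.le_of_dvd (by norm_num) h7
          omega
        rcases hqi.dvd_or_dvd h6 with h7 | h7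
        · exact h2q h7
        · apply h2q
          have h8 : (q : ℤ) ∣ (m : ℤ) ^ 2 - 2 := (Dvd.intro _ (by ring : (q : ℤ) * q = q ^ 2)).trans h2
          have h9 : (q : ℤ) ∣ (m : ℤ) ^ 2 := dvd_pow h7 (by norm_num)
          have := dvd_sub h9 h8
          simpa using this
      rw [mem_union, mem_filter, mem_filter, mem_Ioc]
      by_cases h4 : (q : ℤ) ∣ (n : ℤ) - m
      · left
        have h5 : ¬ (q : ℤ) ∣ (n : ℤ) + m := fun h => hnot ⟨h4, h⟩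
        have h6 : IsCoprime ((q : ℤ) ^ 2) ((n : ℤ) + m) :=
          ((hqi.irreducible.coprime_iff_not_dvd).2 h5).pow_left
        have h7 : ((q : ℤ) ^ 2) ∣ (n : ℤ) - m := h6.dvd_of_dvd_mul_right h3
        refine ⟨hn.1, ?_⟩
        refine (Nat.ModEq.symm ((Nat.modEq_iff_dvd).2 ?_))
        push_cast
        exact h7
      · right
        have h6 : IsCoprime ((q : ℤ) ^ 2) ((n : ℤ) - m) :=
          ((hqi.irreducible.coprime_iff_not_dvd).2 h4).pow_left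
        have h7 : ((q : ℤ) ^ 2) ∣ (n : ℤ) + m := h6.dvd_of_dvd_mul_left h3
        refine ⟨hn.1, ?_⟩
        refine (Nat.ModEq.symm ((Nat.modEq_iff_dvd).2 ?_))
        rw [Nat.cast_mul, Nat.cast_sub (by omega : 1 ≤ q ^ 2)]
        push_cast
        have e : (n : ℤ) - m * ((q : ℤ) ^ 2 - 1) = ((n : ℤ) + m) - m * (q : ℤ) ^ 2 := by ring
        rw [e]
        exact dvd_sub h7 (Dvd.intro_left _ rfl)
    have h1 : (#((Ioc N (2 * N)).filter (fun n : ℕ => q ^ 2 ∣ n ^ 2 - 2)) : ℝ) ≤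
        (#((Ioc N (2 * N)).filter (fun n => n ≡ m [MOD q ^ 2])) : ℝ) +
          (#((Ioc N (2 * N)).filter (fun n => n ≡ m * (q ^ 2 - 1) [MOD q ^ 2])) : ℝ) := by
      exact_mod_cast (card_le_card hsub).trans (card_union_le _ _)
    have h2 := res_count N (q ^ 2) m hq2
    have h3 := res_count N (q ^ 2) (m * (q ^ 2 - 1)) hq2
    push_cast at h2 h3
    linarith

private theorem cnt_range (N : ℕ) (hN : 1 ≤ N) (lo hi : ℝ) (hlo : 3 ≤ lo) (hhi : 0 ≤ hi)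
    (A : Finset ℕ) (hA : ∀ n ∈ A, n ∈ Ioc N (2 * N) ∧
      ∃ q : ℕ, q.Prime ∧ q ^ 2 ∣ n ^ 2 - 2 ∧ lo ≤ q ∧ (q : ℝ) ≤ hi) :
    (#A : ℝ) ≤ 4 * N / lo + 2 * (hi + 1) := by
  classical
  set Q := (range (⌊hi⌋₊ + 1)).filter (fun q : ℕ => q.Prime ∧ lo ≤ (q : ℝ)) with hQ
  have hsub : A ⊆ Q.biUnion (fun q => (Ioc N (2 * N)).filter (fun n : ℕ => q ^ 2 ∣ n ^ 2 - 2)) := by
    intro n hn
    obtain ⟨h1, q, hq, hd, hl, hh⟩ := hA n hn
    rw [mem_biUnion]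
    refine ⟨q, ?_, mem_filter.2 ⟨h1, hd⟩⟩
    rw [hQ, mem_filter, mem_range]
    exact ⟨Nat.lt_succ_of_le (Nat.le_floor hh), hq, hl⟩
  have h1 : (#A : ℝ) ≤ ∑ q ∈ Q, 2 * ((N : ℝ) / q ^ 2 + 1) := by
    have h2 : (#A : ℝ) ≤ ∑ q ∈ Q,
        (#((Ioc N (2 * N)).filter (fun n : ℕ => q ^ 2 ∣ n ^ 2 - 2)) : ℝ) := by
      exact_mod_cast (card_le_card hsub).trans card_biUnion_le
    refine h2.trans (sum_le_sum fun q hq => ?_)
    rw [hQ, mem_filter] at hq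
    refine cls N q hN hq.2.1 ?_
    have : (3 : ℝ) ≤ q := hlo.trans hq.2.2
    exact_mod_cast this
  have h2 : ∑ q ∈ Q, 2 * ((N : ℝ) / q ^ 2 + 1) = 2 * N * ∑ q ∈ Q, ((q : ℝ) ^ 2)⁻¹ + 2 * #Q := by
    have h3 : ∀ q ∈ Q, 2 * ((N : ℝ) / q ^ 2 + 1) = 2 * N * ((q : ℝ) ^ 2)⁻¹ + 2 := by
      intro q _
      rw [div_eq_mul_inv]
      ring
    rw [sum_congr rfl h3, sum_add_distrib, sum_const, nsmul_eq_mul, mul_comm (#Q : ℝ) 2, mul_sum]
  have h3 : ∑ q ∈ Q, ((q : ℝ) ^ 2)⁻¹ ≤ 2 / lo := by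
    have h4 : Q ⊆ Ioo (⌈lo⌉₊ - 1) (⌊hi⌋₊ + 1) := by
      intro q hq
      rw [hQ, mem_filter, mem_range] at hq
      rw [mem_Ioo]
      have h5 : ⌈lo⌉₊ ≤ q := Nat.ceil_le.2 hq.2.2
      have h6 : 0 < q := hq.2.1.pos
      exact ⟨by omega, hq.1⟩
    have h5 := sum_Ioo_inv_sq_le (α := ℝ) (⌈lo⌉₊ - 1) (⌊hi⌋₊ + 1)
    have h6 : ∑ q ∈ Q, ((q : ℝ) ^ 2)⁻¹ ≤ ∑ q ∈ Ioo (⌈lo⌉₊ - 1) (⌊hi⌋₊ + 1), ((q : ℝ) ^ 2)⁻¹ :=
      sum_le_sum_of_subset_of_nonneg h4 fun _ _ _ => by positivity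
    refine h6.trans (h5.trans ?_)
    have h7 : lo ≤ ((⌈lo⌉₊ - 1 : ℕ) : ℝ) + 1 := by
      have h8 : 1 ≤ ⌈lo⌉₊ := Nat.one_le_iff_ne_zero.2 (by
        rw [Ne, Nat.ceil_eq_zero]
        linarith)
      rw [Nat.cast_sub h8]
      have := Nat.le_ceil lo
      push_cast
      linarith
    exact div_le_div_of_nonneg_left (by norm_num) (by linarith) h7
  have h4 : (#Q : ℝ) ≤ hi + 1 := by
    have h5 : #Q ≤ ⌊hi⌋₊ + 1 := by
      refine (card_filter_le _ _).trans ?_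
      rw [card_range]
    have h6 : ((⌊hi⌋₊ : ℕ) : ℝ) ≤ hi := Nat.floor_le hhi
    have h7 : (#Q : ℝ) ≤ (⌊hi⌋₊ : ℝ) + 1 := by exact_mod_cast h5
    linarith
  have h5 : 2 * (N : ℝ) * ∑ q ∈ Q, ((q : ℝ) ^ 2)⁻¹ ≤ 2 * N * (2 / lo) :=
    mul_le_mul_of_nonneg_left h3 (by positivity)
  have h6 : 2 * (N : ℝ) * (2 / lo) = 4 * N / lo := by ring
  linarith

private theorem pell (m n₁ n₂ q₁ q₂ : ℕ) (hm : 100 ≤ m) (h1 : n₁ ^ 2 = m * q₁ ^ 2 + 2)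
    (h2 : n₂ ^ 2 = m * q₂ ^ 2 + 2) (hq : q₁ < q₂) (hq1 : 1 ≤ q₁) : 2 * q₁ ≤ q₂ := by
  have z1 : (n₁ : ℤ) ^ 2 = m * (q₁ : ℤ) ^ 2 + 2 := by exact_mod_cast h1
  have z2 : (n₂ : ℤ) ^ 2 = m * (q₂ : ℤ) ^ 2 + 2 := by exact_mod_cast h2
  have hqz : (q₁ : ℤ) < q₂ := by exact_mod_cast hq
  have hq1z : (1 : ℤ) ≤ q₁ := by exact_mod_cast hq1
  have hmz : (100 : ℤ) ≤ m := by exact_mod_cast hm
  have hn1 : (0 : ℤ) ≤ n₁ := by positivity
  have hn2 : (0 : ℤ) ≤ n₂ := by positivity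
  have e1 : ((n₁ : ℤ) * q₂ - n₂ * q₁) * (n₁ * q₂ + n₂ * q₁) = 2 * ((q₂ : ℤ) ^ 2 - q₁ ^ 2) := by
    have : ((n₁ : ℤ) * q₂ - n₂ * q₁) * (n₁ * q₂ + n₂ * q₁) =
        (n₁ : ℤ) ^ 2 * q₂ ^ 2 - n₂ ^ 2 * q₁ ^ 2 := by ring
    rw [this, z1, z2]
    ring
  have e2 : 0 < 2 * ((q₂ : ℤ) ^ 2 - q₁ ^ 2) := by nlinarith
  have e3 : 0 ≤ (n₁ : ℤ) * q₂ + n₂ * q₁ := by positivity
  have e4 : 0 < (n₁ : ℤ) * q₂ - n₂ * q₁ := by
    by_contra hcon
    push Not at hcon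
    have := mul_nonpos_of_nonpos_of_nonneg hcon e3
    linarith
  have e5 : (n₁ : ℤ) * q₂ + n₂ * q₁ ≤ 2 * ((q₂ : ℤ) ^ 2 - q₁ ^ 2) := by
    rw [← e1]
    nlinarith
  have e6 : (n₁ : ℤ) * q₂ ≤ 2 * q₂ * q₂ := by nlinarith [mul_nonneg hn2 (by linarith : (0:ℤ) ≤ q₁)]
  have e7 : (n₁ : ℤ) ≤ 2 * q₂ := le_of_mul_le_mul_right e6 (by linarith)
  have e8 : (10 * (q₁ : ℤ)) ^ 2 ≤ (n₁ : ℤ) ^ 2 := by
    rw [z1]
    nlinarith [mul_le_mul_of_nonneg_right hmz (sq_nonneg (q₁ : ℤ))]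
  have e9 : 10 * (q₁ : ℤ) ≤ n₁ := by
    exact (abs_le_of_sq_le_sq' e8 hn1).2
  have : 2 * (q₁ : ℤ) ≤ q₂ := by linarith
  exact_mod_cast this

/-- the decomposition in case (c) -/
private theorem caseC (N : ℕ) (hN : 1 ≤ N) (D : ℝ) (hD : 100 ≤ D) (M : ℝ) (n q : ℕ)
    (hn : n ∈ Ioc N (2 * N)) (hq : q.Prime) (hd : q ^ 2 ∣ n ^ 2 - 2)
    (hqY : 2 * (N : ℝ) ^ ((905 : ℝ) / 1000) < q)
    (hs : ∀ p : ℕ, p.Prime → p ∣ n ^ 2 - 2 → D ≤ (p : ℝ))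
    (hM : ((∏ p ∈ (n ^ 2 - 2).primeFactors.filter (fun p => p < pw N zE), p : ℕ) : ℝ) ≤ M)
    (hno : ¬ ∃ p : ℕ, p.Prime ∧ p ^ 2 ∣ n ^ 2 - 2 ∧ p < pw N zE) :
    ∃ m : ℕ, n ^ 2 = m * q ^ 2 + 2 ∧ 100 ≤ m ∧ (m : ℝ) ≤ M ∧ q ≤ 2 * N := by
  rw [mem_Ioc] at hn
  have hn2 : 2 ≤ n := by omega
  have hT2 : 2 ≤ n ^ 2 := by nlinarith
  have hT0 : n ^ 2 - 2 ≠ 0 := by
    have : 4 ≤ n ^ 2 := by nlinarith
    omega
  obtain ⟨m, hm⟩ := hd
  have hnm : n ^ 2 = m * q ^ 2 + 2 := by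
    have : n ^ 2 = (n ^ 2 - 2) + 2 := by omega
    rw [this, hm]
    ring
  have hm0 : m ≠ 0 := by
    rintro rfl
    rw [mul_zero] at hm
    exact hT0 hm
  have hmd : m ∣ n ^ 2 - 2 := Dvd.intro_left _ hm.symm
  have hNr : (1 : ℝ) ≤ N := by exact_mod_cast hN
  have hN0 : (0 : ℝ) < N := by linarith
  have hmZ : (m : ℝ) < (N : ℝ) ^ zE := by
    by_contra hcon
    push Not at hcon
    have h1 : (n : ℝ) ^ 2 = m * q ^ 2 + 2 := by exact_mod_cast hnm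
    have h2 : (n : ℝ) ≤ 2 * N := by exact_mod_cast hn.2
    have h3 : (n : ℝ) ^ 2 ≤ 4 * (N : ℝ) ^ 2 := by
      have : (0 : ℝ) ≤ n := by positivity
      nlinarith
    have h4 : (2 * (N : ℝ) ^ ((905 : ℝ) / 1000)) ^ 2 ≤ (q : ℝ) ^ 2 :=
      pow_le_pow_left₀ (by positivity) hqY.le 2
    have h5 : (N : ℝ) ^ zE * (2 * (N : ℝ) ^ ((905 : ℝ) / 1000)) ^ 2 = 4 * (N : ℝ) ^ 2 := by
      rw [mul_pow, ← Real.rpow_natCast ((N : ℝ) ^ ((905 : ℝ) / 1000)) 2, ← Real.rpow_mul hN0.le]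
      have : (N : ℝ) ^ zE * (2 ^ 2 * (N : ℝ) ^ ((905 : ℝ) / 1000 * ((2 : ℕ) : ℝ))) =
          4 * ((N : ℝ) ^ zE * (N : ℝ) ^ ((905 : ℝ) / 1000 * ((2 : ℕ) : ℝ))) := by ring
      rw [this, ← Real.rpow_add hN0]
      have e : zE + (905 : ℝ) / 1000 * ((2 : ℕ) : ℝ) = ((2 : ℕ) : ℝ) := by
        unfold zE
        push_cast
        norm_num
      rw [e, Real.rpow_natCast]
    have h6 : (N : ℝ) ^ zE * (2 * (N : ℝ) ^ ((905 : ℝ) / 1000)) ^ 2 ≤ m * (q : ℝ) ^ 2 :=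
      mul_le_mul hcon h4 (by positivity) (by positivity)
    linarith
  have hpr : ∀ r : ℕ, r.Prime → r ∣ m → r < pw N zE ∧ r ∣ n ^ 2 - 2 := by
    intro r hr hrm
    refine ⟨(lt_pw_iff N r zE).2 (lt_of_le_of_lt ?_ hmZ), hrm.trans hmd⟩
    exact_mod_cast Nat.le_of_dvd (Nat.pos_of_ne_zero hm0) hrm
  have hsq : Squarefree m := by
    rw [Nat.squarefree_iff_prime_squarefree]
    intro r hr hrr
    have h1 := hpr r hr ((Dvd.intro _ rfl).trans hrr)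
    refine hno ⟨r, hr, ?_, h1.1⟩
    rw [pow_two]
    exact hrr.trans hmd
  have hmM : (m : ℝ) ≤ M := by
    refine le_trans ?_ hM
    have h1 : m ≤ ∏ p ∈ (n ^ 2 - 2).primeFactors.filter (fun p => p < pw N zE), p := by
      conv_lhs => rw [← Nat.prod_primeFactors_of_squarefree hsq]
      refine prod_le_prod_of_subset_of_one_le' ?_ ?_
      · intro r hr
        rw [Nat.mem_primeFactors] at hr
        have h2 := hpr r hr.1 hr.2.1
        rw [mem_filter, Nat.mem_primeFactors]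
        exact ⟨⟨hr.1, h2.2, hT0⟩, h2.1⟩
      · intro r hr _
        rw [mem_filter, Nat.mem_primeFactors] at hr
        exact hr.1.1.one_lt.le
    exact_mod_cast h1
  have hqn : q < n := by
    have h1 : q ^ 2 < n ^ 2 := by
      have : q ^ 2 ≤ m * q ^ 2 := Nat.le_mul_of_pos_left _ (Nat.pos_of_ne_zero hm0)
      omega
    exact lt_of_pow_lt_pow_left₀ 2 (by omega) h1
  have hm1 : m ≠ 1 := by
    rintro rfl
    nlinarith [hq.two_le]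
  have hm100 : 100 ≤ m := by
    have h1 := Nat.minFac_prime hm1
    have h2 := Nat.minFac_dvd m
    have h3 := hs _ h1 (h2.trans hmd)
    have h4 : (100 : ℝ) ≤ m.minFac := hD.trans h3
    have h5 : 100 ≤ m.minFac := by exact_mod_cast h4
    exact h5.trans (Nat.le_of_dvd (Nat.pos_of_ne_zero hm0) h2)
  exact ⟨m, hnm, hm100, hmM, by omega⟩

private theorem cntC (N : ℕ) (M : ℝ) (hM : 0 ≤ M) (A : Finset ℕ)
    (hA : ∀ n ∈ A, ∃ q m : ℕ, n ^ 2 = m * q ^ 2 + 2 ∧ 100 ≤ m ∧ (m : ℝ) ≤ M ∧ q ≤ 2 * N ∧ 1 ≤ q) :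
    (#A : ℝ) ≤ (M + 1) * (Nat.log 2 (2 * N) + 1) := by
  classical
  choose! q m h1 h2 h3 h4 h5 using hA
  have hcard : #A ≤ #((range (⌊M⌋₊ + 1)) ×ˢ (range (Nat.log 2 (2 * N) + 1))) := by
    refine card_le_card_of_injOn (fun n => (m n, Nat.log 2 (q n))) ?_ ?_
    · intro n hn
      have hn' := mem_coe.1 hn
      rw [mem_coe, mem_product, mem_range, mem_range]
      refine ⟨Nat.lt_succ_of_le (Nat.le_floor (h3 n hn')), ?_⟩
      show Nat.log 2 (q n) < Nat.log 2 (2 * N) + 1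
      exact Nat.lt_succ_of_le (Nat.log_mono_right (h4 n hn'))
    · intro n hn n' hn' he
      have hn1 := mem_coe.1 hn
      have hn2 := mem_coe.1 hn'
      simp only [Prod.mk.injEq] at he
      obtain ⟨e1, e2⟩ := he
      have aux : ∀ x ∈ A, ∀ y ∈ A, m x = m y → Nat.log 2 (q x) = Nat.log 2 (q y) → ¬ q x < q y := by
        intro x hx y hy ex ey hlt
        have h6 := pell (m x) x y (q x) (q y) (h2 x hx) (h1 x hx) (by rw [ex]; exact h1 y hy) hlt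
          (h5 x hx)
        have h7 : Nat.log 2 (q x * 2) = Nat.log 2 (q x) + 1 :=
          Nat.log_mul_base (by norm_num) (by have := h5 x hx; omega)
        have h8 : Nat.log 2 (q x * 2) ≤ Nat.log 2 (q y) := Nat.log_mono_right (by omega)
        omega
      have e3 : q n = q n' := by
        have a1 := aux n hn1 n' hn2 e1 e2
        have a2 := aux n' hn2 n hn1 e1.symm e2.symm
        omega
      have e4 : n ^ 2 = n' ^ 2 := by rw [h1 n hn1, h1 n' hn2, e1, e3]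
      exact (pow_left_inj₀ (Nat.zero_le _) (Nat.zero_le _) (by norm_num)).1 e4
  rw [card_product, card_range, card_range] at hcard
  have h6 : (#A : ℝ) ≤ ((⌊M⌋₊ : ℝ) + 1) * (Nat.log 2 (2 * N) + 1) := by exact_mod_cast hcard
  refine h6.trans (mul_le_mul_of_nonneg_right ?_ (by positivity))
  have := Nat.floor_le hM
  linarith

private theorem asym : ∃ N₀ : ℕ, 10 ≤ N₀ ∧ ∀ N : ℕ, N₀ ≤ N →
    8 ≤ Real.log N ∧ Real.log N ≤ (N : ℝ) ^ ((9 : ℝ) / 10) ∧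
      48 * (Real.log N) ^ 9 ≤ (N : ℝ) ^ ((95 : ℝ) / 1000) := by
  have h1 := (isLittleO_log_rpow_rpow_atTop (s := (9 : ℝ) / 10) 1 (by norm_num)).bound
    (show (0 : ℝ) < 1 by norm_num)
  have h2 := (isLittleO_log_rpow_rpow_atTop (s := (95 : ℝ) / 1000) 9 (by norm_num)).bound
    (show (0 : ℝ) < 1 / 48 by norm_num)
  have h3 := (Real.tendsto_log_atTop.eventually_ge_atTop 8)
  have h4 := (tendsto_natCast_atTop_atTop (R := ℝ)).eventually (h1.and (h2.and h3))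
  obtain ⟨N₀, hN₀⟩ := Filter.eventually_atTop.1 h4
  refine ⟨N₀ + 10, by omega, fun N hN => ?_⟩
  obtain ⟨a1, a2, a3⟩ := hN₀ N (by omega)
  have hl : 0 ≤ Real.log N := by linarith
  rw [Real.rpow_one, Real.norm_eq_abs, Real.norm_eq_abs, abs_of_nonneg hl,
    abs_of_nonneg (by positivity), one_mul] at a1
  have e9 : (Real.log N) ^ (9 : ℝ) = (Real.log N) ^ 9 := by
    rw [← Real.rpow_natCast]
    norm_num
  rw [e9, Real.norm_eq_abs, Real.norm_eq_abs, abs_of_nonneg (by positivity),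
    abs_of_nonneg (by positivity)] at a2
  exact ⟨a3, a1, by linarith⟩

open Classical in
theorem sqf : ∃ N₀ : ℕ, ∀ N : ℕ, N₀ ≤ N →
    (#((Ioc N (2 * N)).filter (fun n : ℕ => (∃ q : ℕ, q.Prime ∧ q ^ 2 ∣ n ^ 2 - 2) ∧
      (∀ p : ℕ, p.Prime → p ∣ n ^ 2 - 2 → (Real.log N) ^ 10 ≤ (p : ℝ)) ∧
      ((∏ p ∈ (n ^ 2 - 2).primeFactors.filter (fun p => p < pw N zE), p : ℕ) : ℝ) ≤
        (N : ℝ) ^ ((1 : ℝ) / 1000))) : ℝ) ≤ N / (Real.log N) ^ 9 := by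
  obtain ⟨N₀, hN10, hN₀⟩ := asym
  refine ⟨N₀, fun N hN => ?_⟩
  obtain ⟨hL8, hL9, hL48⟩ := hN₀ N hN
  have hN1 : 1 ≤ N := by omega
  have hNr : (1 : ℝ) ≤ N := by exact_mod_cast hN1
  have hN0 : (0 : ℝ) < N := by linarith
  obtain ⟨L, hL⟩ : ∃ L, L = Real.log N := ⟨_, rfl⟩
  rw [← hL] at hL8 hL9 hL48 ⊢
  have hD : 100 ≤ L ^ 10 := by
    calc (100 : ℝ) ≤ 8 ^ 10 := by norm_num
      _ ≤ L ^ 10 := pow_le_pow_left₀ (by norm_num) hL8 10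
  suffices hmain : ∀ A : Finset ℕ, (∀ n ∈ A, n ∈ Ioc N (2 * N) ∧
      (∃ q : ℕ, q.Prime ∧ q ^ 2 ∣ n ^ 2 - 2) ∧
      (∀ p : ℕ, p.Prime → p ∣ n ^ 2 - 2 → L ^ 10 ≤ (p : ℝ)) ∧
      ((∏ p ∈ (n ^ 2 - 2).primeFactors.filter (fun p => p < pw N zE), p : ℕ) : ℝ) ≤
        (N : ℝ) ^ ((1 : ℝ) / 1000)) → (#A : ℝ) ≤ N / L ^ 9 by
    exact hmain _ fun n hn => mem_filter.1 hn
  intro A hA
  obtain ⟨M, hM⟩ : ∃ M, M = (N : ℝ) ^ ((1 : ℝ) / 1000) := ⟨_, rfl⟩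
  obtain ⟨Y, hY⟩ : ∃ Y, Y = (N : ℝ) ^ ((905 : ℝ) / 1000) := ⟨_, rfl⟩
  obtain ⟨Z, hZ⟩ : ∃ Z, Z = (N : ℝ) ^ zE := ⟨_, rfl⟩
  have hM1 : 1 ≤ M := by rw [hM]; exact Real.one_le_rpow hNr (by norm_num)
  have hY1 : 1 ≤ Y := by rw [hY]; exact Real.one_le_rpow hNr (by norm_num)
  have hMY : M ≤ Y := by
    rw [hM, hY]
    exact Real.rpow_le_rpow_of_exponent_le hNr (by norm_num)
  have hZ3 : 3 ≤ Z := by
    have h1 : (N : ℝ) ^ ((95 : ℝ) / 1000) ≤ Z := by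
      rw [hZ]
      exact Real.rpow_le_rpow_of_exponent_le hNr (by unfold zE; norm_num)
    have h2 : (1 : ℝ) ≤ L ^ 9 := one_le_pow₀ (by linarith)
    linarith
  have hNZ : 4 * N / Z ≤ 4 * Y := by
    rw [div_le_iff₀ (by linarith)]
    have h1 : (N : ℝ) ≤ Y * Z := by
      rw [hY, hZ, ← Real.rpow_add hN0]
      calc (N : ℝ) = (N : ℝ) ^ (1 : ℝ) := (Real.rpow_one _).symm
        _ ≤ _ := Real.rpow_le_rpow_of_exponent_le hNr (by unfold zE; norm_num)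
    linarith
  have hML : M * L ≤ Y := by
    have h1 : M * L ≤ M * (N : ℝ) ^ ((9 : ℝ) / 10) :=
      mul_le_mul_of_nonneg_left hL9 (by linarith)
    refine h1.trans ?_
    rw [hM, hY, ← Real.rpow_add hN0]
    exact Real.rpow_le_rpow_of_exponent_le hNr (by norm_num)
  have hlog : (Nat.log 2 (2 * N) : ℝ) + 1 ≤ 5 * L := by
    have h1 : (Nat.log 2 (2 * N) : ℝ) ≤ Real.logb 2 ((2 * N : ℕ) : ℝ) :=
      Real.natLog_le_logb _ _
    have h2 : Real.logb 2 ((2 * N : ℕ) : ℝ) ≤ 2 * (1 + L) := by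
      rw [Real.logb, div_le_iff₀ (Real.log_pos (by norm_num))]
      push_cast
      rw [Real.log_mul (by norm_num) (by linarith), ← hL]
      have h3 : (0.5 : ℝ) ≤ Real.log 2 := by
        have := Real.log_two_gt_d9
        linarith
      have h4 : Real.log 2 ≤ 1 := by
        have := Real.log_two_lt_d9
        linarith
      nlinarith
    linarith
  obtain ⟨Aa, hAa⟩ : ∃ Aa : Finset ℕ, Aa = A.filter
    (fun n => ∃ p : ℕ, p.Prime ∧ p ^ 2 ∣ n ^ 2 - 2 ∧ p < pw N zE) := ⟨_, rfl⟩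
  obtain ⟨Ab, hAb⟩ : ∃ Ab : Finset ℕ, Ab = A.filter
    (fun n => ∃ q : ℕ, q.Prime ∧ q ^ 2 ∣ n ^ 2 - 2 ∧ Z ≤ q ∧ (q : ℝ) ≤ 2 * Y) := ⟨_, rfl⟩
  obtain ⟨Ac, hAc⟩ : ∃ Ac : Finset ℕ, Ac = A.filter
    (fun n => (¬ ∃ p : ℕ, p.Prime ∧ p ^ 2 ∣ n ^ 2 - 2 ∧ p < pw N zE) ∧
      ∃ q : ℕ, q.Prime ∧ q ^ 2 ∣ n ^ 2 - 2 ∧ 2 * Y < q) := ⟨_, rfl⟩
  have hsub : A ⊆ Aa ∪ (Ab ∪ Ac) := by
    intro n hn
    rw [mem_union, mem_union, hAa, hAb, hAc, mem_filter, mem_filter, mem_filter]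
    by_cases h1 : ∃ p : ℕ, p.Prime ∧ p ^ 2 ∣ n ^ 2 - 2 ∧ p < pw N zE
    · exact Or.inl ⟨hn, h1⟩
    · right
      have h2 := hA n hn
      obtain ⟨q, hq, hd⟩ := h2.2.1
      by_cases h3 : (q : ℝ) ≤ 2 * Y
      · left
        refine ⟨hn, q, hq, hd, ?_, h3⟩
        by_contra h4
        push Not at h4
        exact h1 ⟨q, hq, hd, (lt_pw_iff N q zE).2 (by rw [← hZ]; exact h4)⟩
      · right
        exact ⟨hn, h1, q, hq, hd, not_le.1 h3⟩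
  have hcard : (#A : ℝ) ≤ #Aa + (#Ab + #Ac) := by
    have h1 := (card_le_card hsub).trans ((card_union_le _ _).trans
      (Nat.add_le_add_left (card_union_le _ _) _))
    exact_mod_cast h1
  have ha : (#Aa : ℝ) ≤ 4 * N / L ^ 10 + 2 * (M + 1) := by
    refine cnt_range N hN1 (L ^ 10) M (by linarith) (by linarith) Aa fun n hn => ?_
    rw [hAa, mem_filter] at hn
    obtain ⟨h1, -, h2, h3⟩ := hA n hn.1
    obtain ⟨-, q, hq, hd, hz⟩ := hn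
    have hqd : q ∣ n ^ 2 - 2 := (Dvd.intro _ (pow_two q).symm).trans hd
    refine ⟨h1, q, hq, hd, h2 q hq hqd, ?_⟩
    rw [hM]
    refine le_trans ?_ h3
    have hT0 : n ^ 2 - 2 ≠ 0 := by
      rw [mem_Ioc] at h1
      have : 4 ≤ n ^ 2 := by nlinarith [h1.1]
      omega
    have h4 : q ∈ (n ^ 2 - 2).primeFactors.filter (fun p => p < pw N zE) := by
      rw [mem_filter, Nat.mem_primeFactors]
      exact ⟨⟨hq, hqd, hT0⟩, hz⟩
    have h5 : q ≤ ∏ p ∈ (n ^ 2 - 2).primeFactors.filter (fun p => p < pw N zE), p := by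
      refine Nat.le_of_dvd ?_ (dvd_prod_of_mem _ h4)
      refine prod_pos fun p hp => ?_
      rw [mem_filter, Nat.mem_primeFactors] at hp
      exact hp.1.1.pos
    exact_mod_cast h5
  have hb : (#Ab : ℝ) ≤ 4 * N / Z + 2 * (2 * Y + 1) := by
    refine cnt_range N hN1 Z (2 * Y) hZ3 (by linarith) Ab fun n hn => ?_
    rw [hAb, mem_filter] at hn
    exact ⟨(hA n hn.1).1, hn.2⟩
  have hc : (#Ac : ℝ) ≤ (M + 1) * (Nat.log 2 (2 * N) + 1) := by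
    refine cntC N M (by linarith) Ac fun n hn => ?_
    rw [hAc, mem_filter] at hn
    obtain ⟨h1, -, h2, h3⟩ := hA n hn.1
    obtain ⟨-, h4, q, hq, hd, hqY⟩ := hn
    rw [hY] at hqY
    rw [← hM] at h3
    obtain ⟨m, a1, a2, a3, a4⟩ := caseC N hN1 (L ^ 10) hD M n q h1 hq hd hqY h2 h3 h4
    exact ⟨q, m, a1, a2, a3, a4, hq.one_lt.le⟩
  have hc' : (M + 1) * ((Nat.log 2 (2 * N) : ℝ) + 1) ≤ 10 * Y := by
    have h1 : (M + 1) * ((Nat.log 2 (2 * N) : ℝ) + 1) ≤ (2 * M) * (5 * L) :=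
      mul_le_mul (by linarith) hlog (by positivity) (by linarith)
    linarith
  have h10 : 4 * N / L ^ 10 ≤ (N / L ^ 9) / 2 := by
    have e : 4 * (N : ℝ) / L ^ 10 = (N / L ^ 9) * (4 / L) := by
      field_simp
    rw [e]
    have h1 : 4 / L ≤ 1 / 2 := by
      rw [div_le_div_iff₀ (by linarith) (by norm_num)]
      linarith
    have h2 : (0 : ℝ) ≤ N / L ^ 9 := by positivity
    calc N / L ^ 9 * (4 / L) ≤ N / L ^ 9 * (1 / 2) := mul_le_mul_of_nonneg_left h1 h2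
      _ = (N / L ^ 9) / 2 := by ring
  have h11 : 24 * Y ≤ (N / L ^ 9) / 2 := by
    have h1 : 48 * L ^ 9 * Y ≤ N := by
      have h2 : 48 * L ^ 9 * Y ≤ (N : ℝ) ^ ((95 : ℝ) / 1000) * Y :=
        mul_le_mul_of_nonneg_right hL48 (by linarith)
      refine h2.trans (le_of_eq ?_)
      rw [hY, ← Real.rpow_add hN0]
      have : (95 : ℝ) / 1000 + 905 / 1000 = 1 := by norm_num
      rw [this, Real.rpow_one]
    have h3 : (0 : ℝ) < L ^ 9 := by positivity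
    rw [div_div, le_div_iff₀ (by positivity)]
    linarith
  have htot : 2 * (M + 1) + 4 * N / Z + 2 * (2 * Y + 1) + 10 * Y ≤ 24 * Y := by
    linarith
  linarith

end Pool.Agent.Work.MP_c971ef_nt.R5
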