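import Mathlib
import Pool.Agent.Work.MP_c971ef_nt.R5.Asm
import Pool.Agent.Work.MP_c971ef_nt.R5.Sqf
import Pool.Agent.Work.MP_c971ef_nt.R5.OmM

set_option autoImplicit false

/-!
Module Cnt (size M). From `asm` to the primes with `G5`. N large, n in Gn δ k N E, E in ES C δ N (E ⊆ Zw δ N ⊆ Zs δ N, #E = C), m = n^2 - 2.
(1) A prime p | m is `Sp` (n is an odd prime > 2, m is odd; 2 is a square mod p and p does not divide 2: `ZMod.exists_sq_eq_two_iff`).
So a prime p | m with p < pw N δ is in Zs δ N, hence in E. So E = the p in Zs δ N dividing m, and the sets Gn for different E are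
disjoint: the sum of the #Gn is the cardinality of the union U (`card_biUnion`).
(2) No prime p with pw N δ ≤ p < pw N zE divides m (`Gm`; p < N since pw N zE ≤ N). So the primes p | m below pw N zE are the
elements of E (those are < pw N δ ≤ pw N zE, δ ≤ 1/10), their product is ≤ N^(δ C) ≤ N^(1/1000), and every prime factor of m is ≥ (log N)^10
(E ⊆ Zw; for the others p ≥ pw N zE ≥ (log N)^10). So the n in U with q^2 | m for some prime q are counted in `sqf`: at most N/(log N)^9.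
(3) For the other n in U: m is squarefree, m = (prod E) * M (prod of distinct primes dividing m), the prime factors of M divide m and are
not in E (squarefree), so they are ≥ pw N zE ≥ N^(19/100); M ≤ m ≤ 4 N^2, M ≠ 0. The sum in `omM` over the primeFactors of M below pw N yE is at
most the sum in `Gm` (each such p is in PQ (pw N δ) N with pw N zE ≤ p < pw N yE, p | m; the other terms are ≥ 0), so Ω(M) ≤ 5 and
`G5 C N n`.
(4) #{n in PN N : G5 C N n} ≥ #U - N/(log N)^9 ≥ (c/2) (loglog N)^C N/(log N)^2 for N large (loglog N ≥ 1).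
-/

namespace Pool.Agent.Work.MP_c971ef_nt.R5

open Finset Pool.Agent.Work.MP_2dba45_nt.Sv
open Pool.Agent.Work.MP_73869e_nt.P5 (zE yE lam5 wt5)

private theorem cnt_basic {N n : ℕ} (hN : 2 ≤ N) (hn : n ∈ PN N) :
    n.Prime ∧ N < n ∧ n ≤ 2 * N ∧ n % 2 = 1 := by
  unfold PN at hn
  rw [mem_filter, mem_Ioc] at hn
  refine ⟨hn.2, hn.1.1, hn.1.2, ?_⟩
  rcases hn.2.eq_two_or_odd with h | h
  · omega
  · exact h

private theorem cnt_sp {N n p : ℕ} (hN : 2 ≤ N) (hn : n ∈ PN N) (hp : p.Prime)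
    (hd : p ∣ n ^ 2 - 2) : Sp p := by
  obtain ⟨-, h2, -, h4⟩ := cnt_basic hN hn
  have hge : 2 ≤ n ^ 2 := by nlinarith
  have hp2 : p ≠ 2 := by
    rintro rfl
    have h5 : (n ^ 2) % 2 = 1 := by
      rw [Nat.pow_mod, h4]
    omega
  have := Fact.mk hp
  refine ⟨hp, (ZMod.exists_sq_eq_two_iff hp2).mp ⟨(n : ZMod p), ?_⟩⟩
  have h6 : ((n ^ 2 - 2 : ℕ) : ZMod p) = 0 := (ZMod.natCast_eq_zero_iff _ _).mpr hd
  rw [Nat.cast_sub hge] at h6
  push_cast at h6
  linear_combination (-1 : ZMod p) * h6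

private theorem cnt_pw_le {N : ℕ} (hN : 2 ≤ N) {v : ℝ} (hv : v ≤ 1) : pw N v ≤ N := by
  unfold pw
  rw [Nat.ceil_le]
  have h1 : (1 : ℝ) ≤ N := by exact_mod_cast (by omega : 1 ≤ N)
  calc (N : ℝ) ^ v ≤ (N : ℝ) ^ (1 : ℝ) := Real.rpow_le_rpow_of_exponent_le h1 hv
    _ = N := Real.rpow_one _

private theorem cnt_pw_mono {N : ℕ} (hN : 2 ≤ N) {v w : ℝ} (hv : v ≤ w) : pw N v ≤ pw N w := by
  unfold pw
  have h1 : (1 : ℝ) ≤ N := by exact_mod_cast (by omega : 1 ≤ N)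
  exact Nat.ceil_mono (Real.rpow_le_rpow_of_exponent_le h1 hv)

private theorem cnt_wt {N k p : ℕ} (hN : 2 ≤ N) (hk : 1 ≤ k) (hp : 1 ≤ p) (hlt : p < pw N yE) :
    0 ≤ wt5 k (cost (1000 * k) N p) := by
  have hk0 : (0 : ℝ) < k := by exact_mod_cast hk
  have h1 : yE = ((450 * k : ℕ) : ℝ) / ((1000 * k : ℕ) : ℝ) := by
    unfold yE
    push_cast
    field_simp
    norm_num
  rw [h1, lt_pw_iff_cost (1000 * k) N p (450 * k) (by omega) hN hp] at hlt
  have h2 : ((cost (1000 * k) N p : ℕ) : ℝ) ≤ 450 * k := by exact_mod_cast hlt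
  unfold wt5
  have h3 : ((cost (1000 * k) N p : ℝ) - 1) / (450 * k) ≤ 1 := by
    rw [div_le_one (by positivity)]
    linarith
  linarith

open Classical in
/-- the elements of `E` are the primes of `Zs δ N` dividing `n ^ 2 - 2` -/
private theorem cnt_E {δ : ℝ} {C k N n : ℕ} {E : Finset ℕ} (hE : E ∈ ES C δ N)
    (hn : n ∈ Gn δ k N E) : E = (Zs δ N).filter (fun p => p ∣ n ^ 2 - 2) := by
  unfold ES at hE
  rw [mem_powersetCard] at hE
  unfold Gn AN at hn
  rw [mem_filter, mem_filter] at hn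
  ext p
  rw [mem_filter]
  constructor
  · intro hp
    have h1 := hE.1 hp
    unfold Zw at h1
    rw [mem_filter] at h1
    exact ⟨h1.1, hn.1.2 p hp⟩
  · rintro ⟨h1, h2⟩
    by_contra h3
    exact hn.2.1 p (mem_sdiff.mpr ⟨h1, h3⟩) h2

open Classical in
private theorem cnt_low {δ : ℝ} {C k N n : ℕ} {E : Finset ℕ} (hN : 2 ≤ N) (hE : E ∈ ES C δ N)
    (hn : n ∈ Gn δ k N E) {p : ℕ} (hp : p.Prime) (hd : p ∣ n ^ 2 - 2) (hlt : p < pw N zE) :
    p ∈ E := by
  have hEE := cnt_E hE hn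
  unfold Gn AN at hn
  rw [mem_filter, mem_filter] at hn
  by_cases h1 : p < pw N δ
  · rw [hEE, mem_filter]
    refine ⟨?_, hd⟩
    unfold Zs
    rw [mem_filter, mem_range]
    exact ⟨h1, cnt_sp hN hn.1.1 hp hd⟩
  · exfalso
    refine hn.2.2.1 p ?_ hlt hd
    unfold PQ
    rw [mem_filter, mem_Ico]
    exact ⟨⟨not_lt.mp h1, lt_of_lt_of_le hlt (cnt_pw_le hN (by unfold zE; norm_num))⟩, hp⟩

private theorem cnt_prod {δ : ℝ} {C N : ℕ} {E : Finset ℕ} (hN : 2 ≤ N)
    (hδC : δ * C ≤ 1 / 1000) (hE : E ∈ ES C δ N) :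
    ((∏ p ∈ E, p : ℕ) : ℝ) ≤ (N : ℝ) ^ ((1 : ℝ) / 1000) := by
  unfold ES at hE
  rw [mem_powersetCard] at hE
  have h1 : (1 : ℝ) ≤ N := by exact_mod_cast (by omega : 1 ≤ N)
  have h0 : (0 : ℝ) ≤ N := by linarith
  push_cast
  calc ∏ p ∈ E, (p : ℝ) ≤ ∏ _p ∈ E, (N : ℝ) ^ δ := by
        refine Finset.prod_le_prod (fun p _ => by positivity) fun p hp => ?_
        have h2 := hE.1 hp
        unfold Zw Zs at h2
        rw [mem_filter, mem_filter, mem_range, lt_pw_iff] at h2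
        exact h2.1.1.le
    _ = (N : ℝ) ^ (δ * C) := by
        rw [prod_const, hE.2, ← Real.rpow_natCast, ← Real.rpow_mul h0]
    _ ≤ _ := Real.rpow_le_rpow_of_exponent_le h1 hδC

open Classical in
private theorem cnt_case {δ : ℝ} {C k N n : ℕ} {E : Finset ℕ} (hN : 2 ≤ N)
    (hδ1 : δ ≤ 1 / 10) (hδC : δ * C ≤ 1 / 1000) (hk : 1 ≤ k)
    (hlog : (Real.log N) ^ 10 ≤ (N : ℝ) ^ ((19 : ℝ) / 100))
    (hom : ∀ M : ℕ, M ≠ 0 → (M : ℝ) ≤ 5 * (N : ℝ) ^ 2 →
      (∀ p : ℕ, p.Prime → p ∣ M → pw N zE ≤ p) → (∀ p : ℕ, p.Prime → ¬ p ^ 2 ∣ M) →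
      lam5 * ∑ p ∈ M.primeFactors.filter (fun p => p < pw N yE), wt5 k (cost (1000 * k) N p) < 1 →
      ArithmeticFunction.cardFactors M ≤ 5)
    (hE : E ∈ ES C δ N) (hn : n ∈ Gn δ k N E) :
    n ∈ ((Ioc N (2 * N)).filter (fun n : ℕ => (∃ q : ℕ, q.Prime ∧ q ^ 2 ∣ n ^ 2 - 2) ∧
      (∀ p : ℕ, p.Prime → p ∣ n ^ 2 - 2 → (Real.log N) ^ 10 ≤ (p : ℝ)) ∧
      ((∏ p ∈ (n ^ 2 - 2).primeFactors.filter (fun p => p < pw N zE), p : ℕ) : ℝ) ≤
        (N : ℝ) ^ ((1 : ℝ) / 1000))) ∪ (PN N).filter (fun n => G5 C N n) := by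
  have hnP : n ∈ PN N := by
    unfold Gn AN at hn
    rw [mem_filter, mem_filter] at hn
    exact hn.1.1
  have hdE : ∀ p ∈ E, p ∣ n ^ 2 - 2 := by
    unfold Gn AN at hn
    rw [mem_filter, mem_filter] at hn
    exact hn.1.2
  have hGm : Gm δ k N (n ^ 2 - 2) := by
    unfold Gn at hn
    rw [mem_filter] at hn
    exact hn.2.2
  obtain ⟨hnp, hn1, hn2, -⟩ := cnt_basic hN hnP
  have hm0 : n ^ 2 - 2 ≠ 0 := by
    have : 3 ^ 2 ≤ n ^ 2 := Nat.pow_le_pow_left (by omega) 2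
    omega
  have hEprime : ∀ p ∈ E, p.Prime ∧ (Real.log N) ^ 10 ≤ (p : ℝ) := by
    intro p hp
    unfold ES at hE
    rw [mem_powersetCard] at hE
    have h1 := hE.1 hp
    unfold Zw Zs at h1
    rw [mem_filter, mem_filter] at h1
    exact ⟨h1.1.2.1, h1.2⟩
  have hcard : #E = C := by
    unfold ES at hE
    exact (mem_powersetCard.mp hE).2
  -- all prime factors are large
  have hlarge : ∀ p : ℕ, p.Prime → p ∣ n ^ 2 - 2 → (Real.log N) ^ 10 ≤ (p : ℝ) := by
    intro p hp hd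
    by_cases h1 : p < pw N zE
    · exact (hEprime p (cnt_low hN hE hn hp hd h1)).2
    · rw [lt_pw_iff, not_lt] at h1
      exact hlog.trans h1
  have hprod : ((∏ p ∈ (n ^ 2 - 2).primeFactors.filter (fun p => p < pw N zE), p : ℕ) : ℝ) ≤
        (N : ℝ) ^ ((1 : ℝ) / 1000) := by
    refine le_trans ?_ (cnt_prod hN hδC hE)
    have h1 : (n ^ 2 - 2).primeFactors.filter (fun p => p < pw N zE) ⊆ E := by
      intro p hp
      rw [mem_filter] at hp
      exact cnt_low hN hE hn (Nat.prime_of_mem_primeFactors hp.1) (Nat.dvd_of_mem_primeFactors hp.1)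
        hp.2
    have h2 : ∏ p ∈ (n ^ 2 - 2).primeFactors.filter (fun p => p < pw N zE), p ≤ ∏ p ∈ E, p :=
      Finset.prod_le_prod_of_subset_of_one_le' h1 fun p hp _ => (hEprime p hp).1.one_le
    exact_mod_cast h2
  by_cases hsq : ∃ q : ℕ, q.Prime ∧ q ^ 2 ∣ n ^ 2 - 2
  · apply mem_union_left
    rw [mem_filter, mem_Ioc]
    exact ⟨⟨hn1, hn2⟩, hsq, hlarge, hprod⟩
  · apply mem_union_right
    rw [mem_filter]
    refine ⟨hnP, ?_⟩
    have hdvd : ∏ p ∈ E, p ∣ n ^ 2 - 2 :=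
      Finset.prod_primes_dvd _ (fun p hp => (hEprime p hp).1.prime) hdE
    obtain ⟨M, hM⟩ := hdvd
    have hM0 : M ≠ 0 := by
      rintro rfl
      exact hm0 (by rw [hM, mul_zero])
    have hMd : M ∣ n ^ 2 - 2 := ⟨∏ p ∈ E, p, by rw [hM, mul_comm]⟩
    have hMp : ∀ r : ℕ, r.Prime → r ∣ M → pw N zE ≤ r := by
      intro r hr hd
      by_contra h1
      have h2 := cnt_low hN hE hn hr (hd.trans hMd) (not_le.mp h1)
      apply hsq
      refine ⟨r, hr, ?_⟩
      rw [hM, pow_two]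
      exact Nat.mul_dvd_mul (Finset.dvd_prod_of_mem _ h2) hd
    have hMsq : ∀ p : ℕ, p.Prime → ¬ p ^ 2 ∣ M := fun p hp hd => hsq ⟨p, hp, hd.trans hMd⟩
    have hMle : (M : ℝ) ≤ 5 * (N : ℝ) ^ 2 := by
      have h1 : M ≤ n ^ 2 - 2 := Nat.le_of_dvd (Nat.pos_of_ne_zero hm0) hMd
      have h2 : n ^ 2 ≤ (2 * N) ^ 2 := Nat.pow_le_pow_left hn2 2
      have h3 : M ≤ 5 * N ^ 2 := by
        have h4 : (2 * N) ^ 2 = 4 * N ^ 2 := by ring
        omega
      exact_mod_cast h3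
    refine ⟨E, M, hcard, fun p hp => (hEprime p hp).1, hM, ?_, ?_⟩
    · refine hom M hM0 hMle hMp hMsq (lt_of_le_of_lt ?_ hGm.2)
      have hlam : (0 : ℝ) ≤ lam5 := by
        unfold lam5
        norm_num
      refine mul_le_mul_of_nonneg_left ?_ hlam
      refine Finset.sum_le_sum_of_subset_of_nonneg ?_ ?_
      · intro p hp
        rw [mem_filter] at hp
        have hpp := Nat.prime_of_mem_primeFactors hp.1
        have hpd := Nat.dvd_of_mem_primeFactors hp.1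
        have h1 := hMp p hpp hpd
        rw [mem_filter]
        refine ⟨?_, h1, hp.2, hpd.trans hMd⟩
        unfold PQ
        rw [mem_filter, mem_Ico]
        refine ⟨⟨le_trans (cnt_pw_mono hN ?_) h1,
          lt_of_lt_of_le hp.2 (cnt_pw_le hN (by unfold yE; norm_num))⟩, hpp⟩
        unfold zE
        linarith
      · intro p hp _
        rw [mem_filter] at hp
        unfold PQ at hp
        rw [mem_filter] at hp
        exact cnt_wt hN hk hp.1.2.one_le hp.2.2.1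
    · intro r hr hd
      have h1 := not_lt.mpr (hMp r hr hd)
      rw [lt_pw_iff, not_lt] at h1
      exact h1

open Classical in
theorem cnt (C : ℕ) : ∃ (c : ℝ) (N₀ : ℕ), 0 < c ∧ ∀ N : ℕ, N₀ ≤ N →
    c * (Real.log (Real.log N)) ^ C * (N / (Real.log N) ^ 2) ≤
      (#((PN N).filter (fun n => G5 C N n)) : ℝ) := by
  obtain ⟨δ, k, c, N₁, hδ0, hδ1, hδC, hk, hc, hasm⟩ := asm C
  obtain ⟨N₂, hsqf⟩ := sqf
  obtain ⟨N₃, homM⟩ := omM
  -- asymptotics
  have hev : ∀ᶠ N : ℕ in Filter.atTop, (Real.log N) ^ 10 ≤ (N : ℝ) ^ ((19 : ℝ) / 100) ∧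
      1 ≤ Real.log (Real.log N) ∧ 1 ≤ Real.log N ∧ 2 / c ≤ Real.log N := by
    have h1 : ∀ᶠ x : ℝ in Filter.atTop, (Real.log x) ^ 10 ≤ x ^ ((19 : ℝ) / 100) := by
      have h2 := (isLittleO_log_rpow_rpow_atTop (10 : ℝ)
        (show (0 : ℝ) < 19 / 100 by norm_num)).bound one_pos
      filter_upwards [h2, Filter.eventually_ge_atTop 1] with x hx hx1
      have h3 : 0 ≤ Real.log x := Real.log_nonneg hx1
      rw [Real.norm_of_nonneg (Real.rpow_nonneg h3 _),
        Real.norm_of_nonneg (Real.rpow_nonneg (by linarith) _), one_mul] at hx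
      have h4 : (Real.log x) ^ (10 : ℝ) = (Real.log x) ^ (10 : ℕ) := by
        rw [← Real.rpow_natCast]
        norm_num
      rw [h4] at hx
      exact hx
    have h5 := Real.tendsto_log_atTop
    have h6 := h5.comp h5
    have h7 : Filter.Tendsto (fun N : ℕ => (N : ℝ)) Filter.atTop Filter.atTop :=
      tendsto_natCast_atTop_atTop
    exact ((h7.eventually h1).and (((h6.comp h7).eventually_ge_atTop 1).and
      (((h5.comp h7).eventually_ge_atTop 1).and ((h5.comp h7).eventually_ge_atTop (2 / c)))))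
  obtain ⟨N₄, hN₄⟩ := Filter.eventually_atTop.mp hev
  refine ⟨c / 2, N₁ + N₂ + N₃ + N₄ + 2, by positivity, ?_⟩
  intro N hN
  obtain ⟨hlog, hll, hl1, hl2⟩ := hN₄ N (by omega)
  have hN2 : 2 ≤ N := by omega
  have hNr : (0 : ℝ) < N := by exact_mod_cast (by omega : 0 < N)
  have h1 := hasm N (by omega)
  have h2 := hsqf N (by omega)
  have h3 := homM N (by omega) k hk
  -- the union
  have hdisj : (ES C δ N : Set (Finset ℕ)).PairwiseDisjoint (fun E => Gn δ k N E) := by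
    intro E hE E' hE' hne
    rw [Function.onFun, Finset.disjoint_left]
    intro n hn hn'
    exact hne ((cnt_E (mem_coe.mp hE) hn).trans (cnt_E (mem_coe.mp hE') hn').symm)
  have h4 : ∑ E ∈ ES C δ N, #(Gn δ k N E) = #((ES C δ N).biUnion (fun E => Gn δ k N E)) :=
    (card_biUnion hdisj).symm
  have hsub : (ES C δ N).biUnion (fun E => Gn δ k N E) ⊆ ((Ioc N (2 * N)).filter
      (fun n : ℕ => (∃ q : ℕ, q.Prime ∧ q ^ 2 ∣ n ^ 2 - 2) ∧
      (∀ p : ℕ, p.Prime → p ∣ n ^ 2 - 2 → (Real.log N) ^ 10 ≤ (p : ℝ)) ∧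
      ((∏ p ∈ (n ^ 2 - 2).primeFactors.filter (fun p => p < pw N zE), p : ℕ) : ℝ) ≤
        (N : ℝ) ^ ((1 : ℝ) / 1000))) ∪ ((PN N).filter (fun n => G5 C N n)) := by
    intro n hn
    rw [mem_biUnion] at hn
    obtain ⟨E, hE, hn⟩ := hn
    exact cnt_case hN2 hδ1 hδC hk hlog h3 hE hn
  have h5 := (card_le_card hsub).trans (card_union_le _ _)
  have h6 : (∑ E ∈ ES C δ N, (#(Gn δ k N E) : ℝ)) ≤
      N / (Real.log N) ^ 9 + (#((PN N).filter (fun n => G5 C N n)) : ℝ) := by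
    have h7 : (∑ E ∈ ES C δ N, (#(Gn δ k N E) : ℝ)) =
        ((∑ E ∈ ES C δ N, #(Gn δ k N E) : ℕ) : ℝ) := by
      push_cast
      rfl
    rw [h7, h4]
    refine (Nat.cast_le.mpr h5).trans ?_
    rw [Nat.cast_add]
    exact add_le_add h2 le_rfl
  have hl0 : 0 < Real.log N := by linarith
  -- the error
  have h8 : N / (Real.log N) ^ 9 ≤
      c / 2 * (Real.log (Real.log N)) ^ C * (N / (Real.log N) ^ 2) := by
    have h9 : (1 : ℝ) ≤ (Real.log (Real.log N)) ^ C := one_le_pow₀ hll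
    have h10 : (1 : ℝ) ≤ c / 2 * (Real.log N) ^ 7 := by
      have h11 : Real.log N ≤ (Real.log N) ^ 7 := by
        calc Real.log N = (Real.log N) ^ 1 := (pow_one _).symm
          _ ≤ _ := pow_le_pow_right₀ hl1 (by norm_num)
      have h12 : c / 2 * (2 / c) = 1 := by field_simp
      calc (1 : ℝ) = c / 2 * (2 / c) := h12.symm
        _ ≤ c / 2 * (Real.log N) ^ 7 := by
          refine mul_le_mul_of_nonneg_left (hl2.trans h11) (by positivity)
    have h13 : N / (Real.log N) ^ 9 * (c / 2 * (Real.log N) ^ 7) =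
        c / 2 * (N / (Real.log N) ^ 2) := by
      field_simp
    calc N / (Real.log N) ^ 9 = N / (Real.log N) ^ 9 * 1 := (mul_one _).symm
      _ ≤ N / (Real.log N) ^ 9 * (c / 2 * (Real.log N) ^ 7) :=
          mul_le_mul_of_nonneg_left h10 (by positivity)
      _ = c / 2 * (N / (Real.log N) ^ 2) := h13
      _ = c / 2 * 1 * (N / (Real.log N) ^ 2) := by ring
      _ ≤ _ := by
          refine mul_le_mul_of_nonneg_right (mul_le_mul_of_nonneg_left h9 (by positivity))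
            (by positivity)
  have h14 : c / 2 * (Real.log (Real.log N)) ^ C * (N / (Real.log N) ^ 2) +
      c / 2 * (Real.log (Real.log N)) ^ C * (N / (Real.log N) ^ 2) =
      c * (Real.log (Real.log N)) ^ C * (N / (Real.log N) ^ 2) := by ring
  linarith

end Pool.Agent.Work.MP_c971ef_nt.R5
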