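import Mathlib
import Pool.Agent.Work.MP_c971ef_nt.R5.Cnt

set_option autoImplicit false

/-!
Module Idx (size M). From primes to indices. X large, N = ⌊X log X / 8⌋, so 2N ≤ X log X / 4, N ≥ X, and primeCounting (2N) ≤ X
(Chebyshev's upper bound or the prime number theorem: primeCounting y ≤ 2 y / log y for y large; log (2N) ≥ log X). For n in PN N with
`G5 C N n` put m = primeCounting n (so m ≥ 1, m ≤ primeCounting (2N) ≤ X and the m-th prime `Nat.nth Nat.Prime (m - 1)` is n: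
`Nat.nth_count`, primeCounting' ); the map n ↦ m is injective on primes. cardFactors (n^2-2) = #E + cardFactors M ≤ C + 5
(`ArithmeticFunction.cardFactors_mul`, M ≠ 0 since n^2 - 2 ≠ 0, and a product of #E primes has #E prime factors). C = 0: E = ∅,
M = n^2 - 2, every prime factor is ≥ N^(19/100) ≥ X^(19/100). Count: c (loglog N)^C N/(log N)^2 ≥ c' (loglog X)^C X/log X, as
N ≥ X log X / 9, log N ≤ 2 log X, loglog N ≥ loglog X.
-/

namespace Pool.Agent.Work.MP_c971ef_nt.R5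

open Finset

private theorem cf_prod (E : Finset ℕ) (hE : ∀ p ∈ E, p.Prime) :
    ArithmeticFunction.cardFactors (∏ p ∈ E, p) = #E := by
  induction E using Finset.induction_on with
  | empty => simp
  | insert a s ha ih =>
    have h1 : ∀ p ∈ s, p.Prime := fun p hp => hE p (mem_insert_of_mem hp)
    have h2 : a.Prime := hE a (mem_insert_self a s)
    have h3 : (∏ p ∈ s, p) ≠ 0 := prod_ne_zero_iff.mpr (fun p hp => (h1 p hp).ne_zero)
    rw [prod_insert ha, ArithmeticFunction.cardFactors_mul h2.ne_zero h3, ih h1,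
      ArithmeticFunction.cardFactors_apply_prime h2, card_insert_of_notMem ha, add_comm]

private theorem pc_eq {n : ℕ} (hn : n.Prime) : Nat.primeCounting n = Nat.count Nat.Prime n + 1 := by
  show Nat.count Nat.Prime (n + 1) = _
  rw [Nat.count_succ, if_pos hn]

private theorem count_key (C N X : ℕ) (hNX : X ≤ N) (hN : 2 ≤ N) (hpi : Nat.primeCounting (2 * N) ≤ X) :
    ∀ n, n ∈ PN N → G5 C N n →
      (1 ≤ Nat.primeCounting n ∧ Nat.primeCounting n ≤ X ∧
        Nat.nth Nat.Prime (Nat.primeCounting n - 1) = n ∧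
        ArithmeticFunction.cardFactors (n ^ 2 - 2) ≤ 5 + C ∧
        (C = 0 → ∀ r : ℕ, r.Prime → r ∣ n ^ 2 - 2 → (X : ℝ) ^ ((19 : ℝ) / 100) ≤ r)) := by
  intro n hn hG
  unfold PN at hn
  rw [mem_filter, mem_Ioc] at hn
  obtain ⟨⟨h1, h2⟩, hp⟩ := hn
  obtain ⟨E, M, hE1, hE2, hE3, hE4, hE5⟩ := hG
  have hn4 : 4 ≤ n ^ 2 := by nlinarith
  have hne : n ^ 2 - 2 ≠ 0 := by omega
  have hM : M ≠ 0 := by
    rintro rfl
    rw [mul_zero] at hE3
    exact hne hE3
  have hPE : (∏ p ∈ E, p) ≠ 0 := prod_ne_zero_iff.mpr (fun p hp => (hE2 p hp).ne_zero)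
  refine ⟨?_, ?_, ?_, ?_, ?_⟩
  · rw [pc_eq hp]
    omega
  · exact (Nat.monotone_primeCounting h2).trans hpi
  · rw [pc_eq hp, Nat.add_sub_cancel]
    exact Nat.nth_count hp
  · rw [hE3, ArithmeticFunction.cardFactors_mul hPE hM, cf_prod E hE2, hE1]
    omega
  · intro hC r hr hd
    have hE0 : E = ∅ := by
      rw [← card_eq_zero, hE1, hC]
    rw [hE3, hE0, prod_empty, one_mul] at hd
    refine le_trans ?_ (hE5 r hr hd)
    exact Real.rpow_le_rpow (Nat.cast_nonneg _) (by exact_mod_cast hNX) (by norm_num)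

open Classical in
private theorem card_key (C N X : ℕ) (hNX : X ≤ N) (hN : 2 ≤ N) (hpi : Nat.primeCounting (2 * N) ≤ X) :
    #((PN N).filter (fun n => G5 C N n)) ≤ #((Icc 1 X).filter (fun m : ℕ =>
      ArithmeticFunction.cardFactors (Nat.nth Nat.Prime (m - 1) ^ 2 - 2) ≤ 5 + C ∧
      (C = 0 → ∀ r : ℕ, r.Prime → r ∣ Nat.nth Nat.Prime (m - 1) ^ 2 - 2 →
        (X : ℝ) ^ ((19 : ℝ) / 100) ≤ r))) := by
  have hk := count_key C N X hNX hN hpi
  refine card_le_card_of_injOn Nat.primeCounting ?_ ?_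
  · intro n hn
    have hn' := mem_filter.mp (mem_coe.mp hn)
    obtain ⟨k1, k2, k3, k4, k5⟩ := hk n hn'.1 hn'.2
    rw [mem_coe, mem_filter, mem_Icc, k3]
    exact ⟨⟨k1, k2⟩, k4, k5⟩
  · intro n hn n' hn' heq
    have h1 := mem_filter.mp (mem_coe.mp hn)
    have h2 := mem_filter.mp (mem_coe.mp hn')
    rw [← (hk n h1.1 h1.2).2.2.1, ← (hk n' h2.1 h2.2).2.2.1, heq]

open Classical in
theorem idx (C : ℕ) : ∃ (c : ℝ) (X₀ : ℕ), 0 < c ∧ ∀ X : ℕ, X₀ ≤ X →
    c * (Real.log (Real.log X)) ^ C * (X / Real.log X) ≤ (#((Icc 1 X).filter (fun m : ℕ =>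
      ArithmeticFunction.cardFactors (Nat.nth Nat.Prime (m - 1) ^ 2 - 2) ≤ 5 + C ∧
      (C = 0 → ∀ r : ℕ, r.Prime → r ∣ Nat.nth Nat.Prime (m - 1) ^ 2 - 2 →
        (X : ℝ) ^ ((19 : ℝ) / 100) ≤ r))) : ℝ) := by
  obtain ⟨c, N₀, hc, hcnt⟩ := cnt C
  have hcheb := Chebyshev.eventually_primeCounting_le (ε := 1 / 10) (by norm_num)
  rw [Filter.eventually_atTop] at hcheb
  obtain ⟨x₀, hx₀⟩ := hcheb
  have hlog : ∀ᶠ X : ℕ in Filter.atTop, (9 : ℝ) ≤ Real.log (X : ℝ) :=
    (Real.tendsto_log_atTop.comp tendsto_natCast_atTop_atTop).eventually_ge_atTop 9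
  have hx : ∀ᶠ X : ℕ in Filter.atTop, x₀ ≤ (X : ℝ) :=
    tendsto_natCast_atTop_atTop.eventually_ge_atTop x₀
  obtain ⟨X₀, hX₀⟩ := Filter.eventually_atTop.mp
    (hlog.and (hx.and ((Filter.eventually_ge_atTop N₀).and (Filter.eventually_ge_atTop 8))))
  refine ⟨c / 36, X₀, by positivity, fun X hX => ?_⟩
  obtain ⟨h9, hxX, hN₀, h8⟩ := hX₀ X hX
  have hX8 : (8 : ℝ) ≤ (X : ℝ) := by exact_mod_cast h8
  have hX0 : (0 : ℝ) < (X : ℝ) := by linarith
  set L : ℝ := Real.log (X : ℝ) with hL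
  have hL0 : 0 < L := by linarith
  set N : ℕ := ⌊(X : ℝ) * L / 8⌋₊ with hNdef
  have hup : (N : ℝ) ≤ X * L / 8 := Nat.floor_le (by positivity)
  have hlo : (X : ℝ) * L / 8 < N + 1 := Nat.lt_floor_add_one _
  have hNX : X ≤ N := by
    apply Nat.le_floor
    nlinarith
  have hNXr : (X : ℝ) ≤ N := by exact_mod_cast hNX
  have hN0 : (0 : ℝ) < (N : ℝ) := by linarith
  have hlogN : L ≤ Real.log N := Real.log_le_log hX0 hNXr
  have hLX : L ≤ X := by
    have := Real.log_le_sub_one_of_pos hX0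
    rw [← hL] at this
    linarith
  have hlogN2 : Real.log N ≤ 2 * L := by
    have h1 : (N : ℝ) ≤ (X : ℝ) ^ 2 := by nlinarith
    calc Real.log N ≤ Real.log ((X : ℝ) ^ 2) := Real.log_le_log hN0 h1
      _ = 2 * L := by rw [Real.log_pow, ← hL]; norm_num
  have hpi : Nat.primeCounting (2 * N) ≤ X := by
    have h2N : x₀ ≤ ((2 * N : ℕ) : ℝ) := by
      push_cast
      linarith
    have h1 := hx₀ _ h2N
    rw [Nat.floor_natCast] at h1
    have h2 : L ≤ Real.log ((2 * N : ℕ) : ℝ) := by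
      apply Real.log_le_log hX0
      push_cast
      linarith
    have h3 : Real.log 4 + 1 / 10 ≤ 3 / 2 := by
      have h4 : Real.log 4 = 2 * Real.log 2 := by
        have : (4 : ℝ) = 2 ^ 2 := by norm_num
        rw [this, Real.log_pow]
        norm_num
      have h5 := Real.log_two_lt_d9
      linarith
    have h6 : (Real.log 4 + 1 / 10) * ((2 * N : ℕ) : ℝ) / Real.log ((2 * N : ℕ) : ℝ) ≤ X := by
      rw [div_le_iff₀ (by linarith)]
      have h7 : (0 : ℝ) ≤ ((2 * N : ℕ) : ℝ) := Nat.cast_nonneg _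
      calc (Real.log 4 + 1 / 10) * ((2 * N : ℕ) : ℝ) ≤ 3 / 2 * ((2 * N : ℕ) : ℝ) :=
            mul_le_mul_of_nonneg_right h3 h7
        _ ≤ X * L := by
            push_cast
            nlinarith
        _ ≤ X * Real.log ((2 * N : ℕ) : ℝ) := mul_le_mul_of_nonneg_left h2 hX0.le
    exact_mod_cast h1.trans h6
  have hcard := card_key C N X hNX (by omega) hpi
  have hmain := hcnt N (hN₀.trans hNX)
  have hfin : c / 36 * (Real.log L) ^ C * (X / L) ≤
      c * (Real.log (Real.log N)) ^ C * (N / (Real.log N) ^ 2) := by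
    have hlogL : 0 ≤ Real.log L := Real.log_nonneg (by linarith)
    have h1 : (Real.log L) ^ C ≤ (Real.log (Real.log N)) ^ C :=
      pow_le_pow_left₀ hlogL (Real.log_le_log hL0 hlogN) C
    have h2 : (X : ℝ) / L / 36 ≤ N / (Real.log N) ^ 2 := by
      have hlogN0 : 0 < Real.log N := by linarith
      rw [div_div, div_le_div_iff₀ (by positivity) (pow_pos hlogN0 2)]
      have h3 : (X : ℝ) * L / 9 ≤ N := by nlinarith
      have h4 : (Real.log N) ^ 2 ≤ 4 * L ^ 2 := by nlinarith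
      calc (X : ℝ) * (Real.log N) ^ 2 ≤ X * (4 * L ^ 2) := mul_le_mul_of_nonneg_left h4 hX0.le
        _ = (X * L / 9) * (L * 36) := by ring
        _ ≤ N * (L * 36) := mul_le_mul_of_nonneg_right h3 (by positivity)
    have h5 : (0 : ℝ) ≤ X / L / 36 := by positivity
    calc c / 36 * (Real.log L) ^ C * (X / L) = c * ((Real.log L) ^ C * (X / L / 36)) := by ring
      _ ≤ c * ((Real.log (Real.log N)) ^ C * (N / (Real.log N) ^ 2)) :=
          mul_le_mul_of_nonneg_left (mul_le_mul h1 h2 h5 ((pow_nonneg hlogL C).trans h1)) hc.le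
      _ = _ := by ring
  refine hfin.trans (hmain.trans ?_)
  exact_mod_cast hcard

end Pool.Agent.Work.MP_c971ef_nt.R5
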