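import Mathlib
import Pool.Agent.Work.MP_c971ef_nt.R5.Idx
import Pool.Agent.Work.MP_c971ef_nt.LS.A

set_option autoImplicit false

/-!
Module Inx5 (size S). The index set with R = 5 if L ≤ 1: for L = 0 every index satisfies `PoolLS.Ind 0 R y`, for L = 1 use `idx 0`
(c (loglog X)^0 X/log X, κ = 1, δ = 19/100; m + 0 - 1 = m - 1), for L ≥ 2 `PoolLS.index_set L`.
-/

namespace Pool.Agent.Work.MP_c971ef_nt.R5

open Finset

theorem index_set5 (L : ℕ) : ∃ (κ R : ℕ) (δ c : ℝ), (L ≤ 1 → R = 5) ∧ 0 < δ ∧ 0 < c ∧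
    ∃ N₀ : ℕ, ∀ X : ℕ, N₀ ≤ X → ∃ M : Finset ℕ, M ⊆ Icc 1 X ∧
      (∀ m ∈ M, PoolLS.Ind L R ((X : ℝ) ^ δ) m) ∧ c * (X / (Real.log X) ^ κ) ≤ (#M : ℝ) := by
  classical
  rcases Nat.lt_or_ge L 1 with h0 | h1
  · obtain rfl : L = 0 := by omega
    refine ⟨0, 5, 1, 1, fun _ => rfl, one_pos, one_pos, 1, fun X hX => ⟨Icc 1 X, Subset.rfl, ?_, ?_⟩⟩
    · intro m _ i hi
      exact absurd hi (Nat.not_lt_zero i)
    · rw [pow_zero, div_one, one_mul, Nat.card_Icc, Nat.add_sub_cancel]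
  rcases Nat.lt_or_ge 1 L with h2 | h2
  · obtain ⟨κ, R, δ, c, hδ, hc, N₀, h⟩ := PoolLS.index_set L
    exact ⟨κ, R, δ, c, fun h3 => absurd h2 (Nat.not_lt.2 h3), hδ, hc, N₀, h⟩
  · obtain rfl : L = 1 := by omega
    obtain ⟨c, X₀, hc, h⟩ := idx 0
    refine ⟨1, 5, 19 / 100, c, fun _ => rfl, by norm_num, hc, X₀, fun X hX =>
      ⟨(Icc 1 X).filter (fun m : ℕ =>
      ArithmeticFunction.cardFactors (Nat.nth Nat.Prime (m - 1) ^ 2 - 2) ≤ 5 + 0 ∧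
      (0 = 0 → ∀ r : ℕ, r.Prime → r ∣ Nat.nth Nat.Prime (m - 1) ^ 2 - 2 →
        (X : ℝ) ^ ((19 : ℝ) / 100) ≤ r)), filter_subset _ _, ?_, ?_⟩⟩
    · intro m hm i hi
      rw [mem_filter] at hm
      obtain rfl : i = 0 := by omega
      exact ⟨hm.2.1, hm.2.2 rfl⟩
    · have h3 := h X hX
      rw [pow_zero, mul_one] at h3
      rw [pow_one]
      exact h3

end Pool.Agent.Work.MP_c971ef_nt.R5
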