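import Mathlib
import Pool.Agent.Work.MP_c971ef_nt.R5.Cnt
import Pool.Agent.Work.MP_c971ef_nt.Index
import Pool.Agent.Work.BV.PIV

set_option autoImplicit false

/-!
Module IdxB (size M). Block form of `idx 0`. X large, N = Nat.nth Nat.Prime X (the prime number X + 1), N ≥ X. `cnt 0` gives at least
c N/(log N)^2 primes n in (N, 2N] with `G5 0 N n`, that is n^2 - 2 = M (E = ∅), Ω ≤ 5 and all prime factors ≥ N^(19/100) ≥
X^(19/100). Put m = primeCounting n, so `Nat.nth Nat.Prime (m - 1) = n`, m > X + 1 (n > N) and m ≤ primeCounting (2N) ≤ 4X: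
by the prime number theorem (as in CP/F4.lean `hPNT`; primeCounting N = X + 1) primeCounting (2N) ≤ 3 (X + 1) ≤ 4X. The map
n ↦ m is injective. N/(log N)^2 ≥ X/(4 log X): X + 1 = primeCounting N ≤ 2 N/log N, so N ≥ X log N/2, and log N ≤ 2 log X
(N ≤ X^2 for X large, since primeCounting (X^2) ≥ X + 1).
-/

namespace Pool.Agent.Work.MP_c971ef_nt.R5

open Finset

/-- the prime number theorem with explicit constants -/
private theorem idxb_pnt : ∃ N₁ : ℕ, ∀ N : ℕ, N₁ ≤ N →
    9 / 10 * (N : ℝ) ≤ (Nat.primeCounting N : ℝ) * Real.log N ∧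
      (Nat.primeCounting N : ℝ) * Real.log N ≤ 11 / 10 * N := by
  have h : Filter.Tendsto (fun x : ℕ => (Nat.primeCounting x : ℝ) * Real.log x / x)
    Filter.atTop (nhds 1) := BV.pnt_all
  have h1 := h.eventually (Icc_mem_nhds (a := (9 / 10 : ℝ)) (b := 11 / 10) (by norm_num)
    (by norm_num))
  obtain ⟨N1, hN1⟩ := Filter.eventually_atTop.1 h1
  refine ⟨max N1 1, fun N hN => ?_⟩
  have hN2 : N1 ≤ N := le_trans (le_max_left _ _) hN
  have hN3 : (0 : ℝ) < N := by
    have : 1 ≤ N := le_trans (le_max_right _ _) hN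
    exact_mod_cast this
  obtain ⟨h2, h3⟩ := hN1 N hN2
  rw [le_div_iff₀ hN3] at h2
  rw [div_le_iff₀ hN3] at h3
  exact ⟨h2, h3⟩

/-- the facts about `N`, the prime number `X + 1` -/
private theorem idxb_num : ∃ X₁ : ℕ, ∀ X : ℕ, X₁ ≤ X →
    3 ≤ X ∧ Real.log (Nat.nth Nat.Prime X) ≤ 2 * Real.log X ∧
    (X : ℝ) * Real.log (Nat.nth Nat.Prime X) / 2 ≤ Nat.nth Nat.Prime X ∧
    Nat.primeCounting (2 * Nat.nth Nat.Prime X) ≤ 4 * X := by
  obtain ⟨N1, hN1⟩ := idxb_pnt
  have hlog : ∀ᶠ x : ℝ in Filter.atTop, 41 * Real.log x ≤ x := by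
    have h := Real.isLittleO_log_id_atTop.bound (c := 1 / 41) (by norm_num)
    filter_upwards [h, Filter.eventually_ge_atTop 1] with x hx hx1
    rw [Real.norm_of_nonneg (Real.log_nonneg hx1)] at hx
    have hx2 : ‖id x‖ = x := Real.norm_of_nonneg (by
      change (0 : ℝ) ≤ x
      linarith)
    rw [hx2] at hx
    linarith
  obtain ⟨x0, hx0⟩ := Filter.eventually_atTop.1 hlog
  refine ⟨max (max N1 3) ⌈x0⌉₊, fun X hX => ?_⟩
  have hXN : N1 ≤ X := le_trans (le_trans (le_max_left _ _) (le_max_left _ _)) hX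
  have hX3 : 3 ≤ X := le_trans (le_trans (le_max_right _ _) (le_max_left _ _)) hX
  have hXx : x0 ≤ X := le_trans (Nat.le_ceil x0) (by exact_mod_cast le_trans (le_max_right _ _) hX)
  have hXr : (3 : ℝ) ≤ X := by exact_mod_cast hX3
  set N : ℕ := Nat.nth Nat.Prime X with hN
  have hNp : N.Prime := Nat.prime_nth_prime X
  have hNX : X + 2 ≤ N := Nat.add_two_le_nth_prime X
  have hNr : (X : ℝ) + 2 ≤ N := by exact_mod_cast hNX
  have hlogN : 0 < Real.log N := Real.log_pos (by linarith)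
  have hpi : Nat.primeCounting N = X + 1 := by
    have h1 : Nat.primeCounting' N = X := by rw [hN, Nat.primeCounting'_nth_eq]
    have h2 : Nat.primeCounting N = Nat.primeCounting' N + 1 := by
      unfold Nat.primeCounting Nat.primeCounting'
      rw [Nat.count_succ, if_pos hNp]
    rw [h2, h1]
  obtain ⟨h1, h2⟩ := hN1 N (by omega)
  rw [hpi] at h1 h2
  push_cast at h1 h2
  refine ⟨hX3, ?_, ?_, ?_⟩
  · have h3 : (N : ℝ) ≤ X ^ 2 := by
      have h4 := nth_prime_le (X := X) (by omega)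
      rw [← hN] at h4
      have h5 := hx0 X hXx
      nlinarith
    have h4 : Real.log N ≤ Real.log ((X : ℝ) ^ 2) := Real.log_le_log (by linarith) h3
    rw [Real.log_pow] at h4
    exact_mod_cast h4
  · nlinarith
  · obtain ⟨-, h4⟩ := hN1 (2 * N) (by omega)
    push_cast at h4
    have h5 : Real.log N ≤ Real.log (2 * N) := Real.log_le_log (by linarith) (by linarith)
    have h6 : (Nat.primeCounting (2 * N) : ℝ) * Real.log N ≤ 22 / 9 * (X + 1) * Real.log N := by
      have h7 : (Nat.primeCounting (2 * N) : ℝ) * Real.log N ≤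
          (Nat.primeCounting (2 * N) : ℝ) * Real.log (2 * N) :=
        mul_le_mul_of_nonneg_left h5 (Nat.cast_nonneg _)
      linarith
    have h7 : (Nat.primeCounting (2 * N) : ℝ) ≤ 22 / 9 * (X + 1) := le_of_mul_le_mul_right h6 hlogN
    have h8 : (Nat.primeCounting (2 * N) : ℝ) ≤ 4 * X := by linarith
    exact_mod_cast h8

open Classical in
theorem idx_block : ∃ (c : ℝ) (X₀ : ℕ), 0 < c ∧ ∀ X : ℕ, X₀ ≤ X →
    c * (X / Real.log X) ≤ (#((Ioc X (4 * X)).filter (fun m : ℕ =>
      ArithmeticFunction.cardFactors (Nat.nth Nat.Prime (m - 1) ^ 2 - 2) ≤ 5 ∧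
      ∀ r : ℕ, r.Prime → r ∣ Nat.nth Nat.Prime (m - 1) ^ 2 - 2 →
        (X : ℝ) ^ ((19 : ℝ) / 100) ≤ r)) : ℝ) := by
  obtain ⟨c, N₀, hc, hcnt⟩ := cnt 0
  obtain ⟨X1, hX1⟩ := idxb_num
  refine ⟨c / 4, max X1 N₀, by positivity, fun X hX => ?_⟩
  obtain ⟨hX3, hl, hN2, hpi⟩ := hX1 X (le_trans (le_max_left _ _) hX)
  have hX0 : N₀ ≤ X := le_trans (le_max_right _ _) hX
  have hXr : (3 : ℝ) ≤ X := by exact_mod_cast hX3
  set N : ℕ := Nat.nth Nat.Prime X with hN
  have hNX : X + 2 ≤ N := Nat.add_two_le_nth_prime X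
  have hNr : (X : ℝ) + 2 ≤ N := by exact_mod_cast hNX
  have hlogN : 0 < Real.log N := Real.log_pos (by linarith)
  have hlogX : 0 < Real.log X := Real.log_pos (by linarith)
  have h1 := hcnt N (by omega)
  rw [pow_zero, mul_one] at h1
  have h2 : c / 4 * (X / Real.log X) ≤ c * (N / Real.log N ^ 2) := by
    have h3 : (X : ℝ) / Real.log X / 4 ≤ N / Real.log N ^ 2 := by
      rw [div_div, div_le_div_iff₀ (by positivity) (by positivity)]
      have h4 : (X : ℝ) * Real.log N ^ 2 = (X * Real.log N / 2) * (2 * Real.log N) := by ring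
      rw [h4]
      have h5 : (X * Real.log N / 2) * (2 * Real.log N) ≤ N * (2 * (2 * Real.log X)) := by
        apply mul_le_mul hN2 (by linarith) (by positivity) (by positivity)
      linarith
    calc c / 4 * (X / Real.log X) = c * (X / Real.log X / 4) := by ring
      _ ≤ c * (N / Real.log N ^ 2) := mul_le_mul_of_nonneg_left h3 hc.le
  refine le_trans (le_trans h2 h1) ?_
  have hnth : ∀ n : ℕ, n.Prime → Nat.nth Nat.Prime (Nat.primeCounting n - 1) = n := by
    intro n hn
    have e : Nat.primeCounting n = Nat.count Nat.Prime n + 1 := by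
      unfold Nat.primeCounting Nat.primeCounting'
      rw [Nat.count_succ, if_pos hn]
    rw [e, Nat.add_sub_cancel, Nat.nth_count hn]
  have hcard : #((PN N).filter (fun n => G5 0 N n)) ≤ #((Ioc X (4 * X)).filter (fun m : ℕ =>
      ArithmeticFunction.cardFactors (Nat.nth Nat.Prime (m - 1) ^ 2 - 2) ≤ 5 ∧
      ∀ r : ℕ, r.Prime → r ∣ Nat.nth Nat.Prime (m - 1) ^ 2 - 2 →
        (X : ℝ) ^ ((19 : ℝ) / 100) ≤ r)) := by
    apply Finset.card_le_card_of_injOn (fun n => Nat.primeCounting n)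
    · intro n hn
      rw [Finset.mem_coe, Finset.mem_filter] at hn
      obtain ⟨hn1, hn2⟩ := hn
      unfold PN at hn1
      rw [Finset.mem_filter, Finset.mem_Ioc] at hn1
      obtain ⟨⟨ha, hb⟩, hp⟩ := hn1
      obtain ⟨E, M, hE, -, hM, hM5, hMr⟩ := hn2
      rw [Finset.card_eq_zero] at hE
      subst hE
      rw [Finset.prod_empty, one_mul] at hM
      rw [Finset.mem_coe, Finset.mem_filter, Finset.mem_Ioc]
      change (X < Nat.primeCounting n ∧ Nat.primeCounting n ≤ 4 * X) ∧ _
      rw [hnth n hp, hM]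
      refine ⟨⟨?_, le_trans (Nat.monotone_primeCounting hb) hpi⟩, hM5, fun r hr hrM => ?_⟩
      · have e1 : Nat.primeCounting N ≤ Nat.primeCounting n := Nat.monotone_primeCounting ha.le
        have e2 : Nat.primeCounting N = X + 1 := by
          have h1 : Nat.primeCounting' N = X := by rw [hN, Nat.primeCounting'_nth_eq]
          have h2 : Nat.primeCounting N = Nat.primeCounting' N + 1 := by
            unfold Nat.primeCounting Nat.primeCounting'
            rw [Nat.count_succ, if_pos (Nat.prime_nth_prime X)]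
          rw [h2, h1]
        omega
      · refine le_trans ?_ (hMr r hr hrM)
        exact Real.rpow_le_rpow (by linarith) (by linarith) (by norm_num)
    · intro a ha b hb hab
      rw [Finset.mem_coe, Finset.mem_filter] at ha hb
      have ha1 : a.Prime := (Finset.mem_filter.1 ha.1).2
      have hb1 : b.Prime := (Finset.mem_filter.1 hb.1).2
      have hab' : Nat.primeCounting a = Nat.primeCounting b := hab
      rw [← hnth a ha1, ← hnth b hb1, hab']
  exact_mod_cast hcard

end Pool.Agent.Work.MP_c971ef_nt.R5
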