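import Mathlib
import Pool.Agent.Work.MP_73869e_nt.P5.BH2
import Pool.Agent.Work.MP_73869e_nt.P5.EnvE

set_option autoImplicit false

/-!
Module NoP (size M). Few integers up to X have no prime factor in [K, X^(1/3)] (upper bound sieve).
Take the Brun-Hooley weights of P5/BH2.lean (structure `P5.BHW`: lp_le, supp, low, main2) for the set P of the primes in [K, z),
h p = 1/p (≤ 1/2), z = ⌊X^η⌋ where b is fixed (= b₀(L₀)) and η = 1/(2 (4b + 10)) (so η ≤ 1/20 < 1/3 and z^(4b+10) ≤ X^(1/2));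
L₀ bounds the sums of 1/p over y ≤ p < y^2 (Mertens, upper bound; e.g. `Sv.mt_psum`/Mertens files MP_2dba45_nt/Mert.lean,
MP_c971ef_nt/Mertens.lean). A counted m has no prime factor in P, so
#counted ≤ sum over m ≤ X, sum over d ⊆ {p in P : p | m} of lp d = sum over d of lp d ⌊X / prod d⌋ ≤
X * (sum of lp d prod h) + (number of d in the support) ≤ 2 X prod over P of (1 - 1/p) + X^(1/2)
(prod d ≤ z^(4b+10) ≤ X^(1/2), distinct d have distinct products). prod over P of (1 - 1/p) ≤ exp(- sum over P of 1/p) ≤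
C log K / log z (Mertens, lower bound for the sum of 1/p over K ≤ p < z: loglog z - loglog K - C'), for z > K; log z ≥ (η/2) log X. The
hypothesis K ≤ X^(1/100) may not give K < z: for K ≥ X^(η/2) the bound is trivial (log K / log X ≥ η/2, take C₁ ≥ 2/η).
-/

namespace Pool.Agent.Work.MP_c971ef_nt.R5

open Finset

private theorem nop_floor (X D : ℕ) : |((X / D : ℕ) : ℝ) - (X : ℝ) / D| ≤ 1 := by
  have h0 : (0 : ℝ) ≤ (X : ℝ) / D := by positivity
  have h1 := Nat.floor_le h0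
  have h2 := Nat.lt_floor_add_one ((X : ℝ) / D)
  rw [Nat.floor_div_eq_div] at h1 h2
  rw [abs_le]
  constructor <;> linarith

private theorem nop_dvd {m : ℕ} {d : Finset ℕ} (hd : ∀ p ∈ d, p.Prime) :
    (∀ p ∈ d, p ∣ m) ↔ ∏ p ∈ d, p ∣ m := by
  constructor
  · intro h
    exact Finset.prod_primes_dvd m (fun p hp => (hd p hp).prime) h
  · intro h p hp
    exact (Finset.dvd_prod_of_mem (fun q => q) hp).trans h

private theorem nop_exch {P : Finset ℕ} (hP : ∀ p ∈ P, p.Prime) (lp : Finset ℕ → ℝ) (X : ℕ) :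
    ∑ m ∈ Icc 1 X, ∑ d ∈ (P.filter (fun p => p ∣ m)).powerset, lp d =
      ∑ d ∈ P.powerset, lp d * ((X / (∏ p ∈ d, p) : ℕ) : ℝ) := by
  classical
  have h1 : ∀ m, ∑ d ∈ (P.filter (fun p => p ∣ m)).powerset, lp d =
      ∑ d ∈ P.powerset, if (∏ p ∈ d, p) ∣ m then lp d else 0 := by
    intro m
    rw [← Finset.sum_filter]
    refine Finset.sum_congr ?_ fun _ _ => rfl
    ext d
    rw [Finset.mem_powerset, Finset.mem_filter, Finset.mem_powerset]
    constructor
    · intro h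
      have h2 : d ⊆ P := h.trans (Finset.filter_subset _ _)
      refine ⟨h2, (nop_dvd fun p hp => hP p (h2 hp)).1 fun p hp => ?_⟩
      exact (Finset.mem_filter.1 (h hp)).2
    · rintro ⟨h2, h3⟩ p hp
      exact Finset.mem_filter.2 ⟨h2 hp, (nop_dvd fun p hp => hP p (h2 hp)).2 h3 p hp⟩
  rw [Finset.sum_congr rfl fun m _ => h1 m, Finset.sum_comm]
  refine Finset.sum_congr rfl fun d _ => ?_
  have h2 : (Icc 1 X).filter (fun m => (∏ p ∈ d, p) ∣ m) =
      (Ioc 0 X).filter (fun m => (∏ p ∈ d, p) ∣ m) := by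
    ext m
    simp only [Finset.mem_filter, Finset.mem_Icc, Finset.mem_Ioc]
    constructor <;> rintro ⟨h1, h2⟩ <;> exact ⟨⟨by omega, by omega⟩, h2⟩
  rw [← Finset.sum_filter, Finset.sum_const, h2, Nat.Ioc_filter_dvd_card_eq_div, nsmul_eq_mul,
    mul_comm]

private theorem nop_supp {P : Finset ℕ} (hP : ∀ p ∈ P, p.Prime) (lp : Finset ℕ → ℝ) {Y : ℝ}
    (hY : 0 ≤ Y) (h : ∀ d, lp d ≠ 0 → ((∏ p ∈ d, p : ℕ) : ℝ) ≤ Y) :
    ((#(P.powerset.filter (fun d => lp d ≠ 0)) : ℕ) : ℝ) ≤ Y := by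
  classical
  have h1 : #(P.powerset.filter (fun d => lp d ≠ 0)) ≤ #(Icc 1 ⌊Y⌋₊) := by
    refine Finset.card_le_card_of_injOn (fun d => ∏ p ∈ d, p) ?_ ?_
    · intro d hd
      rw [Finset.mem_coe, Finset.mem_filter, Finset.mem_powerset] at hd
      rw [Finset.mem_coe, Finset.mem_Icc]
      refine ⟨Finset.prod_pos fun p hp => (hP p (hd.1 hp)).pos, ?_⟩
      exact Nat.le_floor (h d hd.2)
    · intro d hd e he hde
      rw [Finset.mem_coe, Finset.mem_filter, Finset.mem_powerset] at hd he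
      have h2 := Nat.primeFactors_prod fun p hp => hP p (hd.1 hp)
      have h3 := Nat.primeFactors_prod fun p hp => hP p (he.1 hp)
      rw [← h2, ← h3]
      exact congrArg Nat.primeFactors hde
  rw [Nat.card_Icc, Nat.add_sub_cancel] at h1
  have h2 : ((#(P.powerset.filter (fun d => lp d ≠ 0)) : ℕ) : ℝ) ≤ (⌊Y⌋₊ : ℝ) := by
    exact_mod_cast h1
  exact h2.trans (Nat.floor_le hY)

/-- the upper bound sieve -/
private theorem nop_sieve {P : Finset ℕ} (hP : ∀ p ∈ P, p.Prime) {z b : ℕ} {lp dp : Finset ℕ → ℝ}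
    (hw : Pool.Agent.Work.MP_73869e_nt.P5.BHW P (fun p => 1 / (p : ℝ)) z b lp dp) (X : ℕ)
    (S : Finset ℕ) (hS : S ⊆ Icc 1 X) (hS2 : ∀ m ∈ S, ∀ p ∈ P, ¬ p ∣ m) :
    (#S : ℝ) ≤ 2 * X * ∏ p ∈ P, (1 - 1 / (p : ℝ)) + (z : ℝ) ^ (4 * b + 10) := by
  classical
  have h1 : (#S : ℝ) ≤ ∑ m ∈ Icc 1 X, ∑ d ∈ (P.filter (fun p => p ∣ m)).powerset, lp d := by
    have h2 : (#S : ℝ) = ∑ m ∈ Icc 1 X, if m ∈ S then (1 : ℝ) else 0 := by
      rw [Finset.sum_ite_mem, Finset.inter_eq_right.2 hS, Finset.sum_const, nsmul_eq_mul, mul_one]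
    rw [h2]
    refine Finset.sum_le_sum fun m _ => ?_
    have h3 := hw.low (P.filter (fun p => p ∣ m)) (Finset.filter_subset _ _)
    refine le_trans ?_ h3
    by_cases hm : m ∈ S
    · have h4 : P.filter (fun p => p ∣ m) = ∅ := by
        rw [Finset.filter_eq_empty_iff]
        exact fun p hp => hS2 m hm p hp
      rw [if_pos hm, if_pos h4]
    · rw [if_neg hm]
      split_ifs <;> norm_num
  rw [nop_exch hP] at h1
  have h5 : ∑ d ∈ P.powerset, lp d * ((X / (∏ p ∈ d, p) : ℕ) : ℝ) ≤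
      ∑ d ∈ P.powerset, (X * (lp d * ∏ p ∈ d, (1 / (p : ℝ))) + if lp d ≠ 0 then 1 else 0) := by
    refine Finset.sum_le_sum fun d _ => ?_
    have h6 := nop_floor X (∏ p ∈ d, p)
    have h7 := hw.lp_le d
    have h8 : ∏ p ∈ d, (1 / (p : ℝ)) = 1 / ((∏ p ∈ d, p : ℕ) : ℝ) := by
      rw [Finset.prod_div_distrib, Finset.prod_const_one]
      push_cast
      rfl
    rw [h8]
    by_cases h0 : lp d = 0
    · rw [if_neg (not_not.2 h0), h0]
      simp
    · rw [if_pos h0]
      have h9 : lp d * (((X / (∏ p ∈ d, p) : ℕ) : ℝ) - (X : ℝ) / ((∏ p ∈ d, p : ℕ) : ℝ)) ≤ 1 := by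
        refine (le_abs_self _).trans ?_
        rw [abs_mul]
        calc |lp d| * |((X / (∏ p ∈ d, p) : ℕ) : ℝ) - (X : ℝ) / ((∏ p ∈ d, p : ℕ) : ℝ)| ≤ 1 * 1 :=
              mul_le_mul h7 h6 (abs_nonneg _) zero_le_one
          _ = 1 := one_mul 1
      have h10 : X * (lp d * (1 / ((∏ p ∈ d, p : ℕ) : ℝ))) =
          lp d * ((X : ℝ) / ((∏ p ∈ d, p : ℕ) : ℝ)) := by ring
      rw [h10]
      linarith [mul_sub (lp d) ((X / (∏ p ∈ d, p) : ℕ) : ℝ) ((X : ℝ) / ((∏ p ∈ d, p : ℕ) : ℝ))]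
  rw [Finset.sum_add_distrib, ← Finset.mul_sum, ← Finset.sum_filter, Finset.sum_const,
    nsmul_eq_mul, mul_one] at h5
  have h11 := nop_supp hP lp (Y := (z : ℝ) ^ (4 * b + 10)) (by positivity)
    fun d hd => (hw.supp d (Or.inl hd)).2
  have h12 := mul_le_mul_of_nonneg_left hw.main2 (Nat.cast_nonneg (α := ℝ) X)
  linarith

private theorem nop_prod {P : Finset ℕ} (hP : ∀ p ∈ P, p.Prime) :
    ∏ p ∈ P, (1 - 1 / (p : ℝ)) ≤ Real.exp (-∑ p ∈ P, 1 / (p : ℝ)) := by
  rw [← Finset.sum_neg_distrib, Real.exp_sum]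
  refine Finset.prod_le_prod (fun p hp => ?_) fun p _ => ?_
  · have h1 : (1 : ℝ) ≤ p := by exact_mod_cast (hP p hp).pos
    have h2 : 1 / (p : ℝ) ≤ 1 := by
      rw [div_le_one (by linarith)]
      exact h1
    linarith
  · have := Real.add_one_le_exp (-(1 / (p : ℝ)))
    linarith

open Classical in
theorem nop : ∃ (C₁ : ℝ) (X₀ : ℕ), 0 < C₁ ∧ ∀ X : ℕ, X₀ ≤ X → ∀ K : ℝ, 2 ≤ K →
    K ≤ (X : ℝ) ^ ((1 : ℝ) / 100) →
    (#((Icc 1 X).filter (fun m : ℕ => ∀ p : ℕ, p.Prime → K ≤ (p : ℝ) →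
      (p : ℝ) ≤ (X : ℝ) ^ ((1 : ℝ) / 3) → ¬ p ∣ m)) : ℝ) ≤
      C₁ * X * (Real.log K / Real.log X) := by
  obtain ⟨L₀, hL₀, hblk⟩ := Pool.Agent.Work.MP_73869e_nt.P5.blk_bound
  obtain ⟨b, hb⟩ := Pool.Agent.Work.MP_73869e_nt.P5.bh2 L₀ hL₀
  obtain ⟨C, hC0, hC⟩ := Pool.Agent.Work.MP_2dba45_nt.Psum.psum_one
  have hb1 := hb b le_rfl
  obtain ⟨E, hE⟩ : ∃ E : ℕ, E = 4 * b + 10 := ⟨_, rfl⟩
  have hE10 : (10 : ℝ) ≤ E := by
    rw [hE]
    push_cast
    have : (0 : ℝ) ≤ b := Nat.cast_nonneg b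
    linarith
  obtain ⟨η, hη⟩ : ∃ η : ℝ, η = 1 / (2 * E) := ⟨_, rfl⟩
  have hη0 : 0 < η := by rw [hη]; positivity
  have hη1 : η ≤ 1 / 20 := by
    rw [hη]
    exact one_div_le_one_div_of_le (by norm_num) (by linarith)
  have hηE : η * E = 1 / 2 := by
    rw [hη]
    field_simp
  -- conditions on X
  have hev : ∀ᶠ X : ℕ in Filter.atTop, 3 ≤ X ∧ 4 ≤ (X : ℝ) ^ (η / 2) ∧
      Real.log X ≤ Real.log 2 * (X : ℝ) ^ ((1 : ℝ) / 2) := by
    have t1 : Filter.Tendsto (fun X : ℕ => (X : ℝ) ^ (η / 2)) Filter.atTop Filter.atTop :=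
      (tendsto_rpow_atTop (by positivity)).comp tendsto_natCast_atTop_atTop
    have hl2 : 0 < Real.log 2 := Real.log_pos (by norm_num)
    have t2 := ((isLittleO_log_rpow_atTop (show (0 : ℝ) < 1 / 2 by norm_num)).comp_tendsto
      tendsto_natCast_atTop_atTop).bound hl2
    filter_upwards [Filter.eventually_ge_atTop 3, t1.eventually_ge_atTop 4, t2] with X h1 h2 h3
    refine ⟨h1, h2, ?_⟩
    have h4 : (3 : ℝ) ≤ X := by exact_mod_cast h1
    have h5 : 0 ≤ Real.log X := Real.log_nonneg (by linarith)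
    simp only [Function.comp_apply, Real.norm_eq_abs] at h3
    rw [abs_of_nonneg h5, abs_of_nonneg (by positivity)] at h3
    exact h3
  obtain ⟨X₀, hX₀⟩ := Filter.eventually_atTop.1 hev
  refine ⟨8 * Real.exp C / η + 1 + 2 / η, X₀, by positivity, fun X hX K hK _ => ?_⟩
  obtain ⟨hX3, hX4, hXl⟩ := hX₀ X hX
  have hXr : (3 : ℝ) ≤ X := by exact_mod_cast hX3
  have hX0 : (0 : ℝ) < X := by linarith
  have hlX : 0 < Real.log X := Real.log_pos (by linarith)
  have hlK : 0 < Real.log K := Real.log_pos (by linarith)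
  have hq : 0 < Real.log K / Real.log X := by positivity
  set S := (Icc 1 X).filter (fun m : ℕ => ∀ p : ℕ, p.Prime → K ≤ (p : ℝ) →
      (p : ℝ) ≤ (X : ℝ) ^ ((1 : ℝ) / 3) → ¬ p ∣ m) with hS
  have hcard : (#S : ℝ) ≤ X := by
    have h1 := Finset.card_filter_le (Icc 1 X) (fun m : ℕ => ∀ p : ℕ, p.Prime → K ≤ (p : ℝ) →
      (p : ℝ) ≤ (X : ℝ) ^ ((1 : ℝ) / 3) → ¬ p ∣ m)
    rw [Nat.card_Icc, Nat.add_sub_cancel] at h1
    exact_mod_cast h1
  have hpos1 : 0 ≤ 8 * Real.exp C / η := by positivity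
  have hpos2 : 0 ≤ 2 / η := by positivity
  rcases le_or_gt ((X : ℝ) ^ (η / 2)) K with hKl | hKs
  · -- K large: trivial bound
    have h1 : η / 2 * Real.log X ≤ Real.log K := by
      rw [← Real.log_rpow hX0]
      exact Real.log_le_log (by positivity) hKl
    have h2 : η / 2 ≤ Real.log K / Real.log X := by
      rw [le_div_iff₀ hlX]
      exact h1
    have h3 : (1 : ℝ) ≤ 2 / η * (Real.log K / Real.log X) := by
      calc (1 : ℝ) = 2 / η * (η / 2) := by field_simp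
        _ ≤ _ := mul_le_mul_of_nonneg_left h2 hpos2
    calc (#S : ℝ) ≤ X * 1 := by rw [mul_one]; exact hcard
      _ ≤ X * (2 / η * (Real.log K / Real.log X)) := mul_le_mul_of_nonneg_left h3 hX0.le
      _ ≤ X * ((8 * Real.exp C / η + 1 + 2 / η) * (Real.log K / Real.log X)) := by
          refine mul_le_mul_of_nonneg_left (mul_le_mul_of_nonneg_right ?_ hq.le) hX0.le
          linarith
      _ = _ := by ring
  · -- K small
    set z := ⌊(X : ℝ) ^ η⌋₊ with hz
    have hzle : (z : ℝ) ≤ (X : ℝ) ^ η := Nat.floor_le (by positivity)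
    have hsq : (X : ℝ) ^ η = (X : ℝ) ^ (η / 2) * (X : ℝ) ^ (η / 2) := by
      rw [← Real.rpow_add hX0]
      congr 1
      ring
    have hzge : (X : ℝ) ^ (η / 2) * (X : ℝ) ^ (η / 2) - 1 < z := by
      have := Nat.lt_floor_add_one ((X : ℝ) ^ η)
      rw [← hsq]
      linarith
    obtain ⟨Y, hY⟩ : ∃ Y : ℝ, Y = (X : ℝ) ^ (η / 2) := ⟨_, rfl⟩
    rw [← hY] at hzge hKs hX4
    have hzY : 4 * Y - 1 < z := by nlinarith
    have hz2 : 2 ≤ z := by
      have : (2 : ℝ) ≤ z := by linarith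
      exact_mod_cast this
    set P := (range z).filter (fun p : ℕ => p.Prime ∧ K ≤ (p : ℝ)) with hPdef
    have hPp : ∀ p ∈ P, p.Prime := fun p hp => (Finset.mem_filter.1 hp).2.1
    have hPK : ∀ p ∈ P, K ≤ (p : ℝ) := fun p hp => (Finset.mem_filter.1 hp).2.2
    have hPz : ∀ p ∈ P, p < z := fun p hp => Finset.mem_range.1 (Finset.mem_filter.1 hp).1
    obtain ⟨lp, dp, hw⟩ := hb1 z P (fun p => 1 / (p : ℝ)) hz2
      (fun p hp => ⟨(hPp p hp).two_le, hPz p hp⟩)
      (fun p hp => ⟨by positivity, by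
        refine one_div_le_one_div_of_le (by norm_num) ?_
        exact_mod_cast (hPp p hp).two_le⟩)
      (fun y hy => by
        refine le_trans (Finset.sum_le_sum fun p _ => ?_) (hblk P hPp y hy)
        unfold Pool.Agent.Work.MP_73869e_nt.AP.g
        exact div_le_div_of_nonneg_right (by norm_num) (Nat.cast_nonneg p))
    have hsieve := nop_sieve hPp hw X S (Finset.filter_subset _ _) (by
      intro m hm p hp
      refine (Finset.mem_filter.1 hm).2 p (hPp p hp) (hPK p hp) ?_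
      have h1 : (p : ℝ) ≤ z := by exact_mod_cast (hPz p hp).le
      refine h1.trans (hzle.trans ?_)
      exact Real.rpow_le_rpow_of_exponent_le (by linarith) (by linarith))
    have hzE : (z : ℝ) ^ (4 * b + 10) ≤ (X : ℝ) ^ ((1 : ℝ) / 2) := by
      rw [← hE, ← hηE, Real.rpow_mul hX0.le, Real.rpow_natCast]
      exact pow_le_pow_left₀ (Nat.cast_nonneg z) hzle E
    -- the sum of 1/p
    set w := ⌈K⌉₊ with hwdef
    have hwK : K ≤ w := Nat.le_ceil K
    have hwK1 : (w : ℝ) < K + 1 := Nat.ceil_lt_add_one (by linarith)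
    have hw2 : 2 ≤ w := by
      have : (2 : ℝ) ≤ w := by linarith
      exact_mod_cast this
    have hzc : ((z - 1 : ℕ) : ℝ) = (z : ℝ) - 1 := by
      rw [Nat.cast_sub (by omega)]
      simp
    have hwz : w ≤ z - 1 := by
      have : (w : ℝ) ≤ ((z - 1 : ℕ) : ℝ) := by
        rw [hzc]
        linarith
      exact_mod_cast this
    have hsub : (Ioc w (z - 1)).filter Nat.Prime ⊆ P := by
      intro p hp
      rw [Finset.mem_filter, Finset.mem_Ioc] at hp
      rw [hPdef, Finset.mem_filter, Finset.mem_range]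
      refine ⟨by omega, hp.2, hwK.trans ?_⟩
      exact_mod_cast hp.1.1.le
    have hsum : Real.log (Real.log ((z - 1 : ℕ) : ℝ)) - Real.log (Real.log w) - C ≤
        ∑ p ∈ P, 1 / (p : ℝ) := by
      have h1 := (abs_le.1 (hC w (z - 1) hw2 hwz)).1
      have h2 := Finset.sum_le_sum_of_subset_of_nonneg hsub
        (f := fun p : ℕ => 1 / (p : ℝ)) (fun p _ _ => by positivity)
      linarith
    have hwr : (2 : ℝ) ≤ w := by exact_mod_cast hw2
    have hlw : 0 < Real.log w := Real.log_pos (by linarith)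
    have hlw2 : Real.log w ≤ 2 * Real.log K := by
      have h1 : (w : ℝ) ≤ K ^ 2 := by nlinarith
      have h2 := Real.log_le_log (by linarith) h1
      rw [Real.log_pow] at h2
      exact_mod_cast h2
    have hY0 : 0 < Y := by linarith
    have hlz : η / 2 * Real.log X ≤ Real.log ((z - 1 : ℕ) : ℝ) := by
      rw [← Real.log_rpow hX0, ← hY, hzc]
      exact Real.log_le_log hY0 (by linarith)
    have hlz0 : 0 < Real.log ((z - 1 : ℕ) : ℝ) := lt_of_lt_of_le (by positivity) hlz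
    have hprod : ∏ p ∈ P, (1 - 1 / (p : ℝ)) ≤ 4 * Real.exp C / η * (Real.log K / Real.log X) := by
      refine (nop_prod hPp).trans ?_
      calc Real.exp (-∑ p ∈ P, 1 / (p : ℝ)) ≤
            Real.exp (C + (Real.log (Real.log w) - Real.log (Real.log ((z - 1 : ℕ) : ℝ)))) :=
            Real.exp_le_exp.2 (by linarith)
        _ = Real.exp C * (Real.log w / Real.log ((z - 1 : ℕ) : ℝ)) := by
            rw [Real.exp_add, Real.exp_sub, Real.exp_log hlw, Real.exp_log hlz0]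
        _ ≤ Real.exp C * (2 * Real.log K / (η / 2 * Real.log X)) := by
            refine mul_le_mul_of_nonneg_left ?_ (Real.exp_nonneg _)
            exact div_le_div₀ (by positivity) hlw2 (by positivity) hlz
        _ = 4 * Real.exp C / η * (Real.log K / Real.log X) := by
            field_simp
            ring
    have hroot : (X : ℝ) ^ ((1 : ℝ) / 2) ≤ X * (Real.log K / Real.log X) := by
      have h1 : Real.log 2 ≤ Real.log K := Real.log_le_log (by norm_num) hK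
      have h2 : (X : ℝ) ^ ((1 : ℝ) / 2) * (X : ℝ) ^ ((1 : ℝ) / 2) = X := by
        rw [← Real.rpow_add hX0]
        norm_num
      have h3 : 0 < (X : ℝ) ^ ((1 : ℝ) / 2) := by positivity
      rw [mul_div_assoc', le_div_iff₀ hlX]
      calc (X : ℝ) ^ ((1 : ℝ) / 2) * Real.log X ≤
            (X : ℝ) ^ ((1 : ℝ) / 2) * (Real.log 2 * (X : ℝ) ^ ((1 : ℝ) / 2)) :=
            mul_le_mul_of_nonneg_left hXl h3.le
        _ = X * Real.log 2 := by
            conv_rhs => rw [← h2]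
            ring
        _ ≤ X * Real.log K := mul_le_mul_of_nonneg_left h1 hX0.le
    have h1 : 2 * X * ∏ p ∈ P, (1 - 1 / (p : ℝ)) ≤
        2 * X * (4 * Real.exp C / η * (Real.log K / Real.log X)) :=
      mul_le_mul_of_nonneg_left hprod (by positivity)
    have h2 : 0 ≤ X * (2 / η * (Real.log K / Real.log X)) := by positivity
    calc (#S : ℝ) ≤ 2 * X * (4 * Real.exp C / η * (Real.log K / Real.log X)) +
          X * (Real.log K / Real.log X) := by linarith
      _ ≤ 2 * X * (4 * Real.exp C / η * (Real.log K / Real.log X)) +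
          X * (Real.log K / Real.log X) + X * (2 / η * (Real.log K / Real.log X)) := by linarith
      _ = _ := by ring

end Pool.Agent.Work.MP_c971ef_nt.R5
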