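import Mathlib
import Pool.Agent.Work.MP_c971ef_nt.R5.Idx
import Pool.Agent.Work.MP_c971ef_nt.R5.NoP

set_option autoImplicit false

/-!
Module ExI (size S-M). Exact index. Let c₁ from `idx C`, C₁ from `nop`, c = min (c₁/2) (c₁/(4 C₁)), u = loglog X, K = exp(c u^C); for
X large: K ≥ 2 (u → ∞, C ≥ 1), K ≤ X^(1/100) (c u^C ≤ log X/100). `nop`: at most C₁ c u^C X/log X ≤ (c₁/4) u^C X/log X of the m ≤ X have no
prime factor in [K, X^(1/3)]; at most X^(2/3) ≤ (c₁/4) u^C X/log X of them are ≤ X^(2/3). The other m of `idx C`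
(at least (c₁/2) u^C X/log X) have a prime k | m, K ≤ k ≤ X^(1/3), and n = m/k ≥ X^(2/3)/X^(1/3) ≥ k.
-/

namespace Pool.Agent.Work.MP_c971ef_nt.R5

open Finset

open Classical in
theorem exact_index (C : ℕ) (hC : 1 ≤ C) : ∃ (c : ℝ) (X₀ : ℕ), 0 < c ∧ ∀ X : ℕ, X₀ ≤ X →
    c * (Real.log (Real.log X)) ^ C * (X / Real.log X) ≤ (#((Icc 1 X).filter (fun m : ℕ =>
      ∃ k n : ℕ, m = k * n ∧ k.Prime ∧ Real.exp (c * (Real.log (Real.log X)) ^ C) ≤ k ∧ k ≤ n ∧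
        ArithmeticFunction.cardFactors (Nat.nth Nat.Prime (k * n - 1) ^ 2 - 2) ≤ 5 + C)) : ℝ) := by
  obtain ⟨c₁, X₁, hc₁, hidx⟩ := idx C
  obtain ⟨C₁, X₂, hC₁, hnop⟩ := nop
  set c : ℝ := min (c₁ / 4) (c₁ / (4 * C₁)) with hc
  have hc0 : 0 < c := lt_min (by positivity) (by positivity)
  have hcc1 : c ≤ c₁ / 4 := min_le_left _ _
  have hcc2 : c ≤ c₁ / (4 * C₁) := min_le_right _ _
  have tl : Filter.Tendsto (fun X : ℕ => Real.log (X : ℝ)) Filter.atTop Filter.atTop :=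
    Real.tendsto_log_atTop.comp tendsto_natCast_atTop_atTop
  have tll : Filter.Tendsto (fun X : ℕ => Real.log (Real.log (X : ℝ))) Filter.atTop Filter.atTop :=
    Real.tendsto_log_atTop.comp tl
  have e1 : ∀ᶠ X : ℕ in Filter.atTop, Real.log 2 / c ≤ Real.log (Real.log (X : ℝ)) :=
    tll.eventually_ge_atTop _
  have e2 : ∀ᶠ X : ℕ in Filter.atTop, (1 : ℝ) ≤ Real.log (Real.log (X : ℝ)) := tll.eventually_ge_atTop _
  have e3 : ∀ᶠ X : ℕ in Filter.atTop, (1 : ℝ) ≤ Real.log (X : ℝ) := tl.eventually_ge_atTop _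
  have e4 : ∀ᶠ X : ℕ in Filter.atTop, c * Real.log (Real.log (X : ℝ)) ^ C ≤ Real.log (X : ℝ) / 100 := by
    have h1 : ∀ᶠ y : ℝ in Filter.atTop, ‖Real.log y ^ C‖ ≤ (1 / (100 * c)) * ‖(id y : ℝ)‖ :=
      (Real.isLittleO_pow_log_id_atTop (n := C)).bound (by positivity)
    filter_upwards [tl.eventually h1, e2, e3] with X hX hX2 hX3
    rw [Real.norm_of_nonneg (by positivity), id, Real.norm_of_nonneg (by linarith)] at hX
    calc c * Real.log (Real.log (X : ℝ)) ^ C ≤ c * (1 / (100 * c) * Real.log (X : ℝ)) :=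
          mul_le_mul_of_nonneg_left hX hc0.le
      _ = Real.log (X : ℝ) / 100 := by field_simp
  have e5 : ∀ᶠ X : ℕ in Filter.atTop, Real.log (X : ℝ) ≤ (c₁ / 4) * (X : ℝ) ^ ((1 : ℝ) / 3) := by
    have h1 : ∀ᶠ y : ℝ in Filter.atTop, ‖Real.log y‖ ≤ (c₁ / 4) * ‖y ^ ((1 : ℝ) / 3)‖ :=
      (isLittleO_log_rpow_atTop (r := (1 : ℝ) / 3) (by norm_num)).bound (by positivity)
    filter_upwards [(tendsto_natCast_atTop_atTop (R := ℝ)).eventually h1, e3] with X hX hX3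
    rw [Real.norm_of_nonneg (by linarith), Real.norm_of_nonneg (by positivity)] at hX
    exact hX
  obtain ⟨X₀, hX₀⟩ := Filter.eventually_atTop.1
    ((((((e1.and e2).and e3).and e4).and e5).and (Filter.eventually_ge_atTop X₁)).and
      ((Filter.eventually_ge_atTop X₂).and (Filter.eventually_ge_atTop 1)))
  refine ⟨c, X₀, hc0, fun X hX => ?_⟩
  obtain ⟨⟨⟨⟨⟨⟨a1, a2⟩, a3⟩, a4⟩, a5⟩, a6⟩, a7, a8⟩ := hX₀ X hX
  set u : ℝ := Real.log (Real.log (X : ℝ)) with hu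
  set l : ℝ := Real.log (X : ℝ) with hl
  have hl0 : 0 < l := by linarith
  have hX1 : (1 : ℝ) ≤ (X : ℝ) := by exact_mod_cast a8
  have hX0 : (0 : ℝ) < (X : ℝ) := by linarith
  have huC : u ≤ u ^ C := le_self_pow₀ a2 (by omega)
  have huC1 : 1 ≤ u ^ C := one_le_pow₀ a2
  set K : ℝ := Real.exp (c * u ^ C) with hK
  have hK2 : 2 ≤ K := by
    have h1 : Real.log 2 ≤ c * u ^ C := by
      rw [div_le_iff₀ hc0] at a1
      nlinarith
    calc (2 : ℝ) = Real.exp (Real.log 2) := (Real.exp_log (by norm_num)).symm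
      _ ≤ K := Real.exp_le_exp.2 h1
  have hKX : K ≤ (X : ℝ) ^ ((1 : ℝ) / 100) := by
    rw [Real.rpow_def_of_pos hX0]
    refine Real.exp_le_exp.2 ?_
    rw [← hl]
    linarith
  have hi := hidx X a6
  have hn := hnop X a7 K hK2 hKX
  have hlogK : Real.log K = c * u ^ C := Real.log_exp _
  rw [hlogK] at hn
  set S1 := (Icc 1 X).filter (fun m : ℕ =>
      ArithmeticFunction.cardFactors (Nat.nth Nat.Prime (m - 1) ^ 2 - 2) ≤ 5 + C ∧
      (C = 0 → ∀ r : ℕ, r.Prime → r ∣ Nat.nth Nat.Prime (m - 1) ^ 2 - 2 →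
        (X : ℝ) ^ ((19 : ℝ) / 100) ≤ r)) with hS1
  set S2 := (Icc 1 X).filter (fun m : ℕ => ∀ p : ℕ, p.Prime → K ≤ (p : ℝ) →
      (p : ℝ) ≤ (X : ℝ) ^ ((1 : ℝ) / 3) → ¬ p ∣ m) with hS2
  set S3 := Icc 1 ⌊(X : ℝ) ^ ((2 : ℝ) / 3)⌋₊ with hS3
  set S := (Icc 1 X).filter (fun m : ℕ =>
      ∃ k n : ℕ, m = k * n ∧ k.Prime ∧ K ≤ k ∧ k ≤ n ∧
        ArithmeticFunction.cardFactors (Nat.nth Nat.Prime (k * n - 1) ^ 2 - 2) ≤ 5 + C) with hS
  have hsub : S1 ⊆ S ∪ (S2 ∪ S3) := by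
    intro m hm
    rw [hS1, mem_filter, mem_Icc] at hm
    obtain ⟨⟨hm1, hmX⟩, hm2, -⟩ := hm
    by_cases h2 : m ∈ S2
    · exact mem_union_right _ (mem_union_left _ h2)
    by_cases h3 : m ∈ S3
    · exact mem_union_right _ (mem_union_right _ h3)
    refine mem_union_left _ ?_
    rw [hS2, mem_filter, mem_Icc] at h2
    push Not at h2
    obtain ⟨p, hp, hKp, hpX, q, hq⟩ := h2 ⟨hm1, hmX⟩
    rw [hS3, mem_Icc] at h3
    push Not at h3
    have h4 : (X : ℝ) ^ ((2 : ℝ) / 3) < m := (Nat.floor_lt (by positivity)).1 (h3 hm1)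
    rw [hS, mem_filter, mem_Icc]
    refine ⟨⟨hm1, hmX⟩, p, q, hq, hp, hKp, ?_, by rw [← hq]; exact hm2⟩
    by_contra hlt
    push Not at hlt
    have h5 : (m : ℝ) ≤ (X : ℝ) ^ ((1 : ℝ) / 3) * (X : ℝ) ^ ((1 : ℝ) / 3) := by
      rw [hq]
      push_cast
      have h6 : (q : ℝ) ≤ (X : ℝ) ^ ((1 : ℝ) / 3) := le_trans (by exact_mod_cast hlt.le) hpX
      exact mul_le_mul hpX h6 (by positivity) (by positivity)
    rw [← Real.rpow_add hX0] at h5
    norm_num at h5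
    linarith
  have hcard : (S1.card : ℝ) ≤ S.card + (S2.card + S3.card) := by
    have h1 := (card_le_card hsub).trans (card_union_le _ _)
    have h2 := card_union_le S2 S3
    exact_mod_cast h1.trans (Nat.add_le_add_left h2 _)
  have hc3 : (S3.card : ℝ) ≤ (X : ℝ) ^ ((2 : ℝ) / 3) := by
    rw [hS3, Nat.card_Icc, Nat.add_sub_cancel]
    exact Nat.floor_le (by positivity)
  have hA : (X : ℝ) ^ ((2 : ℝ) / 3) ≤ (c₁ / 4) * u ^ C * (X / l) := by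
    have h1 : (X : ℝ) = (X : ℝ) ^ ((2 : ℝ) / 3) * (X : ℝ) ^ ((1 : ℝ) / 3) := by
      rw [← Real.rpow_add hX0]
      norm_num
    have h2 : (c₁ / 4) * u ^ C * (X / l) = (X : ℝ) ^ ((2 : ℝ) / 3) * (((c₁ / 4) * (X : ℝ) ^ ((1 : ℝ) / 3)) / l * u ^ C) := by
      conv_lhs => rw [h1]
      ring
    rw [h2]
    have h3 : 1 ≤ ((c₁ / 4) * (X : ℝ) ^ ((1 : ℝ) / 3)) / l := by
      rw [le_div_iff₀ hl0]
      linarith
    have h4 : 1 ≤ ((c₁ / 4) * (X : ℝ) ^ ((1 : ℝ) / 3)) / l * u ^ C := one_le_mul_of_one_le_of_one_le h3 huC1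
    exact le_mul_of_one_le_right (by positivity) h4
  have hB : C₁ * X * (c * u ^ C / l) ≤ (c₁ / 4) * u ^ C * (X / l) := by
    have h1 : C₁ * c ≤ c₁ / 4 := by
      calc C₁ * c ≤ C₁ * (c₁ / (4 * C₁)) := mul_le_mul_of_nonneg_left hcc2 hC₁.le
        _ = c₁ / 4 := by field_simp
    have h2 : C₁ * X * (c * u ^ C / l) = (C₁ * c) * (u ^ C * (X / l)) := by ring
    rw [h2, mul_assoc (c₁ / 4)]
    exact mul_le_mul_of_nonneg_right h1 (by positivity)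
  have hD : c * u ^ C * (X / l) ≤ (c₁ / 4) * u ^ C * (X / l) := by
    rw [mul_assoc, mul_assoc]
    exact mul_le_mul_of_nonneg_right hcc1 (by positivity)
  have hE : 0 ≤ (c₁ / 4) * u ^ C * (X / l) := by positivity
  have hF : c₁ * u ^ C * (X / l) = 4 * ((c₁ / 4) * u ^ C * (X / l)) := by ring
  rw [hF] at hi
  linarith

end Pool.Agent.Work.MP_c971ef_nt.R5
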